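import Mathlib

set_option autoImplicit false

/-!
# Pseudo-characters of dimension three and products of traces over the cycles of a permutation
-/

namespace Pool.Agent.H20.TR

section

variable {M B : Type*} [Mul M] [CommRing B]

/-- The value that the fundamental trace identity of `3 × 3` matrices gives to the sum of the six
traces `t (π(p,q,r) * s)`: all its terms are products of at least two traces. -/
def low (t : M → B) (p q r s : M) : B :=
  t p * (t (q * r * s) + t (r * q * s)) + t q * (t (p * r * s) + t (r * p * s))
    + t r * (t (p * q * s) + t (q * p * s))
    - (t p * t q - t (p * q)) * t (r * s) - (t p * t r - t (p * r)) * t (q * s)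
    - (t q * t r - t (q * r)) * t (p * s)
    + (t p * t q * t r - t (p * q) * t r - t (p * r) * t q - t (q * r) * t p
        + t (p * q * r) + t (p * r * q)) * t s

/-- The fundamental trace identity of `3 × 3` matrices. -/
def fund (t : M → B) (p q r s : M) : B :=
  t (p * q * r * s) + t (p * r * q * s) + t (q * p * r * s) + t (q * r * p * s)
    + t (r * p * q * s) + t (r * q * p * s) - low t p q r s

/-- The product over the cycles of `σ` of the traces of the products of the `w i` along the cycle
`i, σ i, σ (σ i), …`, computed by removing the point `0` and merging `w 0` into `w (σ 0)`. -/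
def T (t : M → B) : (n : ℕ) → Equiv.Perm (Fin n) → (Fin n → M) → B
  | 0, _, _ => 1
  | n + 1, σ, w =>
    Fin.cases (motive := fun _ => B)
      (t (w 0) * T t n (Equiv.Perm.decomposeFin σ).2 (fun i => w i.succ))
      (fun j => T t n (Equiv.Perm.decomposeFin σ).2
        (Function.update (fun i => w i.succ) j (w 0 * w j.succ)))
      (Equiv.Perm.decomposeFin σ).1

end

/-- Pseudo-characters of dimension three on a monoid. -/
structure IsPC {M B : Type*} [Monoid M] [CommRing B] (t : M → B) : Prop where
  one : t 1 = 3
  cyc : ∀ a b, t (a * b) = t (b * a)
  fund : ∀ p q r s, fund t p q r s = 0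

end Pool.Agent.H20.TR
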