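import Mathlib
import Pool.Agent.H20.TR.Defs

set_option autoImplicit false

/-!
# Conjugation invariance of products of traces over the cycles of a permutation
-/

namespace Pool.Agent.H20.TR

open Equiv

/-- Product of traces over cycles, computed by removing the points of the list `L` in order. -/
def modA_R {α M B : Type*} [DecidableEq α] [Mul M] [CommRing B] (t : M → B) :
    List α → Equiv.Perm α → (α → M) → B
  | [], _, _ => 1
  | a :: L, σ, w =>
    if σ a = a then t (w a) * modA_R t L σ w
    else modA_R t L (Equiv.swap a (σ a) * σ) (Function.update w (σ a) (w a * w (σ a)))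

lemma modA_congr {α M B : Type*} [DecidableEq α] [Mul M] [CommRing B] (t : M → B)
    (L : List α) : ∀ (σ : Equiv.Perm α) (w w' : α → M), (∀ x ∈ L, w x = w' x) →
      modA_R t L σ w = modA_R t L σ w' := by
  induction L with
  | nil => intro σ w w' _; rfl
  | cons a L ih =>
    intro σ w w' h
    have ha : w a = w' a := h a (by simp)
    have hL : ∀ x ∈ L, w x = w' x := fun x hx => h x (by simp [hx])
    simp only [modA_R]
    split_ifs with h0
    · rw [ha, ih σ w w' hL]
    · apply ih
      intro x hx
      by_cases hxc : x = σ a
      · subst hxc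
        simp [ha, hL _ hx]
      · simp [Function.update_of_ne hxc, hL x hx]

lemma modA_map {α β M B : Type*} [DecidableEq α] [DecidableEq β] [Mul M] [CommRing B] (t : M → B)
    (f : α → β) (hf : Function.Injective f) (L : List α) :
    ∀ (σ : Equiv.Perm α) (τ : Equiv.Perm β) (w : β → M), (∀ x, τ (f x) = f (σ x)) →
      modA_R t (L.map f) τ w = modA_R t L σ (fun x => w (f x)) := by
  induction L with
  | nil => intro σ τ w _; rfl
  | cons a L ih =>
    intro σ τ w h
    simp only [List.map_cons, modA_R, h a, hf.eq_iff]
    split_ifs with h0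
    · rw [ih σ τ w h]
    · rw [ih (Equiv.swap a (σ a) * σ)]
      · congr 1
        funext x
        by_cases hx : x = σ a
        · subst hx; simp
        · have : f x ≠ f (σ a) := fun hh => hx (hf hh)
          simp [Function.update_of_ne hx, Function.update_of_ne this]
      · intro x
        simp only [Equiv.Perm.mul_apply, h x]
        exact (hf.swap_apply _ _ _).symm ▸ rfl

lemma modA_swap {α M B : Type*} [DecidableEq α] [Semigroup M] [CommRing B] (t : M → B)
    (hcyc : ∀ a b, t (a * b) = t (b * a)) (a b : α) (hab : a ≠ b) (L : List α) (ha : a ∉ L)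
    (hb : b ∉ L) (σ : Equiv.Perm α) (w : α → M) :
    modA_R t (a :: b :: L) σ w = modA_R t (b :: a :: L) σ w := by
  -- the case `σ a = b`, `σ b = c` with `c` another point, for both orders
  have key : ∀ (a b c : α) (σ : Equiv.Perm α), a ≠ b → c ≠ a → c ≠ b → a ∉ L → b ∉ L →
      σ a = b → σ b = c → modA_R t (a :: b :: L) σ w = modA_R t (b :: a :: L) σ w := by
    intro a b c σ hab hca hcb ha hb h1 h2
    have e1 : (Equiv.swap a b * σ) b = c := by
      rw [Equiv.Perm.mul_apply, h2, Equiv.swap_apply_of_ne_of_ne hca hcb]
    have e2 : (Equiv.swap b c * σ) a = c := by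
      rw [Equiv.Perm.mul_apply, h1, Equiv.swap_apply_left]
    simp only [modA_R, h1, h2, e1, e2, if_neg (Ne.symm hab), if_neg hcb, if_neg hca]
    have e3 : Equiv.swap b c * (Equiv.swap a b * σ) = Equiv.swap a c * (Equiv.swap b c * σ) := by
      rw [← mul_assoc, ← mul_assoc]
      congr 1
      ext x
      simp only [Equiv.Perm.mul_apply, Equiv.swap_apply_def]
      split_ifs <;> simp_all
    rw [e3]
    apply modA_congr
    intro x hx
    have hxa : x ≠ a := fun h => ha (h ▸ hx)
    have hxb : x ≠ b := fun h => hb (h ▸ hx)
    by_cases hxc : x = c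
    · subst hxc
      simp [Function.update_of_ne hxb, Function.update_of_ne hxa.symm, mul_assoc]
    · simp [Function.update_of_ne hxc, Function.update_of_ne hxb]
  by_cases h1 : σ a = a
  · by_cases h2 : σ b = b
    · simp only [modA_R, h1, h2, if_true]
      ring
    · have hca : σ b ≠ a := by
        intro h; exact hab (σ.injective (h1.trans h.symm))
      have e2 : (Equiv.swap b (σ b) * σ) a = a := by
        rw [Equiv.Perm.mul_apply, h1, Equiv.swap_apply_of_ne_of_ne hab hca.symm]
      simp only [modA_R, h1, if_true, if_neg h2, e2, Function.update_of_ne hca.symm]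
  · by_cases h2 : σ b = b
    · have hca : σ a ≠ b := by
        intro h; exact hab (σ.injective (h.trans h2.symm))
      have e2 : (Equiv.swap a (σ a) * σ) b = b := by
        rw [Equiv.Perm.mul_apply, h2, Equiv.swap_apply_of_ne_of_ne hab.symm hca.symm]
      simp only [modA_R, h2, if_true, if_neg h1, e2, Function.update_of_ne hca.symm]
    · by_cases h3 : σ a = b
      · by_cases h4 : σ b = a
        · have e1 : (Equiv.swap a b * σ) b = b := by
            rw [Equiv.Perm.mul_apply, h4, Equiv.swap_apply_left]
          have e2 : (Equiv.swap b a * σ) a = a := by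
            rw [Equiv.Perm.mul_apply, h3, Equiv.swap_apply_left]
          simp only [modA_R, h3, h4, if_neg hab, if_neg (Ne.symm hab), e1, e2, if_true,
            Function.update_self]
          rw [hcyc (w a) (w b), Equiv.swap_comm b a]
          congr 1
          apply modA_congr
          intro x hx
          have hxa : x ≠ a := fun h => ha (h ▸ hx)
          have hxb : x ≠ b := fun h => hb (h ▸ hx)
          simp [Function.update_of_ne hxa, Function.update_of_ne hxb]
        · exact key a b (σ b) σ hab h4 h2 ha hb h3 rfl
      · by_cases h4 : σ b = a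
        · exact (key b a (σ a) σ hab.symm h3 h1 hb ha h4 rfl).symm
        · have hcd : σ a ≠ σ b := fun h => hab (σ.injective h)
          have e1 : (Equiv.swap a (σ a) * σ) b = σ b := by
            rw [Equiv.Perm.mul_apply, Equiv.swap_apply_of_ne_of_ne h4 hcd.symm]
          have e2 : (Equiv.swap b (σ b) * σ) a = σ a := by
            rw [Equiv.Perm.mul_apply, Equiv.swap_apply_of_ne_of_ne h3 hcd]
          simp only [modA_R, if_neg h1, if_neg h2, e1, e2]
          have hsw : ∀ c d : α, c ≠ a → c ≠ b → d ≠ a → d ≠ b → c ≠ d →
              Equiv.swap b d * Equiv.swap a c = Equiv.swap a c * Equiv.swap b d := by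
            intro c d hc1 hc2 hd1 hd2 hcd'
            ext x
            simp only [Equiv.Perm.mul_apply, Equiv.swap_apply_def]
            split_ifs <;> simp_all
          have e3 : Equiv.swap b (σ b) * (Equiv.swap a (σ a) * σ)
              = Equiv.swap a (σ a) * (Equiv.swap b (σ b) * σ) := by
            rw [← mul_assoc, ← mul_assoc, hsw (σ a) (σ b) h1 h3 h4 h2 hcd]
          rw [e3]
          apply modA_congr
          intro x hx
          simp only [Function.update_of_ne (Ne.symm h3), Function.update_of_ne (Ne.symm h4),
            Function.update_of_ne hcd, Function.update_of_ne (Ne.symm hcd)]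
          by_cases hxc : x = σ a
          · subst hxc
            simp [Function.update_of_ne hcd]
          · by_cases hxd : x = σ b
            · subst hxd
              simp [Function.update_of_ne hxc]
            · simp [Function.update_of_ne hxc, Function.update_of_ne hxd]

lemma modA_perm {α M B : Type*} [DecidableEq α] [Semigroup M] [CommRing B] (t : M → B)
    (hcyc : ∀ a b, t (a * b) = t (b * a)) {L L' : List α} (h : L.Perm L') :
    L.Nodup → ∀ (σ : Equiv.Perm α) (w : α → M), modA_R t L σ w = modA_R t L' σ w := by
  induction h with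
  | nil => intro _ σ w; rfl
  | cons a _ ih =>
    intro hn σ w
    have hn' := (List.nodup_cons.mp hn).2
    simp only [modA_R]
    rw [ih hn', ih hn']
  | swap a b L =>
    intro hn σ w
    have h1 := List.nodup_cons.mp hn
    have h2 := List.nodup_cons.mp h1.2
    exact modA_swap t hcyc b a (fun h => h1.1 (by simp [h])) L (fun h => h1.1 (by simp [h])) h2.1 σ w
  | trans h1 _ ih1 ih2 =>
    intro hn σ w
    rw [ih1 hn, ih2 (h1.nodup_iff.mp hn)]

lemma modA_T {M B : Type*} [Mul M] [CommRing B] (t : M → B) (n : ℕ) :
    ∀ (σ : Equiv.Perm (Fin n)) (w : Fin n → M), T t n σ w = modA_R t (List.finRange n) σ w := by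
  induction n with
  | zero => intro σ w; rfl
  | succ n ih =>
    intro σ w
    obtain ⟨⟨p, e⟩, rfl⟩ := Equiv.Perm.decomposeFin.symm.surjective σ
    rw [List.finRange_succ]
    have hT : T t (n + 1) (Equiv.Perm.decomposeFin.symm (p, e)) w =
        Fin.cases (motive := fun _ => B)
      (t (w 0) * T t n e (fun i => w i.succ))
      (fun j => T t n e
        (Function.update (fun i => w i.succ) j (w 0 * w j.succ))) p := by
      simp only [T, Equiv.apply_symm_apply]
    rw [hT]
    simp only [modA_R, Equiv.Perm.decomposeFin_symm_apply_zero]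
    induction p using Fin.cases with
    | zero =>
      simp only [Fin.cases_zero, if_true]
      rw [ih, modA_map t Fin.succ (Fin.succ_injective n) _ e]
      intro x
      rw [Equiv.Perm.decomposeFin_symm_apply_succ, Equiv.swap_self]
      rfl
    | succ j =>
      simp only [Fin.cases_succ, if_neg (Fin.succ_ne_zero j)]
      rw [ih, modA_map t Fin.succ (Fin.succ_injective n) _ e]
      · congr 1
        funext x
        by_cases hx : x = j
        · subst hx; simp
        · have : x.succ ≠ j.succ := fun h => hx (Fin.succ_injective n h)
          simp [Function.update_of_ne hx, Function.update_of_ne this]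
      · intro x
        rw [Equiv.Perm.mul_apply, Equiv.Perm.decomposeFin_symm_apply_succ, Equiv.swap_apply_self]

theorem T_conj {M B : Type*} [Monoid M] [CommRing B] (t : M → B)
    (hcyc : ∀ a b, t (a * b) = t (b * a)) (n : ℕ) (ρ σ : Equiv.Perm (Fin n)) (w : Fin n → M) :
    T t n (ρ * σ * ρ⁻¹) (fun i => w (ρ⁻¹ i)) = T t n σ w := by
  rw [modA_T, modA_T]
  have h1 : (List.finRange n).Perm ((List.finRange n).map ρ) := by
    refine (List.perm_ext_iff_of_nodup (List.nodup_finRange n)
      ((List.nodup_finRange n).map ρ.injective)).mpr ?_
    intro x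
    simp only [List.mem_finRange, List.mem_map, true_and, true_iff]
    exact ⟨ρ⁻¹ x, by simp⟩
  rw [modA_perm t hcyc h1 (List.nodup_finRange n), modA_map t ρ ρ.injective _ σ]
  · simp
  · intro x
    simp

end Pool.Agent.H20.TR
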