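import Pool.Agent.H20.TR.Defs

set_option autoImplicit false

namespace Pool.Agent.H20.TR

theorem T_zero {M B : Type*} [Mul M] [CommRing B] (t : M → B) (σ : Equiv.Perm (Fin 0))
    (w : Fin 0 → M) : T t 0 σ w = 1 := rfl

theorem T_succ_zero {M B : Type*} [Mul M] [CommRing B] (t : M → B) (n : ℕ)
    (e : Equiv.Perm (Fin n)) (w : Fin (n + 1) → M) :
    T t (n + 1) (Equiv.Perm.decomposeFin.symm (0, e)) w
      = t (w 0) * T t n e (fun i => w i.succ) := by
  conv_lhs => unfold T
  rw [Equiv.apply_symm_apply]
  rfl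

theorem T_succ_succ {M B : Type*} [Mul M] [CommRing B] (t : M → B) (n : ℕ) (j : Fin n)
    (e : Equiv.Perm (Fin n)) (w : Fin (n + 1) → M) :
    T t (n + 1) (Equiv.Perm.decomposeFin.symm (j.succ, e)) w
      = T t n e (Function.update (fun i => w i.succ) j (w 0 * w j.succ)) := by
  conv_lhs => unfold T
  rw [Equiv.apply_symm_apply]
  rfl

theorem T_trace (n : ℕ) (σ : Equiv.Perm (Fin n)) (A : Fin n → Matrix (Fin 3) (Fin 3) ℂ) :
    T (Matrix.trace (R := ℂ) (n := Fin 3)) n σ A
      = ∑ f : Fin n → Fin 3, ∏ i, A i (f i) (f (σ i)) := by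
  induction n with
  | zero => simp [T_zero]
  | succ n ih =>
    obtain ⟨⟨p, e⟩, rfl⟩ := Equiv.Perm.decomposeFin.symm.surjective σ
    revert A
    refine Fin.cases ?_ (fun j => ?_) p
    · intro A
      rw [T_succ_zero, ih, ← (Fin.consEquiv (fun _ : Fin (n+1) => Fin 3)).sum_comp,
        Fintype.sum_prod_type, Matrix.trace, Finset.sum_mul]
      refine Finset.sum_congr rfl (fun a _ => ?_)
      rw [Finset.mul_sum]
      refine Finset.sum_congr rfl (fun g _ => ?_)
      rw [Fin.prod_univ_succ]
      simp [Fin.consEquiv, Matrix.diag]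
    · intro A
      rw [T_succ_succ, ih]
      have hs : ∀ F : (Fin (n+1) → Fin 3) → ℂ, ∑ f, F f
          = ∑ f : Fin (n+1) → Fin 3, F (f ∘ Equiv.swap 0 j.succ) := by
        intro F
        exact ((Equiv.arrowCongr (Equiv.swap 0 j.succ) (Equiv.refl (Fin 3))).sum_comp
          (fun f => F f)).symm.trans (Finset.sum_congr rfl (fun f _ => by
            congr 1))
      rw [hs, ← (Fin.consEquiv (fun _ : Fin (n+1) => Fin 3)).sum_comp,
        Fintype.sum_prod_type, Finset.sum_comm]
      refine Finset.sum_congr rfl (fun g _ => ?_)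
      have hprod : ∀ a : Fin 3, ∏ i, A i
          (((Fin.consEquiv (fun _ : Fin (n+1) => Fin 3)) (a, g) ∘ (Equiv.swap 0 j.succ)) i)
          (((Fin.consEquiv (fun _ : Fin (n+1) => Fin 3)) (a, g) ∘ (Equiv.swap 0 j.succ))
            ((Equiv.Perm.decomposeFin.symm (j.succ, e)) i))
          = (A 0 (g j) a * A j.succ a (g (e j))) *
            ∏ i ∈ Finset.univ.erase j, A i.succ (g i) (g (e i)) := by
        intro a
        rw [Fin.prod_univ_succ]
        rw [← Finset.mul_prod_erase Finset.univ _ (Finset.mem_univ j), ← mul_assoc]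
        congr 1
        · congr 1
          · simp [Fin.consEquiv]
          · simp [Fin.consEquiv]
        · refine Finset.prod_congr rfl (fun i hi => ?_)
          have hij : i ≠ j := (Finset.mem_erase.mp hi).1
          have h1 : Equiv.swap 0 j.succ i.succ = i.succ :=
            Equiv.swap_apply_of_ne_of_ne (Fin.succ_ne_zero i)
              (fun h => hij (Fin.succ_injective _ h))
          simp [Fin.consEquiv, h1]
      simp only [hprod]
      rw [← Finset.sum_mul, ← Finset.mul_prod_erase Finset.univ _ (Finset.mem_univ j)]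
      congr 1
      · rw [Function.update_self, Matrix.mul_apply]
      · refine Finset.prod_congr rfl (fun i hi => ?_)
        have hij : i ≠ j := (Finset.mem_erase.mp hi).1
        rw [Function.update_of_ne hij]

end Pool.Agent.H20.TR
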