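import Pool.Agent.H20.TR.Defs
import Pool.Agent.H20.TR.ModA

set_option autoImplicit false

namespace Pool.Agent.H20.TR

theorem modC_dec_mul {n : ℕ} (σ : Equiv.Perm (Fin (n + 1))) (π' : Equiv.Perm (Fin n)) :
    Equiv.Perm.decomposeFin (σ * Equiv.Perm.decomposeFin.symm (0, π')) =
      ((Equiv.Perm.decomposeFin σ).1, (Equiv.Perm.decomposeFin σ).2 * π') := by
  obtain ⟨⟨p, e⟩, rfl⟩ := Equiv.Perm.decomposeFin.symm.surjective σ
  rw [Equiv.apply_symm_apply, ← Equiv.eq_symm_apply]
  ext i : 1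
  refine Fin.cases ?_ (fun x => ?_) i
  · simp
  · simp [Equiv.Perm.mul_apply]

/-- The recursion written with the image of `0` and the removed permutation. -/
def modC_rec {M B : Type*} [Mul M] [CommRing B] (t : M → B) (n : ℕ) (p : Fin (n + 1))
    (e : Equiv.Perm (Fin n)) (w : Fin (n + 1) → M) : B :=
  Fin.cases (motive := fun _ => B)
      (t (w 0) * T t n e (fun i => w i.succ))
      (fun j => T t n e
        (Function.update (fun i => w i.succ) j (w 0 * w j.succ))) p

theorem modC_T_succ {M B : Type*} [Mul M] [CommRing B] (t : M → B) (n : ℕ)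
    (σ : Equiv.Perm (Fin (n + 1))) (w : Fin (n + 1) → M) :
    T t (n + 1) σ w = modC_rec t n (Equiv.Perm.decomposeFin σ).1
      (Equiv.Perm.decomposeFin σ).2 w := rfl

theorem modC_T_dec {M B : Type*} [Mul M] [CommRing B] (t : M → B) (n : ℕ) (p : Fin (n + 1))
    (e : Equiv.Perm (Fin n)) (w : Fin (n + 1) → M) :
    T t (n + 1) (Equiv.Perm.decomposeFin.symm (p, e)) w = modC_rec t n p e w := by
  rw [modC_T_succ, Equiv.apply_symm_apply]

/-- The antisymmetrization over all permutations. -/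
def modC_A {M B : Type*} [Mul M] [CommRing B] (t : M → B) (n : ℕ) (w : Fin n → M) : B :=
  ∑ π : Equiv.Perm (Fin n), (Equiv.Perm.sign π : ℤ) • T t n π w

theorem modC_A_succ {M B : Type*} [Mul M] [CommRing B] (t : M → B) (n : ℕ)
    (w : Fin (n + 1) → M) :
    modC_A t (n + 1) w = t (w 0) * modC_A t n (fun i => w i.succ)
      - ∑ j : Fin n, modC_A t n (Function.update (fun i => w i.succ) j (w 0 * w j.succ)) := by
  unfold modC_A
  rw [← Equiv.sum_comp Equiv.Perm.decomposeFin.symm, Fintype.sum_prod_type, Fin.sum_univ_succ,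
    sub_eq_add_neg, Finset.mul_sum, ← Finset.sum_neg_distrib]
  congr 1
  · refine Finset.sum_congr rfl fun π _ => ?_
    rw [modC_T_dec, Equiv.Perm.decomposeFin.symm_sign]
    simp only [modC_rec, Fin.cases_zero, if_true, one_mul, zsmul_eq_mul]
    ring
  · refine Finset.sum_congr rfl fun j _ => ?_
    rw [← Finset.sum_neg_distrib]
    refine Finset.sum_congr rfl fun π _ => ?_
    rw [modC_T_dec, Equiv.Perm.decomposeFin.symm_sign]
    simp [modC_rec, Fin.succ_ne_zero]

theorem modC_A_zero {M B : Type*} [Mul M] [CommRing B] (t : M → B) (w : Fin 0 → M) :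
    modC_A t 0 w = 1 := by
  unfold modC_A
  simp [T]

theorem modC_A_four {M B : Type*} [Monoid M] [CommRing B] (t : M → B) (ht : IsPC t)
    (w : Fin 4 → M) : modC_A t 4 w = 0 := by
  have hf := ht.fund (w 0) (w 1) (w 2) (w 3)
  have h1 : t (w 1 * (w 0 * w 2)) = t (w 0 * w 2 * w 1) := ht.cyc _ _
  simp only [fund, low] at hf
  simp only [modC_A_succ, modC_A_zero, Fin.sum_univ_succ, Fin.sum_univ_zero, Function.update]
  simp [Fin.ext_iff]
  simp only [mul_assoc] at hf h1 ⊢
  linear_combination -hf + t (w 3) * h1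

/-- The embedding into `Fin (n + 1)` avoiding `0`. -/
theorem modC_via_succ {n : ℕ} (e : Fin 4 ↪ Fin n) (π : Equiv.Perm (Fin 4)) :
    π.viaFintypeEmbedding (e.trans (Fin.succEmb n)) =
      Equiv.Perm.decomposeFin.symm (0, π.viaFintypeEmbedding e) := by
  ext i : 1
  refine Fin.cases ?_ (fun x => ?_) i
  · rw [Equiv.Perm.viaFintypeEmbedding_apply_notMem_range]
    · simp
    · rintro ⟨y, hy⟩
      exact Fin.succ_ne_zero _ hy
  · by_cases hx : x ∈ Set.range e
    · obtain ⟨y, rfl⟩ := hx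
      have h1 : (e y).succ = (e.trans (Fin.succEmb n)) y := rfl
      rw [h1, Equiv.Perm.viaFintypeEmbedding_apply_image]
      rw [← h1, Equiv.Perm.decomposeFin_symm_apply_succ, Equiv.Perm.viaFintypeEmbedding_apply_image]
      simp
    · rw [Equiv.Perm.viaFintypeEmbedding_apply_notMem_range]
      · rw [Equiv.Perm.decomposeFin_symm_apply_succ,
          Equiv.Perm.viaFintypeEmbedding_apply_notMem_range _ _ hx]
        simp
      · rintro ⟨y, hy⟩
        exact hx ⟨y, Fin.succ_injective _ hy⟩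

theorem modC_via_conj {n : ℕ} (e : Fin 4 ↪ Fin n) (ρ : Equiv.Perm (Fin n))
    (π : Equiv.Perm (Fin 4)) :
    ρ * π.viaFintypeEmbedding e * ρ⁻¹ =
      π.viaFintypeEmbedding (e.trans ρ.toEmbedding) := by
  rw [mul_inv_eq_iff_eq_mul]
  ext i : 1
  by_cases hx : i ∈ Set.range e
  · obtain ⟨y, rfl⟩ := hx
    have h1 : ρ (e y) = (e.trans ρ.toEmbedding) y := rfl
    rw [Equiv.Perm.mul_apply, Equiv.Perm.mul_apply, h1,
      Equiv.Perm.viaFintypeEmbedding_apply_image, Equiv.Perm.viaFintypeEmbedding_apply_image]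
    rfl
  · rw [Equiv.Perm.mul_apply, Equiv.Perm.mul_apply,
      Equiv.Perm.viaFintypeEmbedding_apply_notMem_range _ _ hx,
      Equiv.Perm.viaFintypeEmbedding_apply_notMem_range]
    rintro ⟨y, hy⟩
    exact hx ⟨y, ρ.injective hy⟩

theorem modC_step {M B : Type*} [Mul M] [CommRing B] (t : M → B) (n : ℕ)
    (IH : ∀ (σ : Equiv.Perm (Fin n)) (e : Fin 4 ↪ Fin n) (w : Fin n → M),
      ∑ π : Equiv.Perm (Fin 4), (Equiv.Perm.sign π : ℤ) •
        T t n (σ * π.viaFintypeEmbedding e) w = 0)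
    (σ : Equiv.Perm (Fin (n + 1))) (e : Fin 4 ↪ Fin n) (w : Fin (n + 1) → M) :
    ∑ π : Equiv.Perm (Fin 4), (Equiv.Perm.sign π : ℤ) •
      T t (n + 1) (σ * π.viaFintypeEmbedding (e.trans (Fin.succEmb n))) w = 0 := by
  simp only [modC_via_succ, modC_T_succ, modC_dec_mul]
  generalize (Equiv.Perm.decomposeFin σ).1 = p
  generalize (Equiv.Perm.decomposeFin σ).2 = τ
  refine Fin.cases ?_ (fun j => ?_) p
  · simp only [modC_rec, Fin.cases_zero]
    simp only [← mul_smul_comm, ← Finset.mul_sum, IH, mul_zero]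
  · simp only [modC_rec, Fin.cases_succ]
    exact IH _ _ _

theorem modC_bij {M B : Type*} [Monoid M] [CommRing B] (t : M → B) (ht : IsPC t)
    (σ : Equiv.Perm (Fin 4)) (e : Fin 4 ↪ Fin 4) (w : Fin 4 → M) :
    ∑ π : Equiv.Perm (Fin 4), (Equiv.Perm.sign π : ℤ) •
      T t 4 (σ * π.viaFintypeEmbedding e) w = 0 := by
  obtain ⟨f, hf⟩ : ∃ f : Equiv.Perm (Fin 4), ∀ i, f i = e i :=
    ⟨Equiv.ofBijective e (Finite.injective_iff_bijective.mp e.injective), fun i => rfl⟩
  have h1 : ∀ π : Equiv.Perm (Fin 4), π.viaFintypeEmbedding e = f * π * f⁻¹ := by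
    intro π
    rw [eq_mul_inv_iff_mul_eq]
    ext i : 1
    rw [Equiv.Perm.mul_apply, Equiv.Perm.mul_apply, hf, hf,
      Equiv.Perm.viaFintypeEmbedding_apply_image]
  have h2 := modC_A_four t ht w
  unfold modC_A at h2
  rw [← Equiv.sum_comp (Equiv.mulLeft (σ * f))] at h2
  rw [← Equiv.sum_comp (Equiv.mulRight f⁻¹)] at h2
  have h3 : ∀ π : Equiv.Perm (Fin 4),
      (Equiv.Perm.sign (σ * π.viaFintypeEmbedding e) : ℤ) =
        (Equiv.Perm.sign σ : ℤ) * (Equiv.Perm.sign π : ℤ) := by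
    intro π
    rw [Equiv.Perm.sign_mul, Equiv.Perm.viaFintypeEmbedding_sign]
    push_cast
    ring
  have h4 : ∀ π : Equiv.Perm (Fin 4),
      (Equiv.mulLeft (σ * f)) ((Equiv.mulRight f⁻¹) π) = σ * π.viaFintypeEmbedding e := by
    intro π
    rw [h1]
    simp [mul_assoc]
  simp only [h4] at h2
  simp only [h3, mul_smul, ← Finset.smul_sum] at h2
  have h5 : (Equiv.Perm.sign σ : ℤ) * (Equiv.Perm.sign σ : ℤ) = 1 := by
    rcases Int.units_eq_one_or (Equiv.Perm.sign σ) with h | h <;> rw [h] <;> simp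
  have h6 := congrArg (fun x => (Equiv.Perm.sign σ : ℤ) • x) h2
  simpa only [smul_smul, h5, one_smul, smul_zero] using h6

theorem T_four {M B : Type*} [Monoid M] [CommRing B] (t : M → B) (ht : IsPC t)
    (n : ℕ) (σ : Equiv.Perm (Fin n)) (e : Fin 4 ↪ Fin n) (w : Fin n → M) :
    ∑ π : Equiv.Perm (Fin 4), (Equiv.Perm.sign π : ℤ) •
      T t n (σ * π.viaFintypeEmbedding e) w = 0 := by
  induction n with
  | zero => exact (e 0).elim0
  | succ n IH =>
    by_cases hsurj : Function.Surjective e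
    · have hcard : n + 1 = 4 := by
        have := Fintype.card_of_bijective (f := e) ⟨e.injective, hsurj⟩
        simpa using this.symm
      obtain rfl : n = 3 := by omega
      exact modC_bij t ht σ e w
    · obtain ⟨k, hk⟩ : ∃ k, ∀ a, e a ≠ k := by
        simpa [Function.Surjective] using hsurj
      have h1 : ∀ a, (e.trans (Equiv.swap 0 k).toEmbedding) a ≠ 0 := by
        intro a h
        have h' : Equiv.swap 0 k (e a) = 0 := h
        rw [Equiv.swap_apply_eq_iff, Equiv.swap_apply_left] at h'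
        exact hk a h'
      obtain ⟨e', he'⟩ : ∃ e' : Fin 4 ↪ Fin n,
          e.trans (Equiv.swap 0 k).toEmbedding = e'.trans (Fin.succEmb n) := by
        refine ⟨⟨fun a => ((e.trans (Equiv.swap 0 k).toEmbedding) a).pred (h1 a),
          fun a b hab => ?_⟩, ?_⟩
        · exact (e.trans (Equiv.swap 0 k).toEmbedding).injective (Fin.pred_inj.mp hab)
        · ext a : 1
          simp
      have h2 : ∀ π : Equiv.Perm (Fin 4), T t (n + 1) (σ * π.viaFintypeEmbedding e) w =
          T t (n + 1) ((Equiv.swap 0 k * σ * (Equiv.swap 0 k)⁻¹) *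
            π.viaFintypeEmbedding (e'.trans (Fin.succEmb n)))
            (fun i => w ((Equiv.swap 0 k)⁻¹ i)) := by
        intro π
        rw [← T_conj t ht.cyc (n + 1) (Equiv.swap 0 k) (σ * π.viaFintypeEmbedding e) w, ← he',
          ← modC_via_conj]
        congr 1
        group
      simp only [h2]
      exact modC_step t n IH _ _ _

end Pool.Agent.H20.TR
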