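import Pool.Agent.H20.TR.ModB
import Pool.Agent.H20.TR.ModC

set_option autoImplicit false

/-!
# Multilinear second fundamental theorem for traces of 3 by 3 matrices
-/

namespace Pool.Agent.H20.TR

open Equiv

/-- A permutation is bad if it has a decreasing subsequence of length four. -/
def modD_bad {n : ℕ} (σ : Equiv.Perm (Fin n)) : Prop :=
  ∃ i : Fin 4 → Fin n, StrictMono i ∧ StrictAnti (fun a => σ (i a))

/-- The antisymmetrizer vectors. -/
noncomputable def modD_E {n : ℕ} (σ : Equiv.Perm (Fin n)) (e : Fin 4 ↪ Fin n) :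
    Equiv.Perm (Fin n) → ℂ :=
  ∑ π : Equiv.Perm (Fin 4), ((Equiv.Perm.sign π : ℤ) : ℂ) •
    (Pi.single (σ * π.viaFintypeEmbedding e) 1 : Equiv.Perm (Fin n) → ℂ)

/-- Lexicographic comparison. -/
theorem modD_lex {n : ℕ} (σ : Equiv.Perm (Fin n)) (i : Fin 4 → Fin n) (hi : StrictMono i)
    (hs : StrictAnti (fun a => σ (i a))) (π : Equiv.Perm (Fin 4)) (hπ : π ≠ 1) :
    toLex (⇑(σ * π.viaFintypeEmbedding ⟨i, hi.injective⟩)) < toLex (⇑σ) := by
  classical
  have hex : ∃ a, π a ≠ a := by
    by_contra h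
    push Not at h
    exact hπ (Equiv.ext h)
  -- least moved point
  obtain ⟨a, ha, hmin⟩ : ∃ a, π a ≠ a ∧ ∀ b < a, π b = b := by
    have hne : (Finset.univ.filter (fun a => π a ≠ a)).Nonempty := by
      obtain ⟨a, ha⟩ := hex
      exact ⟨a, by simpa using ha⟩
    refine ⟨(Finset.univ.filter (fun a => π a ≠ a)).min' hne, ?_, ?_⟩
    · have := Finset.min'_mem _ hne
      simpa using this
    · intro b hb
      by_contra hb'
      have : (Finset.univ.filter (fun a => π a ≠ a)).min' hne ≤ b :=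
        Finset.min'_le _ _ (by simpa using hb')
      exact absurd hb (not_lt.mpr this)
  have hgt : a < π a := by
    rcases lt_trichotomy a (π a) with h | h | h
    · exact h
    · exact absurd h.symm ha
    · have := hmin _ h
      exact absurd (π.injective this) (ne_of_lt h)
  refine ⟨i a, ?_, ?_⟩
  · intro k hk
    change σ (π.viaFintypeEmbedding ⟨i, hi.injective⟩ k) = σ k
    by_cases hr : k ∈ Set.range (⟨i, hi.injective⟩ : Fin 4 ↪ Fin n)
    · obtain ⟨b, rfl⟩ := hr
      rw [Equiv.Perm.viaFintypeEmbedding_apply_image]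
      have hb : b < a := hi.lt_iff_lt.mp hk
      rw [hmin b hb]
    · rw [Equiv.Perm.viaFintypeEmbedding_apply_notMem_range _ _ hr]
  · change σ (π.viaFintypeEmbedding ⟨i, hi.injective⟩ (i a)) < σ (i a)
    have := Equiv.Perm.viaFintypeEmbedding_apply_image π ⟨i, hi.injective⟩ a
    simp only [Function.Embedding.coeFn_mk] at this
    rw [this]
    exact hs hgt

/-- Straightening: modulo the antisymmetrizers every vector is supported on good permutations. -/
theorem modD_straight {n : ℕ} (σ : Equiv.Perm (Fin n)) :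
    (Pi.single σ 1 : Equiv.Perm (Fin n) → ℂ) ∈
      Submodule.span ℂ {v | ∃ σ e, v = modD_E (n := n) σ e} ⊔
      Submodule.span ℂ {v | ∃ τ : Equiv.Perm (Fin n), ¬ modD_bad τ ∧ v = Pi.single τ 1} := by
  classical
  have key : ∀ x : Lex (Fin n → Fin n), ∀ σ : Equiv.Perm (Fin n), toLex (⇑σ) = x →
    (Pi.single σ 1 : Equiv.Perm (Fin n) → ℂ) ∈
      Submodule.span ℂ {v | ∃ σ e, v = modD_E (n := n) σ e} ⊔
      Submodule.span ℂ {v | ∃ τ : Equiv.Perm (Fin n), ¬ modD_bad τ ∧ v = Pi.single τ 1} := by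
    intro x
    induction x using WellFoundedLT.induction with
    | ind x ih =>
      intro σ hσ
      by_cases hb : modD_bad σ
      · obtain ⟨i, hi, hs⟩ := hb
        have hE : modD_E σ ⟨i, hi.injective⟩ ∈
            Submodule.span ℂ {v | ∃ σ e, v = modD_E (n := n) σ e} ⊔
            Submodule.span ℂ {v | ∃ τ : Equiv.Perm (Fin n), ¬ modD_bad τ ∧
              v = Pi.single τ 1} :=
          Submodule.mem_sup_left (Submodule.subset_span ⟨σ, _, rfl⟩)
        have hsplit : (Pi.single σ 1 : Equiv.Perm (Fin n) → ℂ) =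
            modD_E σ ⟨i, hi.injective⟩ -
            ∑ π ∈ Finset.univ.erase (1 : Equiv.Perm (Fin 4)), ((Equiv.Perm.sign π : ℤ) : ℂ) •
              (Pi.single (σ * π.viaFintypeEmbedding ⟨i, hi.injective⟩) 1 :
                Equiv.Perm (Fin n) → ℂ) := by
          rw [modD_E, ← Finset.add_sum_erase Finset.univ _ (Finset.mem_univ (1 : Equiv.Perm (Fin 4)))]
          have h1 : (1 : Equiv.Perm (Fin 4)).viaFintypeEmbedding ⟨i, hi.injective⟩ = 1 := by
            ext k
            by_cases hr : k ∈ Set.range (⟨i, hi.injective⟩ : Fin 4 ↪ Fin n)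
            · obtain ⟨b, rfl⟩ := hr
              rw [Equiv.Perm.viaFintypeEmbedding_apply_image]
              simp
            · rw [Equiv.Perm.viaFintypeEmbedding_apply_notMem_range _ _ hr]
              simp
          rw [h1]
          simp
        rw [hsplit]
        refine Submodule.sub_mem _ hE (Submodule.sum_mem _ ?_)
        intro π hπ
        refine Submodule.smul_mem _ _ ?_
        refine ih _ ?_ _ rfl
        rw [← hσ]
        exact modD_lex σ i hi hs π (Finset.ne_of_mem_erase hπ)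
      · exact Submodule.mem_sup_right (Submodule.subset_span ⟨σ, hb, rfl⟩)
  exact key _ σ rfl

/-- Antisymmetrizers vanish on matrices. -/
theorem modD_E_matrix {n : ℕ} (σ : Equiv.Perm (Fin n)) (e : Fin 4 ↪ Fin n)
    (A : Fin n → Matrix (Fin 3) (Fin 3) ℂ) :
    ∑ τ, modD_E σ e τ * T (Matrix.trace (R := ℂ) (n := Fin 3)) n τ A = 0 := by
  classical
  have h1 : ∀ τ, modD_E σ e τ = ∑ π : Equiv.Perm (Fin 4), ((Equiv.Perm.sign π : ℤ) : ℂ) *
      (if τ = σ * π.viaFintypeEmbedding e then 1 else 0) := by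
    intro τ
    rw [modD_E, Finset.sum_apply]
    refine Finset.sum_congr rfl fun π _ => ?_
    simp [Pi.single_apply]
  simp_rw [h1, Finset.sum_mul]
  rw [Finset.sum_comm]
  have h2 : ∀ π : Equiv.Perm (Fin 4), ∑ τ, ((Equiv.Perm.sign π : ℤ) : ℂ) *
      (if τ = σ * π.viaFintypeEmbedding e then 1 else 0) *
        T (Matrix.trace (R := ℂ) (n := Fin 3)) n τ A =
      ((Equiv.Perm.sign π : ℤ) : ℂ) *
        T (Matrix.trace (R := ℂ) (n := Fin 3)) n (σ * π.viaFintypeEmbedding e) A := by
    intro π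
    rw [Finset.sum_eq_single (σ * π.viaFintypeEmbedding e)]
    · simp
    · intro b _ hb
      simp [hb]
    · intro h
      exact absurd (Finset.mem_univ _) h
  simp_rw [h2, T_trace, Finset.mul_sum]
  rw [Finset.sum_comm]
  refine Finset.sum_eq_zero fun f _ => ?_
  -- two of the four points have the same colour
  obtain ⟨b, b', hbb, hfb⟩ : ∃ b b' : Fin 4, b ≠ b' ∧ f (σ (e b)) = f (σ (e b')) :=
    Fintype.exists_ne_map_eq_of_card_lt (fun a : Fin 4 => f (σ (e a))) (by simp)
  set S := ∑ π : Equiv.Perm (Fin 4), ((Equiv.Perm.sign π : ℤ) : ℂ) *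
    ∏ i, A i (f i) (f ((σ * π.viaFintypeEmbedding e) i)) with hS
  have hneg : S = -S := by
    conv_lhs => rw [hS, ← Equiv.sum_comp (Equiv.mulLeft (Equiv.swap b b'))]
    rw [hS, ← Finset.sum_neg_distrib]
    refine Finset.sum_congr rfl fun π _ => ?_
    have hsg : ((Equiv.Perm.sign (Equiv.mulLeft (Equiv.swap b b') π) : ℤ) : ℂ) =
        -((Equiv.Perm.sign π : ℤ) : ℂ) := by
      simp [Equiv.Perm.sign_mul, Equiv.Perm.sign_swap hbb]
    rw [hsg, neg_mul]
    congr 2
    refine Finset.prod_congr rfl fun i _ => ?_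
    congr 1
    simp only [Equiv.Perm.coe_mul, Function.comp_apply, Equiv.coe_mulLeft]
    by_cases hr : i ∈ Set.range e
    · obtain ⟨a, rfl⟩ := hr
      rw [Equiv.Perm.viaFintypeEmbedding_apply_image, Equiv.Perm.viaFintypeEmbedding_apply_image]
      simp only [Equiv.Perm.coe_mul, Function.comp_apply]
      by_cases h1 : π a = b
      · rw [h1, Equiv.swap_apply_left, hfb]
      · by_cases h2 : π a = b'
        · rw [h2, Equiv.swap_apply_right, hfb]
        · rw [Equiv.swap_apply_of_ne_of_ne h1 h2]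
    · rw [Equiv.Perm.viaFintypeEmbedding_apply_notMem_range _ _ hr,
        Equiv.Perm.viaFintypeEmbedding_apply_notMem_range _ _ hr]
  exact self_eq_neg.mp hneg

section colour

variable {n : ℕ} (σ : Equiv.Perm (Fin n))

/-- first level -/
def modD_L1 (v : Fin n) : Prop := ∃ v', v < v' ∧ σ.symm v' < σ.symm v

/-- second level -/
def modD_L2 (v : Fin n) : Prop := ∃ v', v < v' ∧ σ.symm v' < σ.symm v ∧ modD_L1 σ v'

open Classical in
/-- the colour -/
noncomputable def modD_col (v : Fin n) : Fin 3 :=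
  if modD_L2 σ v then 2 else if modD_L1 σ v then 1 else 0

theorem modD_col_ne (hσ : ¬ modD_bad σ) (v v' : Fin n) (hv : v < v')
    (hth : σ.symm v' < σ.symm v) : modD_col σ v ≠ modD_col σ v' := by
  have h1 : modD_L1 σ v := ⟨v', hv, hth⟩
  have h3 : ¬ modD_L2 σ v' := by
    rintro ⟨v2, hv2, hth2, v3, hv3, hth3⟩
    refine hσ ⟨![σ.symm v3, σ.symm v2, σ.symm v', σ.symm v], ?_, ?_⟩
    · rw [Fin.strictMono_iff_lt_succ]
      intro i
      fin_cases i
      · exact hth3
      · exact hth2
      · exact hth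
    · rw [Fin.strictAnti_iff_succ_lt]
      intro i
      fin_cases i
      · simpa using hv3
      · simpa using hv2
      · simpa using hv
  by_cases h2 : modD_L1 σ v'
  · have h4 : modD_L2 σ v := ⟨v', hv, hth, h2⟩
    simp [modD_col, h2, h3, h4]
  · by_cases h4 : modD_L2 σ v
    · simp [modD_col, h2, h3, h4]
    · simp [modD_col, h1, h2, h3, h4]

/-- The test matrices for a permutation. -/
noncomputable def modD_A (i : Fin n) : Matrix (Fin 3) (Fin 3) ℂ :=
  Matrix.single (modD_col σ i) (modD_col σ (σ i)) 1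

open Classical in
theorem modD_T_A (τ : Equiv.Perm (Fin n)) :
    T (Matrix.trace (R := ℂ) (n := Fin 3)) n τ (modD_A σ) =
      if ∀ i, modD_col σ (τ i) = modD_col σ (σ i) then 1 else 0 := by
  rw [T_trace, Finset.sum_eq_single (fun i => modD_col σ i)]
  · by_cases h : ∀ i, modD_col σ (τ i) = modD_col σ (σ i)
    · rw [if_pos h]
      refine Finset.prod_eq_one fun i _ => ?_
      rw [modD_A, Matrix.single_apply, if_pos ⟨rfl, (h i).symm⟩]
    · rw [if_neg h]
      push Not at h
      obtain ⟨i, hi⟩ := h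
      refine Finset.prod_eq_zero (Finset.mem_univ i) ?_
      rw [modD_A, Matrix.single_apply, if_neg]
      rintro ⟨-, h2⟩
      exact hi h2.symm
  · intro f _ hf
    have : ∃ i, f i ≠ modD_col σ i := by
      by_contra h
      push Not at h
      exact hf (funext h)
    obtain ⟨i, hi⟩ := this
    refine Finset.prod_eq_zero (Finset.mem_univ i) ?_
    rw [modD_A, Matrix.single_apply, if_neg]
    rintro ⟨h1, -⟩
    exact hi h1.symm
  · intro h
    exact absurd (Finset.mem_univ _) h

/-- If all colours agree and `τ` is lexicographically at most `σ`, then `τ = σ`. -/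
theorem modD_eq (hσ : ¬ modD_bad σ) (τ : Equiv.Perm (Fin n))
    (hc : ∀ i, modD_col σ (τ i) = modD_col σ (σ i)) (hle : toLex (⇑τ) ≤ toLex (⇑σ)) : τ = σ := by
  rcases hle.lt_or_eq with h | h
  · exfalso
    obtain ⟨i, hpre, hlt⟩ := h
    have hpre' : ∀ k < i, τ k = σ k := hpre
    have hlt' : τ i < σ i := hlt
    refine modD_col_ne σ hσ (τ i) (σ i) hlt' ?_ (hc i)
    rw [Equiv.symm_apply_apply]
    rcases lt_trichotomy (σ.symm (τ i)) i with h1 | h1 | h1
    · have h2 := hpre' _ h1
      rw [Equiv.apply_symm_apply] at h2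
      exact absurd (τ.injective h2) (ne_of_lt h1)
    · rw [Equiv.symm_apply_eq] at h1
      exact absurd h1 (ne_of_lt hlt')
    · exact h1
  · exact DFunLike.coe_injective (toLex.injective h)

end colour

/-- Independence of the good permutations. -/
theorem modD_indep {n : ℕ} (c : Equiv.Perm (Fin n) → ℂ) (hc : ∀ σ, modD_bad σ → c σ = 0)
    (h : ∀ A : Fin n → Matrix (Fin 3) (Fin 3) ℂ,
      ∑ σ, c σ * T (Matrix.trace (R := ℂ) (n := Fin 3)) n σ A = 0) : c = 0 := by
  classical
  by_contra hne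
  have hS : (Finset.univ.filter (fun σ => c σ ≠ 0)).Nonempty := by
    by_contra hemp
    rw [Finset.not_nonempty_iff_eq_empty, Finset.filter_eq_empty_iff] at hemp
    apply hne
    funext σ
    have := hemp (Finset.mem_univ σ)
    simpa using this
  obtain ⟨σ, hσ, hmax⟩ := Finset.exists_max_image (Finset.univ.filter (fun σ => c σ ≠ 0))
    (fun σ => toLex (⇑σ)) hS
  have hσ0 : c σ ≠ 0 := by simpa using hσ
  have hgood : ¬ modD_bad σ := fun hb => hσ0 (hc σ hb)
  have h1 := h (modD_A σ)
  rw [Finset.sum_eq_single σ] at h1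
  · rw [modD_T_A, if_pos (fun i => rfl), mul_one] at h1
    exact hσ0 h1
  · intro τ _ hτ
    by_cases hτ0 : c τ = 0
    · rw [hτ0, zero_mul]
    · have hle := hmax τ (by simpa using hτ0)
      rw [modD_T_A, if_neg, mul_zero]
      intro hcol
      exact hτ (modD_eq σ hgood τ hcol hle)
  · intro h
    exact absurd (Finset.mem_univ _) h

theorem sft {n : ℕ} (c : Equiv.Perm (Fin n) → ℂ)
    (h : ∀ A : Fin n → Matrix (Fin 3) (Fin 3) ℂ,
      ∑ σ, c σ * T (Matrix.trace (R := ℂ) (n := Fin 3)) n σ A = 0)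
    {M B : Type*} [Monoid M] [CommRing B] [Algebra ℂ B] (t : M → B) (ht : IsPC t)
    (w : Fin n → M) : ∑ σ, c σ • T t n σ w = 0 := by
  classical
  -- the two linear functionals
  let Φ : (Equiv.Perm (Fin n) → ℂ) →ₗ[ℂ] B :=
    { toFun := fun c => ∑ σ, c σ • T t n σ w
      map_add' := fun x y => by
        simp [add_smul, Finset.sum_add_distrib]
      map_smul' := fun a x => by
        simp [mul_smul, Finset.smul_sum] }
  let Ψ : (Fin n → Matrix (Fin 3) (Fin 3) ℂ) → (Equiv.Perm (Fin n) → ℂ) →ₗ[ℂ] ℂ := fun A =>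
    { toFun := fun c => ∑ σ, c σ * T (Matrix.trace (R := ℂ) (n := Fin 3)) n σ A
      map_add' := fun x y => by
        simp [add_mul, Finset.sum_add_distrib]
      map_smul' := fun a x => by
        simp [mul_assoc, Finset.mul_sum] }
  have hcmem : c ∈ Submodule.span ℂ {v | ∃ σ e, v = modD_E (n := n) σ e} ⊔
      Submodule.span ℂ {v | ∃ τ : Equiv.Perm (Fin n), ¬ modD_bad τ ∧ v = Pi.single τ 1} := by
    have : c = ∑ σ, c σ • (Pi.single σ 1 : Equiv.Perm (Fin n) → ℂ) := by
      funext τ
      rw [Finset.sum_apply]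
      simp [Pi.single_apply]
    rw [this]
    exact Submodule.sum_mem _ fun σ _ => Submodule.smul_mem _ _ (modD_straight σ)
  obtain ⟨x, hx, y, hy, hxy⟩ := Submodule.mem_sup.mp hcmem
  have hxΨ : ∀ A, Ψ A x = 0 := by
    intro A
    have : Submodule.span ℂ {v | ∃ σ e, v = modD_E (n := n) σ e} ≤ LinearMap.ker (Ψ A) := by
      rw [Submodule.span_le]
      rintro v ⟨σ, e, rfl⟩
      exact modD_E_matrix σ e A
    exact this hx
  have hxΦ : Φ x = 0 := by
    have : Submodule.span ℂ {v | ∃ σ e, v = modD_E (n := n) σ e} ≤ LinearMap.ker Φ := by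
      rw [Submodule.span_le]
      rintro v ⟨σ, e, rfl⟩
      change Φ (modD_E σ e) = 0
      rw [modD_E, map_sum]
      have h4 := T_four t ht n σ e w
      rw [← h4]
      refine Finset.sum_congr rfl fun π _ => ?_
      rw [map_smul]
      have : Φ (Pi.single (σ * π.viaFintypeEmbedding e) 1) =
          T t n (σ * π.viaFintypeEmbedding e) w := by
        change ∑ τ, (Pi.single (σ * π.viaFintypeEmbedding e) 1 : Equiv.Perm (Fin n) → ℂ) τ •
          T t n τ w = _
        rw [Finset.sum_eq_single (σ * π.viaFintypeEmbedding e)]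
        · simp
        · intro b _ hb
          simp [hb]
        · intro h
          exact absurd (Finset.mem_univ _) h
      rw [this, ← Int.cast_smul_eq_zsmul ℂ]
    exact this hx
  have hygood : ∀ σ, modD_bad σ → y σ = 0 := by
    intro σ hσ
    have : Submodule.span ℂ {v | ∃ τ : Equiv.Perm (Fin n), ¬ modD_bad τ ∧ v = Pi.single τ 1} ≤
        LinearMap.ker (LinearMap.proj (R := ℂ) (φ := fun _ : Equiv.Perm (Fin n) => ℂ) σ) := by
      rw [Submodule.span_le]
      rintro v ⟨τ, hτ, rfl⟩
      change (Pi.single τ 1 : Equiv.Perm (Fin n) → ℂ) σ = 0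
      rw [Pi.single_apply, if_neg]
      rintro rfl
      exact hτ hσ
    exact this hy
  have hy0 : y = 0 := by
    refine modD_indep y hygood fun A => ?_
    have h1 : Ψ A c = 0 := h A
    rw [← hxy, map_add, hxΨ, zero_add] at h1
    exact h1
  have : Φ c = 0 := by
    rw [← hxy, map_add, hxΦ, hy0, map_zero, add_zero]
  exact this

end Pool.Agent.H20.TR
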