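import Pool.Agent.H20.TR.Defs
import Pool.Agent.H20.TR.ModA
import Pool.Agent.H20.TR.ModB
import Pool.Agent.H20.TR.ModD

set_option autoImplicit false

namespace Pool.Agent.H20.TR

/-! ### The shape of a product of traces -/

theorem modE_T_zero {M B : Type*} [Mul M] [CommRing B] (t : M → B) (n : ℕ)
    (e : Equiv.Perm (Fin n)) (w : Fin (n + 1) → M) :
    T t (n + 1) (Equiv.Perm.decomposeFin.symm (0, e)) w = t (w 0) * T t n e (fun i => w i.succ) := by
  rw [T, Equiv.apply_symm_apply]
  rfl

theorem modE_T_succ {M B : Type*} [Mul M] [CommRing B] (t : M → B) (n : ℕ) (j : Fin n)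
    (e : Equiv.Perm (Fin n)) (w : Fin (n + 1) → M) :
    T t (n + 1) (Equiv.Perm.decomposeFin.symm (j.succ, e)) w =
      T t n e (Function.update (fun i => w i.succ) j (w 0 * w j.succ)) := by
  rw [T, Equiv.apply_symm_apply]
  rfl

/-- The permutation with cycles of the given lengths, in the order of the list. -/
def modE_shp : (n : ℕ) → List ℕ → Equiv.Perm (Fin n)
  | 0, _ => 1
  | _ + 1, [] => 1
  | _ + 1, 0 :: _ => 1
  | n + 1, 1 :: ks => Equiv.Perm.decomposeFin.symm (0, modE_shp n ks)
  | 0 + 1, (_ + 2) :: _ => 1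
  | n + 2, (k + 2) :: ks =>
    Equiv.Perm.decomposeFin.symm (Fin.succ 0, modE_shp (n + 1) ((k + 1) :: ks))

theorem modE_shp_spec {M B : Type*} [Monoid M] [CommRing B] (t : M → B) (n : ℕ) :
    ∀ (w : Fin n → M) (vs : List (List M)), (∀ v ∈ vs, v ≠ []) → List.ofFn w = vs.flatten →
      (vs.map fun v => t v.prod).prod = T t n (modE_shp n (vs.map List.length)) w := by
  induction n with
  | zero =>
    intro w vs hne hw
    cases vs with
    | nil => rfl
    | cons v rest =>
      exfalso
      rw [List.ofFn_zero] at hw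
      have h1 := hw.symm
      rw [List.flatten_cons, List.append_eq_nil_iff] at h1
      exact hne v List.mem_cons_self h1.1
  | succ n ih =>
    intro w vs hne hw
    cases vs with
    | nil =>
      exfalso
      rw [List.ofFn_succ] at hw
      simp at hw
    | cons v rest =>
      have hrest : ∀ u ∈ rest, u ≠ [] := fun u hu => hne u (List.mem_cons_of_mem _ hu)
      cases v with
      | nil => exact absurd rfl (hne [] List.mem_cons_self)
      | cons x v =>
        cases v with
        | nil =>
          rw [List.ofFn_succ, List.flatten_cons, List.cons_append, List.nil_append] at hw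
          injection hw with h1 h2
          rw [List.map_cons, List.map_cons, List.prod_cons, ih _ _ hrest h2]
          have h3 : modE_shp (n + 1) (List.length [x] :: rest.map List.length) =
              Equiv.Perm.decomposeFin.symm (0, modE_shp n (rest.map List.length)) := rfl
          rw [h3, modE_T_zero, h1, List.prod_singleton]
        | cons y v =>
          cases n with
          | zero =>
            exfalso
            rw [List.ofFn_succ, List.ofFn_zero] at hw
            simp at hw
          | succ n =>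
            rw [List.ofFn_succ, List.ofFn_succ, List.flatten_cons, List.cons_append,
              List.cons_append] at hw
            injection hw with h1 h2
            injection h2 with h2 h3
            have h4 : modE_shp (n + 2) (List.length (x :: y :: v) :: rest.map List.length) =
                Equiv.Perm.decomposeFin.symm (Fin.succ 0,
                  modE_shp (n + 1) ((v.length + 1) :: rest.map List.length)) := rfl
            rw [List.map_cons, List.map_cons, List.prod_cons, h4, modE_T_succ]
            have h5 := ih (Function.update (fun i => w i.succ) 0 (w 0 * w (Fin.succ 0)))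
              (((x * y) :: v) :: rest) (by
                intro u hu
                rcases List.mem_cons.1 hu with rfl | hu
                · simp
                · exact hrest u hu) (by
                rw [List.ofFn_succ, List.flatten_cons, List.cons_append, Function.update_self, h1,
                  ← h3]
                congr 1
                · rw [← h2]
                )
            rw [List.map_cons, List.map_cons, List.prod_cons, List.length_cons] at h5
            rw [← h5, List.prod_cons, List.prod_cons, List.prod_cons, mul_assoc]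

/-- The words of a monomial. -/
noncomputable def modE_vs (m : FreeMonoid (Fin 3) →₀ ℕ) : List (List (Fin 3)) :=
  (Finsupp.toMultiset m).toList.map FreeMonoid.toList

theorem modE_prod {α B : Type*} [CommMonoid B] (m : α →₀ ℕ) (f : α → B) :
    ((Finsupp.toMultiset m).toList.map f).prod = m.prod fun v k => f v ^ k := by
  classical
  rw [← Multiset.prod_coe, ← Multiset.map_coe, Multiset.coe_toList,
    Finset.prod_multiset_map_count, Finsupp.toFinset_toMultiset]
  unfold Finsupp.prod
  refine Finset.prod_congr rfl fun v _ => ?_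
  rw [Finsupp.count_toMultiset]

theorem modE_sum {α : Type*} (m : α →₀ ℕ) (f : α → ℕ) :
    ((Finsupp.toMultiset m).toList.map f).sum = m.sum fun v k => k * f v := by
  classical
  rw [← Multiset.sum_coe, ← Multiset.map_coe, Multiset.coe_toList,
    Finset.sum_multiset_map_count, Finsupp.toFinset_toMultiset]
  unfold Finsupp.sum
  refine Finset.sum_congr rfl fun v _ => ?_
  rw [Finsupp.count_toMultiset, smul_eq_mul]

theorem modE_count (m : FreeMonoid (Fin 3) →₀ ℕ) (x : Fin 3) :
    (modE_vs m).flatten.count x = m.sum fun v k => k * v.toList.count x := by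
  rw [List.count_flatten, modE_vs, List.map_map]
  exact modE_sum m fun v => v.toList.count x

theorem modE_length (l : List (Fin 3)) : l.length = ∑ x, l.count x := by
  induction l with
  | nil => simp
  | cons a l ih =>
    rw [List.length_cons, ih]
    simp only [List.count_cons, Finset.sum_add_distrib]
    simp

theorem modE_mono {M B : Type*} [Monoid M] [CommRing B] (t : M → B) (φ : Fin 3 → M)
    (m : FreeMonoid (Fin 3) →₀ ℕ) (hne : ∀ v ∈ m.support, v ≠ 1) {n : ℕ} (L : Fin n → Fin 3)
    (hL : List.ofFn L = (modE_vs m).flatten) :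
    (m.prod fun v k => t (FreeMonoid.lift φ v) ^ k) =
      T t n (modE_shp n ((modE_vs m).map List.length)) (fun i => φ (L i)) := by
  have h := modE_shp_spec t n (fun i => φ (L i)) ((modE_vs m).map (List.map φ)) (by
    intro v hv
    rw [List.mem_map] at hv
    obtain ⟨u, hu, rfl⟩ := hv
    unfold modE_vs at hu
    rw [List.mem_map] at hu
    obtain ⟨v, hv, rfl⟩ := hu
    rw [Multiset.mem_toList, Finsupp.mem_toMultiset] at hv
    intro h0
    rw [List.map_eq_nil_iff] at h0
    exact hne v hv h0) (by
    rw [← List.map_flatten, ← hL, List.map_ofFn]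
    rfl)
  rw [← modE_prod m fun v => t (FreeMonoid.lift φ v)]
  have h2 : ((modE_vs m).map (List.map φ)).map List.length = (modE_vs m).map List.length := by
    rw [List.map_map]
    refine List.map_congr_left fun u _ => ?_
    simp
  rw [h2] at h
  rw [← h, modE_vs, List.map_map, List.map_map]
  congr 1
  refine List.map_congr_left fun v _ => ?_
  simp only [Function.comp]
  rw [FreeMonoid.lift_apply]

/-! ### Polarization -/

/-- Multilinearity of the products of traces. -/
theorem modE_expand {n : ℕ} (σ : Equiv.Perm (Fin n))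
    (D : Fin n → Fin n → Matrix (Fin 3) (Fin 3) ℂ) :
    T (Matrix.trace (R := ℂ) (n := Fin 3)) n σ (fun i => ∑ k, D i k) =
      ∑ g : Fin n → Fin n, T (Matrix.trace (R := ℂ) (n := Fin 3)) n σ (fun i => D i (g i)) := by
  rw [T_trace]
  simp_rw [T_trace, Matrix.sum_apply]
  rw [Finset.sum_comm]
  refine Finset.sum_congr rfl fun f _ => ?_
  rw [Finset.prod_univ_sum, Fintype.piFinset_univ]

theorem modE_scale {n : ℕ} (σ : Equiv.Perm (Fin n)) (p : Fin n → Prop) [DecidablePred p]
    (s : Fin n → ℂ) (A : Fin n → Matrix (Fin 3) (Fin 3) ℂ) :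
    T (Matrix.trace (R := ℂ) (n := Fin 3)) n σ (fun i => if p i then s i • A i else 0) =
      if ∀ i, p i then (∏ i, s i) * T (Matrix.trace (R := ℂ) (n := Fin 3)) n σ A else 0 := by
  rw [T_trace]
  by_cases h : ∀ i, p i
  · rw [if_pos h, T_trace, Finset.mul_sum]
    refine Finset.sum_congr rfl fun f _ => ?_
    rw [← Finset.prod_mul_distrib]
    refine Finset.prod_congr rfl fun i _ => ?_
    rw [if_pos (h i), Matrix.smul_apply, smul_eq_mul]
  · rw [if_neg h]
    push Not at h
    obtain ⟨i, hi⟩ := h
    refine Finset.sum_eq_zero fun f _ => ?_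
    refine Finset.prod_eq_zero (Finset.mem_univ i) ?_
    rw [if_neg hi, Matrix.zero_apply]

theorem modE_e1 {n : ℕ} (g : Fin n → Fin n)
    (h : ∑ i, Finsupp.single (g i) 1 = (∑ i, Finsupp.single i 1 : Fin n →₀ ℕ)) :
    Function.Bijective g := by
  rw [← Finite.surjective_iff_bijective]
  intro k
  by_contra hk
  push Not at hk
  have h1 := DFunLike.congr_fun h k
  rw [Finsupp.finsetSum_apply, Finsupp.finsetSum_apply] at h1
  rw [Finset.sum_eq_zero fun i _ => Finsupp.single_eq_of_ne' (hk i)] at h1
  rw [Finset.sum_eq_single k (fun i _ hi => Finsupp.single_eq_of_ne' hi)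
    (fun h => absurd (Finset.mem_univ k) h), Finsupp.single_eq_same] at h1
  exact absurd h1 (by norm_num)

theorem modE_sum_perm {n : ℕ} {B : Type*} [AddCommMonoid B] (F : (Fin n → Fin n) → B)
    (hF : ∀ g, ¬ Function.Bijective g → F g = 0) :
    ∑ g, F g = ∑ π : Equiv.Perm (Fin n), F π := by
  symm
  refine Finset.sum_of_injOn (fun π : Equiv.Perm (Fin n) => (π : Fin n → Fin n)) ?_ ?_ ?_ ?_
  · intro π _ ρ _ h
    exact DFunLike.coe_injective h
  · intro π _
    exact Finset.mem_coe.2 (Finset.mem_univ _)
  · intro g _ hg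
    refine hF g fun hb => hg ?_
    exact ⟨Equiv.ofBijective g hb, Finset.mem_coe.2 (Finset.mem_univ _), rfl⟩
  · intro π _
    rfl

theorem modE_polar {ι : Type*} {n : ℕ} (S : Finset ι) (c : ι → ℂ) (σ : ι → Equiv.Perm (Fin n))
    (L : ι → Fin n → Fin 3) (l : Fin n → Fin 3)
    (h : ∀ A : Fin 3 → Matrix (Fin 3) (Fin 3) ℂ,
      ∑ m ∈ S, c m * T (Matrix.trace (R := ℂ) (n := Fin 3)) n (σ m) (fun i => A (L m i)) = 0)
    (A : Fin n → Matrix (Fin 3) (Fin 3) ℂ) :
    ∑ m ∈ S, c m * ∑ π : Equiv.Perm (Fin n), (if ∀ i, l (π i) = L m i then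
      T (Matrix.trace (R := ℂ) (n := Fin 3)) n (σ m) (fun i => A (π i)) else 0) = 0 := by
  set P : MvPolynomial (Fin n) ℂ := ∑ m ∈ S, MvPolynomial.C (c m) * ∑ g : Fin n → Fin n,
    if ∀ i, l (g i) = L m i then
      MvPolynomial.monomial (∑ i, Finsupp.single (g i) 1)
        (T (Matrix.trace (R := ℂ) (n := Fin 3)) n (σ m) (fun i => A (g i))) else 0 with hP
  have hP0 : P = 0 := by
    refine MvPolynomial.funext fun s => ?_
    rw [map_zero, hP, map_sum, ← h fun x => ∑ k, if l k = x then s k • A k else 0]
    refine Finset.sum_congr rfl fun m _ => ?_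
    rw [map_mul, MvPolynomial.eval_C, map_sum, modE_expand]
    congr 1
    refine Finset.sum_congr rfl fun g _ => ?_
    have h1 := modE_scale (σ m) (fun i => l (g i) = L m i) (fun i => s (g i)) (fun i => A (g i))
    rw [h1]
    split_ifs with h2
    · rw [MvPolynomial.monomial_sum_index, map_mul, MvPolynomial.eval_C, map_prod, mul_comm]
      congr 1
      refine Finset.prod_congr rfl fun i _ => ?_
      rw [MvPolynomial.eval_monomial, one_mul, Finsupp.prod_single_index (by simp), pow_one]
    · rw [map_zero]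
  have h1 := congrArg (MvPolynomial.coeff (∑ i, Finsupp.single i 1)) hP0
  rw [MvPolynomial.coeff_zero, hP, MvPolynomial.coeff_sum] at h1
  refine Eq.trans ?_ h1
  refine Finset.sum_congr rfl fun m _ => ?_
  rw [MvPolynomial.coeff_C_mul, MvPolynomial.coeff_sum]
  congr 1
  rw [modE_sum_perm]
  · refine Finset.sum_congr rfl fun π _ => ?_
    split_ifs with h2
    · rw [MvPolynomial.coeff_monomial, if_pos]
      exact Equiv.sum_comp π (fun i => (Finsupp.single i 1 : Fin n →₀ ℕ))
    · rw [MvPolynomial.coeff_zero]
  · intro g hg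
    split_ifs with h2
    · rw [MvPolynomial.coeff_monomial, if_neg]
      intro h3
      exact hg (modE_e1 g h3)
    · rw [MvPolynomial.coeff_zero]

/-! ### Assembly -/

theorem modE_fiber {n : ℕ} (l L : Fin n → Fin 3)
    (h : ∀ x, (List.ofFn l).count x = (List.ofFn L).count x) :
    ∃ ρ : Equiv.Perm (Fin n), ∀ i, l (ρ i) = L i := by
  have hcard : ∀ (l : Fin n → Fin 3) (x : Fin 3),
      (List.ofFn l).count x = Fintype.card {i // l i = x} := by
    intro l x
    rw [Fintype.card_subtype, ← Multiset.coe_count, List.ofFn_eq_map, ← Multiset.map_coe,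
      Multiset.count_map]
    have h1 : ((List.finRange n : List (Fin n)) : Multiset (Fin n)) =
        (Finset.univ : Finset (Fin n)).val := rfl
    rw [h1]
    rw [Finset.card_def, Finset.filter_val]
    congr 1
    exact Multiset.filter_congr fun i _ => eq_comm
  have h2 : ∀ x, Nonempty ({i // L i = x} ≃ {i // l i = x}) := by
    intro x
    refine ⟨Fintype.equivOfCardEq ?_⟩
    rw [← hcard, ← hcard, h]
  have e' : ∀ x, {i // L i = x} ≃ {i // l i = x} := fun x => (h2 x).some
  refine ⟨Equiv.ofFiberEquiv (f := L) (g := l) e', fun i => ?_⟩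
  exact Equiv.ofFiberEquiv_map e' i

theorem modE_number {n : ℕ} (l L : Fin n → Fin 3) (ρ : Equiv.Perm (Fin n))
    (hρ : ∀ i, l (ρ i) = L i) :
    (Finset.univ.filter fun π : Equiv.Perm (Fin n) => ∀ i, l (π i) = L i).card =
      (Finset.univ.filter fun π : Equiv.Perm (Fin n) => ∀ i, l (π i) = l i).card := by
  refine Finset.card_bij (fun π _ => π * ρ⁻¹) ?_ ?_ ?_
  · intro π hπ
    rw [Finset.mem_filter] at hπ ⊢
    refine ⟨Finset.mem_univ _, fun i => ?_⟩
    rw [Equiv.Perm.mul_apply, hπ.2, ← hρ]
    simp
  · intro π _ π' _ h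
    exact mul_right_cancel h
  · intro π hπ
    rw [Finset.mem_filter] at hπ
    refine ⟨π * ρ, ?_, by simp⟩
    rw [Finset.mem_filter]
    refine ⟨Finset.mem_univ _, fun i => ?_⟩
    rw [Equiv.Perm.mul_apply, hπ.2, hρ]

/-- The coefficients of the polarized relation. -/
noncomputable def modE_c {ι : Type*} {n : ℕ} (S : Finset ι) (c : ι → ℂ)
    (σ : ι → Equiv.Perm (Fin n)) (L : ι → Fin n → Fin 3) (l : Fin n → Fin 3)
    (τ : Equiv.Perm (Fin n)) : ℂ :=
  ∑ m ∈ S, c m * ∑ π : Equiv.Perm (Fin n),
    if (∀ i, l (π i) = L m i) then (if π * σ m * π⁻¹ = τ then 1 else 0) else 0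

theorem modE_regroup {ι : Type*} {n : ℕ} (S : Finset ι) (c : ι → ℂ)
    (σ : ι → Equiv.Perm (Fin n)) (L : ι → Fin n → Fin 3) (l : Fin n → Fin 3)
    {M B : Type*} [Monoid M] [CommRing B] [Algebra ℂ B] (t : M → B)
    (hcyc : ∀ a b, t (a * b) = t (b * a)) (w : Fin n → M) :
    ∑ m ∈ S, c m • ∑ π : Equiv.Perm (Fin n), (if ∀ i, l (π i) = L m i then
      T t n (σ m) (fun i => w (π i)) else 0) =
    ∑ τ, modE_c S c σ L l τ • T t n τ w := by
  unfold modE_c
  simp_rw [Finset.sum_smul]
  rw [Finset.sum_comm]
  refine Finset.sum_congr rfl fun m _ => ?_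
  simp_rw [mul_smul]
  rw [← Finset.smul_sum]
  congr 1
  simp_rw [Finset.sum_smul]
  rw [Finset.sum_comm]
  refine Finset.sum_congr rfl fun π _ => ?_
  split_ifs with h
  · have h1 := T_conj t hcyc n π (σ m) (fun i => w (π i))
    have h2 : (fun i => w (π (π⁻¹ i))) = w := by
      funext i
      have h3 : π (π⁻¹ i) = i := π.apply_symm_apply i
      rw [h3]
    rw [h2] at h1
    rw [← h1, Finset.sum_eq_single (π * σ m * π⁻¹)]
    · rw [if_pos rfl, one_smul]
    · intro τ _ hτ
      rw [if_neg (Ne.symm hτ), zero_smul]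
    · intro h
      exact absurd (Finset.mem_univ _) h
  · simp

theorem sft_hom (q : MvPolynomial (FreeMonoid (Fin 3)) ℂ) (hne : ∀ m ∈ q.support, ∀ v ∈ m.support, v ≠ 1)
    (μ : Fin 3 → ℕ)
    (hμ : ∀ m ∈ q.support, ∀ x, m.sum (fun v k => k * v.toList.count x) = μ x)
    (h : ∀ A : Fin 3 → Matrix (Fin 3) (Fin 3) ℂ,
      MvPolynomial.aeval (fun v => Matrix.trace (FreeMonoid.lift A v)) q = 0)
    {B : Type*} [CommRing B] [Algebra ℂ B] (t : FreeMonoid (Fin 3) → B) (ht : IsPC t) :
    MvPolynomial.aeval t q = 0 := by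
  classical
  -- the letters of every monomial
  set n : ℕ := ∑ x, μ x with hn
  have hL : ∀ m : FreeMonoid (Fin 3) →₀ ℕ, ∃ L : Fin n → Fin 3, m ∈ q.support →
      List.ofFn L = (modE_vs m).flatten := by
    intro m
    by_cases hm : m ∈ q.support
    · have hlen : (modE_vs m).flatten.length = n := by
        rw [modE_length, hn]
        exact Finset.sum_congr rfl fun x _ => by rw [modE_count, hμ m hm]
      refine ⟨fun i => (modE_vs m).flatten.get (i.cast hlen.symm), fun _ => ?_⟩
      apply List.ext_get
      · rw [List.length_ofFn, hlen]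
      · intro k h1 h2
        simp
    · exact ⟨fun _ => 0, fun h => absurd h hm⟩
  choose L hL using hL
  by_cases hq : q.support = ∅
  · rw [MvPolynomial.support_eq_empty] at hq
    rw [hq, map_zero]
  obtain ⟨m₀, hm₀⟩ := Finset.nonempty_iff_ne_empty.2 hq
  set σ : (FreeMonoid (Fin 3) →₀ ℕ) → Equiv.Perm (Fin n) := fun m =>
    modE_shp n ((modE_vs m).map List.length) with hσ
  set l := L m₀ with hl
  have hcount : ∀ m ∈ q.support, ∀ x, (List.ofFn l).count x = (List.ofFn (L m)).count x := by
    intro m hm x
    rw [hl, hL m₀ hm₀, hL m hm, modE_count, modE_count, hμ m hm, hμ m₀ hm₀]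
  have hN : ∀ m ∈ q.support,
      (Finset.univ.filter fun π : Equiv.Perm (Fin n) => ∀ i, l (π i) = L m i).card =
      (Finset.univ.filter fun π : Equiv.Perm (Fin n) => ∀ i, l (π i) = l i).card := by
    intro m hm
    obtain ⟨ρ, hρ⟩ := modE_fiber l (L m) (hcount m hm)
    exact modE_number l (L m) ρ hρ
  have hNpos : (Finset.univ.filter fun π : Equiv.Perm (Fin n) => ∀ i, l (π i) = l i).card ≠ 0 := by
    rw [Finset.card_ne_zero]
    exact ⟨1, by simp⟩
  -- the polarized relation
  have h1 := modE_polar q.support (fun m => q.coeff m) σ L l (by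
    intro A
    have h0 := h A
    rw [MvPolynomial.aeval_def, MvPolynomial.eval₂_eq] at h0
    rw [← h0]
    refine Finset.sum_congr rfl fun m hm => ?_
    rw [← modE_mono (Matrix.trace (R := ℂ) (n := Fin 3)) A m (hne m hm) (L m) (hL m hm)]
    rfl)
  have h2 : ∀ A : Fin n → Matrix (Fin 3) (Fin 3) ℂ,
      ∑ τ, modE_c q.support (fun m => q.coeff m) σ L l τ *
        T (Matrix.trace (R := ℂ) (n := Fin 3)) n τ A = 0 := by
    intro A
    have := modE_regroup q.support (fun m => q.coeff m) σ L l
      (Matrix.trace (R := ℂ) (n := Fin 3)) (fun a b => Matrix.trace_mul_comm a b) A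
    simp only [smul_eq_mul] at this
    rw [← this]
    exact h1 A
  have h3 := sft _ h2 t ht (fun i => FreeMonoid.of (l i))
  rw [← modE_regroup q.support (fun m => q.coeff m) σ L l t ht.cyc] at h3
  have h4 : ∀ m ∈ q.support, q.coeff m • ∑ π : Equiv.Perm (Fin n), (if ∀ i, l (π i) = L m i then
      T t n (σ m) (fun i => FreeMonoid.of (l (π i))) else 0) =
      ((Finset.univ.filter fun π : Equiv.Perm (Fin n) => ∀ i, l (π i) = l i).card : ℂ) •
        (algebraMap ℂ B (q.coeff m) * m.prod fun v k => t v ^ k) := by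
    intro m hm
    have h5 : ∀ π : Equiv.Perm (Fin n), (if ∀ i, l (π i) = L m i then
      T t n (σ m) (fun i => FreeMonoid.of (l (π i))) else 0) = if ∀ i, l (π i) = L m i then
      (m.prod fun v k => t v ^ k) else 0 := by
      intro π
      split_ifs with h6
      · have h7 := modE_mono t (FreeMonoid.of) m (hne m hm) (L m) (hL m hm)
        have h8 : ∀ v : FreeMonoid (Fin 3), FreeMonoid.lift FreeMonoid.of v = v := by
          intro v
          have := FreeMonoid.lift_restrict (MonoidHom.id (FreeMonoid (Fin 3)))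
          exact DFunLike.congr_fun this v
        simp only [h8] at h7
        rw [h7]
        congr 1
        funext i
        rw [h6 i]
      · rfl
    rw [Finset.sum_congr rfl fun π _ => h5 π, ← Finset.sum_filter, Finset.sum_const, hN m hm,
      ← Nat.cast_smul_eq_nsmul ℂ, smul_comm, Algebra.smul_def (q.coeff m)]
  rw [Finset.sum_congr rfl h4, ← Finset.smul_sum] at h3
  rw [MvPolynomial.aeval_def, MvPolynomial.eval₂_eq]
  have h6 : (((Finset.univ.filter fun π : Equiv.Perm (Fin n) =>
      ∀ i, l (π i) = l i).card : ℕ) : ℂ) ≠ 0 := by exact_mod_cast hNpos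
  have h7 := congrArg (fun z => ((((Finset.univ.filter fun π : Equiv.Perm (Fin n) =>
      ∀ i, l (π i) = l i).card : ℕ) : ℂ))⁻¹ • z) h3
  simp only [smul_smul, smul_zero, inv_mul_cancel₀ h6, one_smul] at h7
  rw [← h7]
  rfl

end Pool.Agent.H20.TR
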