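import Pool.Agent.H20.TR.Defs
import Pool.Agent.H20.TR.ModE

set_option autoImplicit false

namespace Pool.Agent.H20.TR

open MvPolynomial

/-- The content of a word. -/
def modF_cnt (v : FreeMonoid (Fin 3)) : Fin 3 → ℕ := fun x => v.toList.count x

/-- The determinant of the letter `x` as a polynomial in the traces of words. -/
noncomputable def modF_D (x : Fin 3) : MvPolynomial (FreeMonoid (Fin 3)) ℂ :=
  C (1 / 6) * (X (FreeMonoid.of x) ^ 3
    - 3 * X (FreeMonoid.of x) * X (FreeMonoid.of x * FreeMonoid.of x)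
    + 2 * X (FreeMonoid.of x * FreeMonoid.of x * FreeMonoid.of x))

theorem modF_cnt_one : modF_cnt 1 = 0 := by
  funext x; simp [modF_cnt]

theorem modF_cnt_mul (u v : FreeMonoid (Fin 3)) : modF_cnt (u * v) = modF_cnt u + modF_cnt v := by
  funext x; simp [modF_cnt, FreeMonoid.toList_mul]

theorem modF_cnt_of (x : Fin 3) : modF_cnt (FreeMonoid.of x) = Pi.single x 1 := by
  funext y
  simp only [modF_cnt, FreeMonoid.toList_of, Pi.single_apply, List.count_singleton]
  by_cases h : y = x
  · subst h; simp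
  · have h' : x ≠ y := fun e => h e.symm
    simp [h, h']

theorem modF_D_hom (x : Fin 3) : IsWeightedHomogeneous modF_cnt (modF_D x) (Pi.single x 3) := by
  have e1 : (Pi.single x 3 : Fin 3 → ℕ) = 3 • modF_cnt (FreeMonoid.of x) := by
    rw [modF_cnt_of]; funext y; simp [Pi.single_apply]
  have e2 : (Pi.single x 3 : Fin 3 → ℕ) = (0 + modF_cnt (FreeMonoid.of x))
      + modF_cnt (FreeMonoid.of x * FreeMonoid.of x) := by
    rw [modF_cnt_mul, modF_cnt_of]; funext y; simp only [Pi.add_apply, Pi.single_apply, Pi.zero_apply]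
    split_ifs <;> rfl
  have e3 : (Pi.single x 3 : Fin 3 → ℕ) = 0
      + modF_cnt (FreeMonoid.of x * FreeMonoid.of x * FreeMonoid.of x) := by
    rw [modF_cnt_mul, modF_cnt_mul, modF_cnt_of]; funext y
    simp only [Pi.add_apply, Pi.single_apply, Pi.zero_apply]
    split_ifs <;> rfl
  unfold modF_D
  apply IsWeightedHomogeneous.C_mul
  apply IsWeightedHomogeneous.add
  · apply IsWeightedHomogeneous.sub
    · rw [e1]; exact (isWeightedHomogeneous_X ℂ _ _).pow 3
    · rw [e2]
      exact ((isWeightedHomogeneous_C modF_cnt (3 : ℂ)).mul (isWeightedHomogeneous_X ℂ _ _)).mul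
        (isWeightedHomogeneous_X ℂ _ _)
  · rw [e3]
    exact (isWeightedHomogeneous_C modF_cnt (2 : ℂ)).mul (isWeightedHomogeneous_X ℂ _ _)

theorem modF_D_supp (x : Fin 3) : modF_D x ∈ supported ℂ {v : FreeMonoid (Fin 3) | v ≠ 1} := by
  have h1 : (FreeMonoid.of x) ∈ {v : FreeMonoid (Fin 3) | v ≠ 1} := by
    intro h; have := congrArg FreeMonoid.length h; simp at this
  have h2 : (FreeMonoid.of x * FreeMonoid.of x) ∈ {v : FreeMonoid (Fin 3) | v ≠ 1} := by
    intro h; have := congrArg FreeMonoid.length h; simp at this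
  have h3 : (FreeMonoid.of x * FreeMonoid.of x * FreeMonoid.of x) ∈
      {v : FreeMonoid (Fin 3) | v ≠ 1} := by
    intro h; have := congrArg FreeMonoid.length h; simp at this
  unfold modF_D
  apply Subalgebra.mul_mem
  · exact Subalgebra.algebraMap_mem _ _
  · apply Subalgebra.add_mem
    · apply Subalgebra.sub_mem
      · exact Subalgebra.pow_mem _ (X_mem_supported.2 h1) _
      · apply Subalgebra.mul_mem
        · apply Subalgebra.mul_mem
          · exact Subalgebra.algebraMap_mem _ (3 : ℂ)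
          · exact X_mem_supported.2 h1
        · exact X_mem_supported.2 h2
    · apply Subalgebra.mul_mem
      · exact Subalgebra.algebraMap_mem _ (2 : ℂ)
      · exact X_mem_supported.2 h3

theorem modF_D_det (A : Fin 3 → Matrix (Fin 3) (Fin 3) ℂ) (x : Fin 3) :
    aeval (fun v => Matrix.trace (FreeMonoid.lift A v)) (modF_D x) = (A x).det := by
  simp only [modF_D, map_mul, map_add, map_sub, map_pow, aeval_X, aeval_C, FreeMonoid.lift_eval_of,
    map_ofNat, Algebra.algebraMap_self, RingHom.id_apply]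
  rw [Matrix.det_fin_three]
  simp only [Matrix.trace_fin_three, Matrix.mul_apply, Fin.sum_univ_three]
  ring

theorem modF_D_one {B : Type*} [CommRing B] [Algebra ℂ B] (t : FreeMonoid (Fin 3) → B) (x : Fin 3)
    (hdet : t (FreeMonoid.of x) ^ 3
      - 3 * t (FreeMonoid.of x) * t (FreeMonoid.of x * FreeMonoid.of x)
      + 2 * t (FreeMonoid.of x * FreeMonoid.of x * FreeMonoid.of x) = 6) :
    aeval t (modF_D x) = 1 := by
  simp only [modF_D, map_mul, map_add, map_sub, map_pow, aeval_X, aeval_C, map_ofNat]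
  rw [hdet]
  have : (6 : B) = algebraMap ℂ B 6 := (map_ofNat (algebraMap ℂ B) 6).symm
  rw [this, ← map_mul]
  norm_num

section

variable {ι : Type} [Fintype ι] (g : ι → FreeMonoid (Fin 3))

/-- The content of a monomial. -/
def modF_mu (m : ι →₀ ℕ) : Fin 3 → ℕ := fun x => ∑ i, m i * modF_cnt (g i) x

/-- The term of the homogenized polynomial. -/
noncomputable def modF_term (K : ℕ) (m : ι →₀ ℕ) : MvPolynomial (FreeMonoid (Fin 3)) ℂ :=
  (∏ x, modF_D x ^ (K - modF_mu g m x / 3)) * ∏ i, X (g i) ^ m i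

open Classical in
/-- The homogenized polynomial of a class. -/
noncomputable def modF_q (p : MvPolynomial ι ℂ) (K : ℕ) (α : Fin 3 → ℕ) :
    MvPolynomial (FreeMonoid (Fin 3)) ℂ :=
  ∑ m ∈ p.support with (fun x => modF_mu g m x % 3) = α, C (coeff m p) * modF_term g K m

theorem modF_term_hom (K : ℕ) (m : ι →₀ ℕ) (hK : ∀ x, modF_mu g m x / 3 ≤ K) :
    IsWeightedHomogeneous modF_cnt (modF_term g K m)
      (fun x => modF_mu g m x % 3 + 3 * K) := by
  have e : (fun x => modF_mu g m x % 3 + 3 * K) =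
      (∑ x, (K - modF_mu g m x / 3) • (Pi.single x 3 : Fin 3 → ℕ)) + ∑ i, m i • modF_cnt (g i) := by
    funext y
    simp only [Pi.add_apply, Finset.sum_apply, Pi.smul_apply, smul_eq_mul, Pi.single_apply]
    have h1 : ∑ x, (K - modF_mu g m x / 3) * (if y = x then 3 else 0)
        = (K - modF_mu g m y / 3) * 3 := by
      simp
    rw [h1]
    change _ = _ + modF_mu g m y
    have := hK y
    omega
  rw [e]
  unfold modF_term
  apply IsWeightedHomogeneous.mul
  · apply IsWeightedHomogeneous.prod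
    intro x _
    exact (modF_D_hom x).pow _
  · apply IsWeightedHomogeneous.prod
    intro i _
    exact (isWeightedHomogeneous_X ℂ _ _).pow _

theorem modF_term_supp (hg : ∀ i, g i ≠ 1) (K : ℕ) (m : ι →₀ ℕ) :
    modF_term g K m ∈ supported ℂ {v : FreeMonoid (Fin 3) | v ≠ 1} := by
  unfold modF_term
  apply Subalgebra.mul_mem
  · apply Subalgebra.prod_mem
    intro x _
    exact Subalgebra.pow_mem _ (modF_D_supp x) _
  · apply Subalgebra.prod_mem
    intro i _
    exact Subalgebra.pow_mem _ (X_mem_supported.2 (hg i)) _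

theorem modF_q_hom (p : MvPolynomial ι ℂ) (K : ℕ) (hK : ∀ m ∈ p.support, ∀ x, modF_mu g m x / 3 ≤ K)
    (α : Fin 3 → ℕ) :
    IsWeightedHomogeneous modF_cnt (modF_q g p K α) (fun x => α x + 3 * K) := by
  unfold modF_q
  apply IsWeightedHomogeneous.sum
  intro m hm
  rw [Finset.mem_filter] at hm
  apply IsWeightedHomogeneous.C_mul
  have := modF_term_hom g K m (hK m hm.1)
  have h2 : (fun x => modF_mu g m x % 3 + 3 * K) = fun x => α x + 3 * K := by
    funext x; rw [← hm.2]
  rwa [h2] at this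

theorem modF_q_supp (hg : ∀ i, g i ≠ 1) (p : MvPolynomial ι ℂ) (K : ℕ) (α : Fin 3 → ℕ) :
    modF_q g p K α ∈ supported ℂ {v : FreeMonoid (Fin 3) | v ≠ 1} := by
  unfold modF_q
  apply Subalgebra.sum_mem
  intro m _
  apply Subalgebra.mul_mem
  · exact Subalgebra.algebraMap_mem _ _
  · exact modF_term_supp g hg K m

/-- The trace of a word in scaled matrices. -/
theorem modF_scale (A : Fin 3 → Matrix (Fin 3) (Fin 3) ℂ) (c : Fin 3 → ℂ) (v : FreeMonoid (Fin 3)) :
    FreeMonoid.lift (fun x => c x • A x) v = (∏ x, c x ^ modF_cnt v x) • FreeMonoid.lift A v := by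
  induction v using FreeMonoid.inductionOn' with
  | one => simp [modF_cnt_one]
  | of_mul x w ih =>
    rw [map_mul, map_mul, ih, modF_cnt_mul, modF_cnt_of, FreeMonoid.lift_eval_of,
      FreeMonoid.lift_eval_of, smul_mul_smul_comm]
    congr 1
    have : ∀ y, c y ^ ((Pi.single x 1 : Fin 3 → ℕ) + modF_cnt w) y =
        c y ^ ((Pi.single x 1 : Fin 3 → ℕ) y) * c y ^ modF_cnt w y := by
      intro y; rw [Pi.add_apply, pow_add]
    rw [Finset.prod_congr rfl (fun y _ => this y), Finset.prod_mul_distrib]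
    congr 1
    simp [Pi.single_apply]

/-- The value of a relation at scaled matrices. -/
theorem modF_scaled_value (p : MvPolynomial ι ℂ) (A : Fin 3 → Matrix (Fin 3) (Fin 3) ℂ)
    (c : Fin 3 → ℂ) :
    aeval (fun i => Matrix.trace (FreeMonoid.lift (fun x => c x • A x) (g i))) p =
      ∑ m ∈ p.support, coeff m p * ((∏ x, c x ^ modF_mu g m x) *
        ∏ i, Matrix.trace (FreeMonoid.lift A (g i)) ^ m i) := by
  rw [aeval_def, eval₂_eq']
  apply Finset.sum_congr rfl
  intro m _
  rw [Algebra.algebraMap_self, RingHom.id_apply]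
  congr 1
  have h1 : ∀ i, Matrix.trace (FreeMonoid.lift (fun x => c x • A x) (g i)) =
      (∏ x, c x ^ modF_cnt (g i) x) * Matrix.trace (FreeMonoid.lift A (g i)) := by
    intro i
    rw [modF_scale, Matrix.trace_smul, smul_eq_mul]
  simp only [h1, mul_pow, Finset.prod_mul_distrib]
  congr 1
  unfold modF_mu
  simp only [← Finset.prod_pow, ← pow_mul]
  rw [Finset.prod_comm]
  apply Finset.prod_congr rfl
  intro x _
  rw [← Finset.prod_pow_eq_pow_sum]
  apply Finset.prod_congr rfl
  intro i _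
  rw [mul_comm]

theorem modF_root_sum (ω : ℂ) (hω : IsPrimitiveRoot ω 3) (n : ℕ) :
    ∑ k : Fin 3, (ω ^ (k : ℕ)) ^ n = if n % 3 = 0 then 3 else 0 := by
  have h3 : ω ^ 3 = 1 := hω.pow_eq_one
  have hs : 1 + ω + ω ^ 2 = 0 := by
    have := hω.geom_sum_eq_zero (by norm_num)
    simpa [Finset.sum_range_succ] using this
  have hn : n = 3 * (n / 3) + n % 3 := by omega
  have hred : ∀ k : ℕ, (ω ^ k) ^ n = (ω ^ k) ^ (n % 3) := by
    intro k
    conv_lhs => rw [hn, pow_add, pow_mul, ← pow_mul ω k 3, mul_comm k 3, pow_mul, h3]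
    simp
  simp only [hred, Fin.sum_univ_three]
  have hlt : n % 3 < 3 := Nat.mod_lt _ (by norm_num)
  interval_cases hr : n % 3
  · simp; norm_num
  · simp; exact hs
  · simp
    have : (ω ^ 2) ^ 2 = ω := by
      calc (ω ^ 2) ^ 2 = ω ^ 3 * ω := by ring
        _ = ω := by rw [h3, one_mul]
    rw [this]; linear_combination hs

theorem modF_q_aeval {B : Type*} [CommRing B] [Algebra ℂ B] (t : FreeMonoid (Fin 3) → B)
    (p : MvPolynomial ι ℂ) (K : ℕ) (α : Fin 3 → ℕ) :
    aeval t (modF_q g p K α) = ∑ m ∈ p.support with (fun x => modF_mu g m x % 3) = α,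
      algebraMap ℂ B (coeff m p) * ((∏ x, (aeval t (modF_D x)) ^ (K - modF_mu g m x / 3)) *
        ∏ i, t (g i) ^ m i) := by
  classical
  unfold modF_q modF_term
  simp only [map_sum, map_mul, map_prod, map_pow, aeval_X, aeval_C]

theorem modF_vanish_inv (p : MvPolynomial ι ℂ)
    (h : ∀ A : Fin 3 → Matrix.SpecialLinearGroup (Fin 3) ℂ,
      MvPolynomial.aeval (fun i => Matrix.trace
        (FreeMonoid.lift (fun x => (A x : Matrix (Fin 3) (Fin 3) ℂ)) (g i))) p = 0)
    (K : ℕ) (hK : ∀ m ∈ p.support, ∀ x, modF_mu g m x / 3 ≤ K) (α : Fin 3 → ℕ)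
    (A : Fin 3 → Matrix (Fin 3) (Fin 3) ℂ) (hA : ∀ x, (A x).det ≠ 0) :
    aeval (fun v => Matrix.trace (FreeMonoid.lift A v)) (modF_q g p K α) = 0 := by
  classical
  by_cases hα : ∀ x, α x < 3
  swap
  · -- the class is empty
    push Not at hα
    obtain ⟨x, hx⟩ := hα
    rw [modF_q_aeval]
    apply Finset.sum_eq_zero
    intro m hm
    rw [Finset.mem_filter] at hm
    have : modF_mu g m x % 3 = α x := congrFun hm.2 x
    omega
  have hroot : ∀ x, ∃ η : ℂ, η ^ 3 = ((A x).det)⁻¹ := by
    intro x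
    obtain ⟨z, hz⟩ := IsAlgClosed.exists_pow_nat_eq ((A x).det)⁻¹ (n := 3) (by norm_num)
    exact ⟨z, hz⟩
  choose η hη using hroot
  have hη0 : ∀ x, η x ≠ 0 := by
    intro x hx
    have := hη x
    rw [hx, zero_pow (by norm_num)] at this
    exact inv_ne_zero (hA x) this.symm
  have hηd : ∀ x, (A x).det * η x ^ 3 = 1 := by
    intro x; rw [hη]; exact mul_inv_cancel₀ (hA x)
  obtain ⟨ω, hω⟩ : ∃ ω : ℂ, IsPrimitiveRoot ω 3 :=
    ⟨_, Complex.isPrimitiveRoot_exp 3 (by norm_num)⟩
  have h3 : ω ^ 3 = 1 := hω.pow_eq_one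
  have hval : ∀ k : Fin 3 → Fin 3,
      ∑ m ∈ p.support, coeff m p * ((∏ x, (ω ^ (k x : ℕ) * η x) ^ modF_mu g m x) *
        ∏ i, Matrix.trace (FreeMonoid.lift A (g i)) ^ m i) = 0 := by
    intro k
    rw [← modF_scaled_value]
    have hdet1 : ∀ x, ((ω ^ (k x : ℕ) * η x) • A x).det = 1 := by
      intro x
      rw [Matrix.det_smul, Fintype.card_fin, mul_pow, ← pow_mul, mul_comm (k x : ℕ) 3, pow_mul, h3,
        one_pow, one_mul, mul_comm, hηd]
    exact h (fun x => ⟨(ω ^ (k x : ℕ) * η x) • A x, hdet1 x⟩)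
  have hsum : ∑ k : Fin 3 → Fin 3, (∏ x, (ω ^ (k x : ℕ)) ^ (2 * α x)) *
      ∑ m ∈ p.support, coeff m p * ((∏ x, (ω ^ (k x : ℕ) * η x) ^ modF_mu g m x) *
        ∏ i, Matrix.trace (FreeMonoid.lift A (g i)) ^ m i) = 0 := by
    apply Finset.sum_eq_zero
    intro k _
    rw [hval k, mul_zero]
  simp only [Finset.mul_sum] at hsum
  rw [Finset.sum_comm] at hsum
  have hinner : ∀ m ∈ p.support, (∑ k : Fin 3 → Fin 3, (∏ x, (ω ^ (k x : ℕ)) ^ (2 * α x)) *
      (coeff m p * ((∏ x, (ω ^ (k x : ℕ) * η x) ^ modF_mu g m x) *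
        ∏ i, Matrix.trace (FreeMonoid.lift A (g i)) ^ m i))) =
      if (fun x => modF_mu g m x % 3) = α then
        27 * (coeff m p * ((∏ x, η x ^ modF_mu g m x) *
        ∏ i, Matrix.trace (FreeMonoid.lift A (g i)) ^ m i)) else 0 := by
    intro m _
    have e1 : ∀ k : Fin 3 → Fin 3, (∏ x, (ω ^ (k x : ℕ)) ^ (2 * α x)) *
      (coeff m p * ((∏ x, (ω ^ (k x : ℕ) * η x) ^ modF_mu g m x) *
        ∏ i, Matrix.trace (FreeMonoid.lift A (g i)) ^ m i)) =
        (∏ x, (ω ^ (k x : ℕ)) ^ (2 * α x + modF_mu g m x)) *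
        (coeff m p * ((∏ x, η x ^ modF_mu g m x) *
        ∏ i, Matrix.trace (FreeMonoid.lift A (g i)) ^ m i)) := by
      intro k
      simp only [mul_pow, pow_add, Finset.prod_mul_distrib]
      ring
    simp only [e1]
    rw [← Finset.sum_mul]
    have e2 : ∑ k : Fin 3 → Fin 3, ∏ x, (ω ^ (k x : ℕ)) ^ (2 * α x + modF_mu g m x) =
        ∏ x : Fin 3, ∑ j : Fin 3, (ω ^ (j : ℕ)) ^ (2 * α x + modF_mu g m x) := by
      rw [Finset.prod_univ_sum]
      simp
    rw [e2]
    simp only [modF_root_sum ω hω]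
    by_cases hc : (fun x => modF_mu g m x % 3) = α
    · rw [if_pos hc]
      have : ∀ x, (2 * α x + modF_mu g m x) % 3 = 0 := by
        intro x
        have hcx : modF_mu g m x % 3 = α x := congrFun hc x
        omega
      simp only [this, if_true]
      simp [Fin.prod_univ_three]
      left; norm_num
    · rw [if_neg hc]
      have : ∃ x, (2 * α x + modF_mu g m x) % 3 ≠ 0 := by
        by_contra hcon
        push Not at hcon
        apply hc
        funext x
        have h1 := hcon x
        have h2 := hα x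
        omega
      obtain ⟨x, hx⟩ := this
      rw [Finset.prod_eq_zero (Finset.mem_univ x) (by simp [hx]), zero_mul]
  rw [Finset.sum_congr rfl hinner, ← Finset.sum_filter, ← Finset.mul_sum] at hsum
  have hsum2 : ∑ m ∈ p.support with (fun x => modF_mu g m x % 3) = α,
      (coeff m p * ((∏ x, η x ^ modF_mu g m x) *
        ∏ i, Matrix.trace (FreeMonoid.lift A (g i)) ^ m i)) = 0 := by
    rcases mul_eq_zero.1 hsum with h' | h'
    · norm_num at h'
    · exact h'
  rw [modF_q_aeval]
  have hfin : (∏ x, η x ^ α x) * (∑ m ∈ p.support with (fun x => modF_mu g m x % 3) = α,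
      algebraMap ℂ ℂ (coeff m p) *
        ((∏ x, (aeval (fun v => Matrix.trace (FreeMonoid.lift A v)) (modF_D x)) ^
          (K - modF_mu g m x / 3)) *
        ∏ i, Matrix.trace (FreeMonoid.lift A (g i)) ^ m i)) =
      (∏ x, (A x).det ^ K) * ∑ m ∈ p.support with (fun x => modF_mu g m x % 3) = α,
      (coeff m p * ((∏ x, η x ^ modF_mu g m x) *
        ∏ i, Matrix.trace (FreeMonoid.lift A (g i)) ^ m i)) := by
    rw [Finset.mul_sum, Finset.mul_sum]
    apply Finset.sum_congr rfl
    intro m hm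
    rw [Finset.mem_filter] at hm
    rw [Algebra.algebraMap_self, RingHom.id_apply]
    have key : ∀ x, η x ^ α x * (A x).det ^ (K - modF_mu g m x / 3) =
        (A x).det ^ K * η x ^ modF_mu g m x := by
      intro x
      have hk := hK m hm.1 x
      have hm2 : modF_mu g m x = 3 * (modF_mu g m x / 3) + α x := by
        have hcx : modF_mu g m x % 3 = α x := congrFun hm.2 x
        omega
      have hKe : K = (K - modF_mu g m x / 3) + modF_mu g m x / 3 := by omega
      calc η x ^ α x * (A x).det ^ (K - modF_mu g m x / 3)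
          = η x ^ α x * (A x).det ^ (K - modF_mu g m x / 3) *
            ((A x).det * η x ^ 3) ^ (modF_mu g m x / 3) := by rw [hηd, one_pow, mul_one]
        _ = (A x).det ^ ((K - modF_mu g m x / 3) + modF_mu g m x / 3) *
            η x ^ (3 * (modF_mu g m x / 3) + α x) := by
            rw [mul_pow, pow_add, pow_add, pow_mul]; ring
        _ = _ := by rw [← hKe, ← hm2]
    have key2 : (∏ x, η x ^ α x) * (∏ x, (A x).det ^ (K - modF_mu g m x / 3)) =
        (∏ x, (A x).det ^ K) * (∏ x, η x ^ modF_mu g m x) := by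
      rw [← Finset.prod_mul_distrib, ← Finset.prod_mul_distrib]
      exact Finset.prod_congr rfl (fun x _ => key x)
    simp only [modF_D_det]
    linear_combination (coeff m p * ∏ i, Matrix.trace (FreeMonoid.lift A (g i)) ^ m i) * key2
  rw [hsum2, mul_zero] at hfin
  rcases mul_eq_zero.1 hfin with h' | h'
  · exfalso
    rw [Finset.prod_eq_zero_iff] at h'
    obtain ⟨x, _, hx⟩ := h'
    exact pow_ne_zero _ (hη0 x) hx
  · exact h'

/-- The value at all matrices, by a polynomial deformation. -/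
theorem modF_dense (q : MvPolynomial (FreeMonoid (Fin 3)) ℂ)
    (h : ∀ A : Fin 3 → Matrix (Fin 3) (Fin 3) ℂ, (∀ x, (A x).det ≠ 0) →
      aeval (fun v => Matrix.trace (FreeMonoid.lift A v)) q = 0)
    (A : Fin 3 → Matrix (Fin 3) (Fin 3) ℂ) :
    aeval (fun v => Matrix.trace (FreeMonoid.lift A v)) q = 0 := by
  set M : Fin 3 → Matrix (Fin 3) (Fin 3) (Polynomial ℂ) := fun x => Matrix.charmatrix (-(A x))
    with hM
  set Q : Polynomial ℂ := aeval (fun v => Matrix.trace (FreeMonoid.lift M v)) q with hQ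
  have hMs : ∀ s : ℂ, ∀ x, (M x).map (Polynomial.eval s) = Matrix.scalar (Fin 3) s + A x := by
    intro s x
    ext i j
    simp only [hM, Matrix.map_apply, Matrix.charmatrix_apply, Matrix.add_apply, Matrix.scalar_apply]
    by_cases hij : i = j
    · subst hij; simp
    · simp [hij]
  have heval : ∀ s : ℂ, Polynomial.eval s Q =
      aeval (fun v => Matrix.trace (FreeMonoid.lift (fun x => Matrix.scalar (Fin 3) s + A x) v)) q := by
    intro s
    have h2 : ∀ v : FreeMonoid (Fin 3), (FreeMonoid.lift M v).map (Polynomial.eval s) =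
        FreeMonoid.lift (fun x => Matrix.scalar (Fin 3) s + A x) v := by
      intro v
      have e : ∀ N : Matrix (Fin 3) (Fin 3) (Polynomial ℂ), N.map (Polynomial.eval s) =
          (Polynomial.evalRingHom s).mapMatrix N := fun N => rfl
      induction v using FreeMonoid.inductionOn' with
      | one => rw [map_one, map_one, e, map_one]
      | of_mul x w ih =>
        rw [map_mul, map_mul, e, map_mul, ← e, ← e, ih, FreeMonoid.lift_eval_of,
          FreeMonoid.lift_eval_of, hMs]
    have h3 : ∀ v : FreeMonoid (Fin 3), Polynomial.eval s (Matrix.trace (FreeMonoid.lift M v)) =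
        Matrix.trace (FreeMonoid.lift (fun x => Matrix.scalar (Fin 3) s + A x) v) := by
      intro v
      rw [← h2, Matrix.trace, Matrix.trace, Polynomial.eval_finsetSum]
      rfl
    rw [hQ, aeval_def, eval₂_eq, aeval_def, eval₂_eq, Polynomial.eval_finsetSum]
    apply Finset.sum_congr rfl
    intro m _
    rw [Polynomial.eval_mul, Polynomial.eval_prod]
    simp only [Polynomial.eval_pow, h3]
    congr 1
    simp
  set P : Polynomial ℂ := ∏ x, (M x).det with hP
  have hP0 : P ≠ 0 := by
    rw [hP]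
    apply Finset.prod_ne_zero_iff.2
    intro x _
    exact (Matrix.charpoly_monic (-(A x))).ne_zero
  have hPs : ∀ s : ℂ, Polynomial.eval s P = ∏ x, (Matrix.scalar (Fin 3) s + A x).det := by
    intro s
    rw [hP, Polynomial.eval_prod]
    apply Finset.prod_congr rfl
    intro x _
    rw [← hMs s x]
    exact RingHom.map_det (Polynomial.evalRingHom s) (M x)
  have hprod : Q * P = 0 := by
    apply Polynomial.funext
    intro s
    rw [Polynomial.eval_mul, Polynomial.eval_zero]
    by_cases hs : Polynomial.eval s P = 0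
    · rw [hs, mul_zero]
    · rw [hPs] at hs
      have hs := Finset.prod_ne_zero_iff.1 hs
      rw [heval, h _ (fun x => hs x (Finset.mem_univ x)), zero_mul]
  have hQ0 : Q = 0 := by
    rcases mul_eq_zero.1 hprod with h' | h'
    · exact h'
    · exact absurd h' hP0
  have := heval 0
  rw [hQ0, Polynomial.eval_zero] at this
  simpa using this.symm

end

-- Module F (uses E)
theorem sl_relation {ι : Type} [Fintype ι] (g : ι → FreeMonoid (Fin 3)) (hg : ∀ i, g i ≠ 1)
    (p : MvPolynomial ι ℂ)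
    (h : ∀ A : Fin 3 → Matrix.SpecialLinearGroup (Fin 3) ℂ,
      MvPolynomial.aeval (fun i => Matrix.trace
        (FreeMonoid.lift (fun x => (A x : Matrix (Fin 3) (Fin 3) ℂ)) (g i))) p = 0)
    {B : Type*} [CommRing B] [Algebra ℂ B] (t : FreeMonoid (Fin 3) → B) (ht : IsPC t)
    (hdet : ∀ x : Fin 3, t (FreeMonoid.of x) ^ 3
      - 3 * t (FreeMonoid.of x) * t (FreeMonoid.of x * FreeMonoid.of x)
      + 2 * t (FreeMonoid.of x * FreeMonoid.of x * FreeMonoid.of x) = 6) :
    MvPolynomial.aeval (fun i => t (g i)) p = 0 := by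
  classical
  set K : ℕ := ∑ m ∈ p.support, ∑ x, modF_mu g m x with hKdef
  have hK : ∀ m ∈ p.support, ∀ x, modF_mu g m x / 3 ≤ K := by
    intro m hm x
    have h1 : modF_mu g m x ≤ ∑ x, modF_mu g m x :=
      Finset.single_le_sum (f := fun x => modF_mu g m x) (fun _ _ => Nat.zero_le _)
        (Finset.mem_univ x)
    have h2 : ∑ x, modF_mu g m x ≤ K :=
      Finset.single_le_sum (f := fun m => ∑ x, modF_mu g m x) (fun _ _ => Nat.zero_le _) hm
    exact (Nat.div_le_self _ _).trans (h1.trans h2)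
  have hq : ∀ α : Fin 3 → ℕ, aeval t (modF_q g p K α) = 0 := by
    intro α
    apply sft_hom (modF_q g p K α) _ (fun x => α x + 3 * K) _ _ t ht
    · intro m hm v hv
      have h1 := modF_q_supp g hg p K α
      rw [mem_supported] at h1
      have h2 : v ∈ (modF_q g p K α).vars := (mem_vars_iff_mem_support v).2 ⟨m, hm, hv⟩
      exact h1 h2
    · intro m hm x
      have h1 := modF_q_hom g p K hK α (mem_support_iff.1 hm)
      rw [Finsupp.weight_apply] at h1
      have h2 := congrFun h1 x
      rw [← h2, Finsupp.sum, Finsupp.sum, Finset.sum_apply]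
      rfl
    · intro A
      exact modF_dense _ (fun A hA => modF_vanish_inv g p h K hK α A hA) A
  have hval : ∀ α : Fin 3 → ℕ, ∑ m ∈ p.support with (fun x => modF_mu g m x % 3) = α,
      algebraMap ℂ B (coeff m p) * ∏ i, t (g i) ^ m i = 0 := by
    intro α
    have h1 := hq α
    rw [modF_q_aeval] at h1
    simpa only [modF_D_one t _ (hdet _), one_pow, Finset.prod_const_one, one_mul] using h1
  rw [aeval_def, eval₂_eq']
  rw [← Finset.sum_fiberwise_of_maps_to (s := p.support)
    (t := p.support.image (fun m => fun x => modF_mu g m x % 3))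
    (g := fun m => fun x => modF_mu g m x % 3)
    (fun m hm => Finset.mem_image_of_mem _ hm)]
  apply Finset.sum_eq_zero
  intro α _
  exact hval α

end Pool.Agent.H20.TR
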