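import Pool.Agent.H20.TR.Defs

set_option autoImplicit false

/-!
# Extension of a truncated pseudo-character by windows of length six
-/

namespace Pool.Agent.H20.TR

/-- the linear extension of a function along a list of weighted words -/
def modG_ev {B : Type*} [CommRing B] (Y : List (B × FreeMonoid (Fin 3)))
    (f : FreeMonoid (Fin 3) → B) : B :=
  (Y.map (fun x => x.1 * f x.2)).sum

section ev

variable {B : Type*} [CommRing B]

theorem modG_ev_nil (f : FreeMonoid (Fin 3) → B) : modG_ev [] f = 0 := by simp [modG_ev]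

theorem modG_ev_cons (x : B × FreeMonoid (Fin 3)) (Y : List (B × FreeMonoid (Fin 3)))
    (f : FreeMonoid (Fin 3) → B) : modG_ev (x :: Y) f = x.1 * f x.2 + modG_ev Y f := by
  simp [modG_ev]

theorem modG_ev_append (Y Z : List (B × FreeMonoid (Fin 3)))
    (f : FreeMonoid (Fin 3) → B) : modG_ev (Y ++ Z) f = modG_ev Y f + modG_ev Z f := by
  simp [modG_ev]

theorem modG_ev_congr (Y : List (B × FreeMonoid (Fin 3))) (f g : FreeMonoid (Fin 3) → B)
    (h : ∀ x ∈ Y, f x.2 = g x.2) : modG_ev Y f = modG_ev Y g := by
  unfold modG_ev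
  congr 1
  apply List.map_congr_left
  intro x hx
  rw [h x hx]

theorem modG_ev_add (Y : List (B × FreeMonoid (Fin 3))) (f g : FreeMonoid (Fin 3) → B) :
    modG_ev Y (fun X => f X + g X) = modG_ev Y f + modG_ev Y g := by
  induction Y with
  | nil => simp [modG_ev_nil]
  | cons x Y ih => rw [modG_ev_cons, modG_ev_cons, modG_ev_cons, ih]; ring

theorem modG_ev_sub (Y : List (B × FreeMonoid (Fin 3))) (f g : FreeMonoid (Fin 3) → B) :
    modG_ev Y (fun X => f X - g X) = modG_ev Y f - modG_ev Y g := by
  induction Y with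
  | nil => simp [modG_ev_nil]
  | cons x Y ih => rw [modG_ev_cons, modG_ev_cons, modG_ev_cons, ih]; ring

theorem modG_ev_mul_left (Y : List (B × FreeMonoid (Fin 3))) (c : B)
    (f : FreeMonoid (Fin 3) → B) :
    modG_ev Y (fun X => c * f X) = c * modG_ev Y f := by
  induction Y with
  | nil => simp [modG_ev_nil]
  | cons x Y ih => rw [modG_ev_cons, modG_ev_cons, ih]; ring

theorem modG_ev_mul_right (Y : List (B × FreeMonoid (Fin 3))) (c : B)
    (f : FreeMonoid (Fin 3) → B) :
    modG_ev Y (fun X => f X * c) = modG_ev Y f * c := by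
  induction Y with
  | nil => simp [modG_ev_nil]
  | cons x Y ih => rw [modG_ev_cons, modG_ev_cons, ih]; ring

theorem modG_ev_zero (Y : List (B × FreeMonoid (Fin 3))) :
    modG_ev Y (fun _ => (0 : B)) = 0 := by
  induction Y with
  | nil => simp [modG_ev_nil]
  | cons x Y ih => rw [modG_ev_cons, ih]; ring

theorem modG_ev_comm (Y Z : List (B × FreeMonoid (Fin 3)))
    (f : FreeMonoid (Fin 3) → FreeMonoid (Fin 3) → B) :
    modG_ev Y (fun X => modG_ev Z (fun W => f X W))
      = modG_ev Z (fun W => modG_ev Y (fun X => f X W)) := by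
  induction Y with
  | nil => simp [modG_ev_nil, modG_ev_zero]
  | cons x Y ih =>
    rw [modG_ev_cons, ih]
    simp only [modG_ev_cons]
    rw [modG_ev_add, modG_ev_mul_left]

end ev

section words

theorem modG_split (w : FreeMonoid (Fin 3)) (n : ℕ) (h : n ≤ w.length) :
    ∃ u v : FreeMonoid (Fin 3), w = u * v ∧ u.length = n := by
  refine ⟨FreeMonoid.ofList (w.toList.take n), FreeMonoid.ofList (w.toList.drop n), ?_, ?_⟩
  · rw [← FreeMonoid.ofList_append, List.take_append_drop]; rfl
  · change (w.toList.take n).length = n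
    rw [List.length_take]
    exact min_eq_left h

theorem modG_take (u v : FreeMonoid (Fin 3)) (n : ℕ) (h : u.length = n) :
    FreeMonoid.ofList ((u * v).toList.take n) = u := by
  subst h
  change List.take (List.length u) (List.append u v) = u
  exact List.take_left

theorem modG_drop (u v : FreeMonoid (Fin 3)) (n : ℕ) (h : u.length = n) :
    FreeMonoid.ofList ((u * v).toList.drop n) = v := by
  subst h
  change List.drop (List.length u) (List.append u v) = v
  exact List.drop_left

end words

section step

variable {B : Type*} [CommRing B]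

/-- the truncated properties at level `D` -/
structure modG_P (Ut : FreeMonoid (Fin 3) → List (B × FreeMonoid (Fin 3)))
    (D : ℕ) (t : FreeMonoid (Fin 3) → B) : Prop where
  cyc : ∀ a b : FreeMonoid (Fin 3), a.length + b.length ≤ D → t (a * b) = t (b * a)
  fund : ∀ p q r s : FreeMonoid (Fin 3), p.length + q.length + r.length + s.length ≤ D →
    fund t p q r s = 0
  wp : ∀ a u b : FreeMonoid (Fin 3), u.length = 6 → a.length + 6 + b.length ≤ D →
    t (a * (u * b)) = modG_ev (Ut u) (fun X => t (a * (X * b)))

/-- one step of the extension -/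
def modG_next (Ut : FreeMonoid (Fin 3) → List (B × FreeMonoid (Fin 3)))
    (D : ℕ) (t : FreeMonoid (Fin 3) → B) (w : FreeMonoid (Fin 3)) : B :=
  if w.length ≤ D then t w else
    modG_ev (Ut (FreeMonoid.ofList (w.toList.take 6)))
      (fun X => t (X * FreeMonoid.ofList (w.toList.drop 6)))

theorem modG_next_low (Ut : FreeMonoid (Fin 3) → List (B × FreeMonoid (Fin 3)))
    (D : ℕ) (t : FreeMonoid (Fin 3) → B) (w : FreeMonoid (Fin 3)) (h : w.length ≤ D) :
    modG_next Ut D t w = t w := by
  unfold modG_next
  rw [if_pos h]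

theorem modG_next_high (Ut : FreeMonoid (Fin 3) → List (B × FreeMonoid (Fin 3)))
    (D : ℕ) (t : FreeMonoid (Fin 3) → B) (u v : FreeMonoid (Fin 3)) (hu : u.length = 6)
    (h : D < u.length + v.length) :
    modG_next Ut D t (u * v) = modG_ev (Ut u) (fun X => t (X * v)) := by
  unfold modG_next
  rw [if_neg, modG_take u v 6 hu, modG_drop u v 6 hu]
  rw [FreeMonoid.length_mul]
  omega

/-- `fund` in the first slot, linear along a list. -/
theorem modG_fund_lin (Y : List (B × FreeMonoid (Fin 3))) (t : FreeMonoid (Fin 3) → B)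
    (u v : FreeMonoid (Fin 3)) (D : ℕ)
    (H : ∀ a b : FreeMonoid (Fin 3), a.length + 6 + b.length ≤ D →
      t (a * (u * b)) = modG_ev Y (fun X => t (a * (X * b)))) :
    (∀ q r s : FreeMonoid (Fin 3), 6 + v.length + q.length + r.length + s.length ≤ D →
      fund t (u * v) q r s = modG_ev Y (fun X => fund t (X * v) q r s)) ∧
    (∀ p r s : FreeMonoid (Fin 3), 6 + v.length + p.length + r.length + s.length ≤ D →
      fund t p (u * v) r s = modG_ev Y (fun X => fund t p (X * v) r s)) ∧
    (∀ p q s : FreeMonoid (Fin 3), 6 + v.length + p.length + q.length + s.length ≤ D →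
      fund t p q (u * v) s = modG_ev Y (fun X => fund t p q (X * v) s)) ∧
    (∀ p q r : FreeMonoid (Fin 3), 6 + v.length + p.length + q.length + r.length ≤ D →
      fund t p q r (u * v) = modG_ev Y (fun X => fund t p q r (X * v))) := by
  have H0 : ∀ b : FreeMonoid (Fin 3), 6 + b.length ≤ D →
      t (u * b) = modG_ev Y (fun X => t (X * b)) := by
    intro b hb
    have := H 1 b (by simpa using hb)
    simpa only [one_mul] using this
  have H2 : ∀ a a' b : FreeMonoid (Fin 3), a.length + a'.length + 6 + b.length ≤ D →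
      t (a * (a' * (u * b))) = modG_ev Y (fun X => t (a * (a' * (X * b)))) := by
    intro a a' b hb
    have := H (a * a') b (by rw [FreeMonoid.length_mul]; exact hb)
    simpa only [mul_assoc] using this
  have H3 : ∀ a a' a'' b : FreeMonoid (Fin 3),
      a.length + a'.length + a''.length + 6 + b.length ≤ D →
      t (a * (a' * (a'' * (u * b)))) = modG_ev Y (fun X => t (a * (a' * (a'' * (X * b))))) := by
    intro a a' a'' b hb
    have := H (a * (a' * a'')) b (by rw [FreeMonoid.length_mul, FreeMonoid.length_mul]; omega)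
    simpa only [mul_assoc] using this
  refine ⟨?_, ?_, ?_, ?_⟩
  · intro q r s h
    simp only [fund, low, mul_assoc]
    simp (disch := ((try simp only [FreeMonoid.length_mul]); omega)) only [H0, H, H2, H3]
    simp only [modG_ev_sub, modG_ev_add, modG_ev_mul_left, modG_ev_mul_right]
  · intro q r s h
    simp only [fund, low, mul_assoc]
    simp (disch := ((try simp only [FreeMonoid.length_mul]); omega)) only [H0, H, H2, H3]
    simp only [modG_ev_sub, modG_ev_add, modG_ev_mul_left, modG_ev_mul_right]
  · intro q r s h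
    simp only [fund, low, mul_assoc]
    simp (disch := ((try simp only [FreeMonoid.length_mul]); omega)) only [H0, H, H2, H3]
    simp only [modG_ev_sub, modG_ev_add, modG_ev_mul_left, modG_ev_mul_right]
  · intro q r s h
    simp only [fund, low, mul_assoc]
    simp (disch := ((try simp only [FreeMonoid.length_mul]); omega)) only [H0, H, H2, H3]
    simp only [modG_ev_sub, modG_ev_add, modG_ev_mul_left, modG_ev_mul_right]


theorem modG_step (Ut : FreeMonoid (Fin 3) → List (B × FreeMonoid (Fin 3)))
    (hUt : ∀ u : FreeMonoid (Fin 3), u.length = 6 → ∀ x ∈ Ut u, x.2.length ≤ 5)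
    (D : ℕ) (hD : 20 ≤ D) (t : FreeMonoid (Fin 3) → B) (h : modG_P Ut D t) :
    modG_P Ut (D + 1) (modG_next Ut D t) := by
  -- window property at level D+1 with a long prefix
  have wp1 : ∀ a u b : FreeMonoid (Fin 3), u.length = 6 → 6 ≤ a.length →
      a.length + 6 + b.length = D + 1 →
      modG_next Ut D t (a * (u * b)) = modG_ev (Ut u) (fun X => t (a * (X * b))) := by
    intro a u b hu ha hab
    obtain ⟨u0, a', rfl, hu0⟩ := modG_split a 6 ha
    rw [FreeMonoid.length_mul] at ha hab
    rw [mul_assoc, modG_next_high Ut D t u0 (a' * (u * b)) hu0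
      (by rw [FreeMonoid.length_mul, FreeMonoid.length_mul]; omega)]
    have e1 : modG_ev (Ut u0) (fun X => t (X * (a' * (u * b))))
        = modG_ev (Ut u0) (fun X => modG_ev (Ut u) (fun Z => t ((X * a') * (Z * b)))) := by
      apply modG_ev_congr
      intro x hx
      have hx5 := hUt u0 hu0 x hx
      rw [← mul_assoc]
      exact h.wp _ _ _ hu (by rw [FreeMonoid.length_mul]; omega)
    rw [e1, modG_ev_comm]
    apply modG_ev_congr
    intro x hx
    have hx5 := hUt u hu x hx
    have := h.wp 1 u0 (a' * (x.2 * b)) hu0 (by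
      rw [FreeMonoid.length_mul, FreeMonoid.length_mul, FreeMonoid.length_one]; omega)
    rw [one_mul] at this
    rw [mul_assoc, this]
    apply modG_ev_congr
    intro y hy
    rw [one_mul, mul_assoc]
  have wp2 : ∀ a u b : FreeMonoid (Fin 3), u.length = 6 →
      a.length + 6 + b.length = D + 1 →
      modG_next Ut D t (a * (u * b)) = modG_ev (Ut u) (fun X => t (a * (X * b))) := by
    intro a u b hu hab
    by_cases ha : 6 ≤ a.length
    · exact wp1 a u b hu ha hab
    · push Not at ha
      obtain ⟨b', u1, rfl, hb'⟩ := modG_split b (b.length - 6) (by omega)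
      rw [FreeMonoid.length_mul] at hab hb'
      have hu1 : u1.length = 6 := by omega
      have e0 : a * (u * (b' * u1)) = (a * (u * b')) * (u1 * 1) := by
        simp only [mul_assoc, mul_one]
      rw [e0, wp1 _ u1 1 hu1 (by rw [FreeMonoid.length_mul, FreeMonoid.length_mul]; omega)
        (by rw [FreeMonoid.length_mul, FreeMonoid.length_mul, FreeMonoid.length_one]; omega)]
      have e1 : modG_ev (Ut u1) (fun X => t (a * (u * b') * (X * 1)))
          = modG_ev (Ut u1) (fun X => modG_ev (Ut u) (fun Z => t (a * (Z * (b' * X))))) := by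
        apply modG_ev_congr
        intro x hx
        have hx5 := hUt u1 hu1 x hx
        rw [mul_one, mul_assoc, mul_assoc]
        exact h.wp a u (b' * x.2) hu (by rw [FreeMonoid.length_mul]; omega)
      rw [e1, modG_ev_comm]
      apply modG_ev_congr
      intro x hx
      have hx5 := hUt u hu x hx
      have := h.wp (a * (x.2 * b')) u1 1 hu1 (by
        rw [FreeMonoid.length_mul, FreeMonoid.length_mul, FreeMonoid.length_one]; omega)
      simp only [mul_one, mul_assoc] at this
      rw [this]
  have wp3 : ∀ a u b : FreeMonoid (Fin 3), u.length = 6 →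
      a.length + 6 + b.length ≤ D + 1 →
      modG_next Ut D t (a * (u * b))
        = modG_ev (Ut u) (fun X => modG_next Ut D t (a * (X * b))) := by
    intro a u b hu hab
    have e1 : modG_ev (Ut u) (fun X => modG_next Ut D t (a * (X * b)))
        = modG_ev (Ut u) (fun X => t (a * (X * b))) := by
      apply modG_ev_congr
      intro x hx
      have hx5 := hUt u hu x hx
      apply modG_next_low
      rw [FreeMonoid.length_mul, FreeMonoid.length_mul]; omega
    rw [e1]
    by_cases hab' : a.length + 6 + b.length ≤ D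
    · rw [modG_next_low _ _ _ _ (by
        rw [FreeMonoid.length_mul, FreeMonoid.length_mul]; omega)]
      exact h.wp a u b hu hab'
    · exact wp2 a u b hu (by omega)
  have cyc1 : ∀ a b : FreeMonoid (Fin 3), 6 ≤ a.length → a.length + b.length = D + 1 →
      modG_next Ut D t (a * b) = modG_next Ut D t (b * a) := by
    intro a b ha hab
    obtain ⟨u, a', rfl, hu⟩ := modG_split a 6 ha
    rw [FreeMonoid.length_mul] at ha hab
    rw [mul_assoc, modG_next_high Ut D t u (a' * b) hu
      (by rw [FreeMonoid.length_mul]; omega), wp2 b u a' hu (by omega)]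
    apply modG_ev_congr
    intro x hx
    have hx5 := hUt u hu x hx
    rw [← mul_assoc]
    exact h.cyc _ _ (by rw [FreeMonoid.length_mul]; omega)
  refine ⟨?_, ?_, wp3⟩
  · intro a b hab
    by_cases hab' : a.length + b.length ≤ D
    · rw [modG_next_low _ _ _ _ (by rw [FreeMonoid.length_mul]; omega),
        modG_next_low _ _ _ _ (by rw [FreeMonoid.length_mul]; omega)]
      exact h.cyc a b hab'
    · by_cases ha : 6 ≤ a.length
      · exact cyc1 a b ha (by omega)
      · exact (cyc1 b a (by omega) (by omega)).symm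
  · -- values of fund agree on short arguments
    have low_eq : ∀ p q r s : FreeMonoid (Fin 3),
        p.length + q.length + r.length + s.length ≤ D →
        fund (modG_next Ut D t) p q r s = 0 := by
      intro p q r s hl
      have e := h.fund p q r s hl
      rw [← e]
      have hn : ∀ w : FreeMonoid (Fin 3), w.length ≤ D → modG_next Ut D t w = t w :=
        modG_next_low Ut D t
      simp only [fund, low]
      simp (disch := ((try simp only [FreeMonoid.length_mul]); omega)) only [hn]
    intro p q r s hl
    by_cases hl' : p.length + q.length + r.length + s.length ≤ D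
    · exact low_eq p q r s hl'
    · by_cases hp : 6 ≤ p.length
      · obtain ⟨u, v, rfl, hu⟩ := modG_split p 6 hp
        rw [FreeMonoid.length_mul] at hl
        rw [(modG_fund_lin (Ut u) (modG_next Ut D t) u v (D + 1)
          (fun a b hab => wp3 a u b hu hab)).1 q r s (by omega)]
        rw [← modG_ev_zero (Ut u)]
        apply modG_ev_congr
        intro x hx
        have hx5 := hUt u hu x hx
        exact low_eq _ _ _ _ (by rw [FreeMonoid.length_mul]; omega)
      by_cases hq : 6 ≤ q.length
      · obtain ⟨u, v, rfl, hu⟩ := modG_split q 6 hq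
        rw [FreeMonoid.length_mul] at hl
        rw [(modG_fund_lin (Ut u) (modG_next Ut D t) u v (D + 1)
          (fun a b hab => wp3 a u b hu hab)).2.1 p r s (by omega)]
        rw [← modG_ev_zero (Ut u)]
        apply modG_ev_congr
        intro x hx
        have hx5 := hUt u hu x hx
        exact low_eq _ _ _ _ (by rw [FreeMonoid.length_mul]; omega)
      by_cases hr : 6 ≤ r.length
      · obtain ⟨u, v, rfl, hu⟩ := modG_split r 6 hr
        rw [FreeMonoid.length_mul] at hl
        rw [(modG_fund_lin (Ut u) (modG_next Ut D t) u v (D + 1)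
          (fun a b hab => wp3 a u b hu hab)).2.2.1 p q s (by omega)]
        rw [← modG_ev_zero (Ut u)]
        apply modG_ev_congr
        intro x hx
        have hx5 := hUt u hu x hx
        exact low_eq _ _ _ _ (by rw [FreeMonoid.length_mul]; omega)
      · obtain ⟨u, v, rfl, hu⟩ := modG_split s 6 (by omega)
        rw [FreeMonoid.length_mul] at hl
        rw [(modG_fund_lin (Ut u) (modG_next Ut D t) u v (D + 1)
          (fun a b hab => wp3 a u b hu hab)).2.2.2 p q r (by omega)]
        rw [← modG_ev_zero (Ut u)]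
        apply modG_ev_congr
        intro x hx
        have hx5 := hUt u hu x hx
        exact low_eq _ _ _ _ (by rw [FreeMonoid.length_mul]; omega)

/-- the sequence of extensions -/
def modG_seq (Ut : FreeMonoid (Fin 3) → List (B × FreeMonoid (Fin 3)))
    (t : FreeMonoid (Fin 3) → B) : ℕ → FreeMonoid (Fin 3) → B
  | 0 => t
  | n + 1 => modG_next Ut (20 + n) (modG_seq Ut t n)

theorem modG_seq_P (Ut : FreeMonoid (Fin 3) → List (B × FreeMonoid (Fin 3)))
    (hUt : ∀ u : FreeMonoid (Fin 3), u.length = 6 → ∀ x ∈ Ut u, x.2.length ≤ 5)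
    (t : FreeMonoid (Fin 3) → B) (h : modG_P Ut 20 t) (n : ℕ) :
    modG_P Ut (20 + n) (modG_seq Ut t n) := by
  induction n with
  | zero => exact h
  | succ n ih => exact modG_step Ut hUt (20 + n) (by omega) _ ih

theorem modG_seq_stable (Ut : FreeMonoid (Fin 3) → List (B × FreeMonoid (Fin 3)))
    (t : FreeMonoid (Fin 3) → B) (n m : ℕ) (w : FreeMonoid (Fin 3)) (hw : w.length ≤ 20 + n) :
    modG_seq Ut t (n + m) w = modG_seq Ut t n w := by
  induction m with
  | zero => rfl
  | succ m ih =>
    rw [← ih]
    change modG_next Ut (20 + (n + m)) (modG_seq Ut t (n + m)) w = _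
    exact modG_next_low _ _ _ _ (by omega)

theorem modG_limit (Ut : FreeMonoid (Fin 3) → List (B × FreeMonoid (Fin 3)))
    (hUt : ∀ u : FreeMonoid (Fin 3), u.length = 6 → ∀ x ∈ Ut u, x.2.length ≤ 5)
    (t : FreeMonoid (Fin 3) → B) (h : modG_P Ut 20 t) :
    ∃ t' : FreeMonoid (Fin 3) → B,
      (∀ a b, t' (a * b) = t' (b * a)) ∧ (∀ p q r s, fund t' p q r s = 0) ∧
      ∀ w : FreeMonoid (Fin 3), w.length ≤ 20 → t' w = t w := by
  have key : ∀ N : ℕ, ∀ w : FreeMonoid (Fin 3), w.length ≤ N →
      modG_seq Ut t w.length w = modG_seq Ut t N w := by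
    intro N w hw
    obtain ⟨m, rfl⟩ := Nat.exists_eq_add_of_le hw
    exact (modG_seq_stable Ut t w.length m w (by omega)).symm
  refine ⟨fun w => modG_seq Ut t w.length w, ?_, ?_, ?_⟩
  · intro a b
    change modG_seq Ut t (a * b).length (a * b) = modG_seq Ut t (b * a).length (b * a)
    rw [key (a.length + b.length) (a * b) (by rw [FreeMonoid.length_mul]),
      key (a.length + b.length) (b * a) (by rw [FreeMonoid.length_mul]; omega)]
    exact (modG_seq_P Ut hUt t h (a.length + b.length)).cyc a b (by omega)
  · intro p q r s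
    have e := (modG_seq_P Ut hUt t h (p.length + q.length + r.length + s.length)).fund
      p q r s (by omega)
    rw [← e]
    have hn := key (p.length + q.length + r.length + s.length)
    simp only [fund, low]
    simp (disch := ((try simp only [FreeMonoid.length_mul]); omega)) only [hn]
  · intro w hw
    have := modG_seq_stable Ut t 0 w.length w (by omega)
    rw [Nat.zero_add] at this
    exact this

end step

section base

variable {B : Type*} [CommRing B]

/-- the combination of shorter words read off from `low` -/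
def modG_C (t : FreeMonoid (Fin 3) → B) (p q r : FreeMonoid (Fin 3)) :
    List (B × FreeMonoid (Fin 3)) :=
  [(t p, q * r), (t p, r * q), (t q, p * r), (t q, r * p), (t r, p * q), (t r, q * p),
    (-(t p * t q - t (p * q)), r), (-(t p * t r - t (p * r)), q),
    (-(t q * t r - t (q * r)), p),
    (t p * t q * t r - t (p * q) * t r - t (p * r) * t q - t (q * r) * t p
        + t (p * q * r) + t (p * r * q), 1)]

theorem modG_C_low (t : FreeMonoid (Fin 3) → B) (p q r s : FreeMonoid (Fin 3)) :
    modG_ev (modG_C t p q r) (fun X => t (X * s)) = low t p q r s := by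
  simp only [modG_C, modG_ev_cons, modG_ev_nil, low, one_mul]
  ring

theorem modG_C_len (t : FreeMonoid (Fin 3) → B) (p q r : FreeMonoid (Fin 3))
    (hp : 0 < p.length) (hq : 0 < q.length) (hr : 0 < r.length) :
    ∀ x ∈ modG_C t p q r, x.2.length + 1 ≤ p.length + q.length + r.length := by
  intro x hx
  simp only [modG_C, List.mem_cons, List.not_mem_nil, or_false] at hx
  rcases hx with rfl | rfl | rfl | rfl | rfl | rfl | rfl | rfl | rfl | rfl <;>
    simp only [FreeMonoid.length_mul, FreeMonoid.length_one] <;> omega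

variable [Algebra ℚ B]

/-- the shortened window -/
def modG_Ut
    (win : List (Fin 3) → List (ℚ × List (Fin 3) × List (Fin 3) × List (Fin 3) × List (Fin 3) × List (Fin 3)))
    (t : FreeMonoid (Fin 3) → B) (u : FreeMonoid (Fin 3)) : List (B × FreeMonoid (Fin 3)) :=
  (win u.toList).flatMap (fun x =>
    (modG_C t (FreeMonoid.ofList x.2.2.1) (FreeMonoid.ofList x.2.2.2.1)
      (FreeMonoid.ofList x.2.2.2.2.1)).map
      (fun y => (algebraMap ℚ B x.1 * y.1,
        FreeMonoid.ofList x.2.1 * (y.2 * FreeMonoid.ofList x.2.2.2.2.2))))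

theorem modG_ev_map (Y : List (B × FreeMonoid (Fin 3))) (c : B) (a b : FreeMonoid (Fin 3))
    (f : FreeMonoid (Fin 3) → B) :
    modG_ev (Y.map (fun y => (c * y.1, a * (y.2 * b)))) f
      = c * modG_ev Y (fun X => f (a * (X * b))) := by
  induction Y with
  | nil => simp [modG_ev_nil]
  | cons x Y ih =>
    rw [List.map_cons, modG_ev_cons, modG_ev_cons, ih]; ring

theorem modG_ev_flatMap {α : Type*} (L : List α) (g : α → List (B × FreeMonoid (Fin 3)))
    (f : FreeMonoid (Fin 3) → B) :
    modG_ev (L.flatMap g) f = (L.map (fun x => modG_ev (g x) f)).sum := by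
  induction L with
  | nil => simp [modG_ev_nil]
  | cons x L ih => rw [List.flatMap_cons, modG_ev_append, ih, List.map_cons, List.sum_cons]

end base

/-- Extension of a truncated pseudo-character by windows of length six. -/
theorem extension {B : Type*} [CommRing B] [Algebra ℚ B] (t : FreeMonoid (Fin 3) → B)
    (win : List (Fin 3) → List (ℚ × List (Fin 3) × List (Fin 3) × List (Fin 3) × List (Fin 3) × List (Fin 3)))
    (win_len : ∀ u : List (Fin 3), u.length = 6 → ∀ x ∈ win u,
      x.2.2.1 ≠ [] ∧ x.2.2.2.1 ≠ [] ∧ x.2.2.2.2.1 ≠ [] ∧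
      x.2.1.length + x.2.2.1.length + x.2.2.2.1.length + x.2.2.2.2.1.length
        + x.2.2.2.2.2.length = 6)
    (win_spec : ∀ u : List (Fin 3), u.length = 6 → ∀ φ : List (Fin 3) → B,
      φ u = ((win u).map (fun x => x.1 • (
        φ (x.2.1 ++ x.2.2.1 ++ x.2.2.2.1 ++ x.2.2.2.2.1 ++ x.2.2.2.2.2)
        + φ (x.2.1 ++ x.2.2.1 ++ x.2.2.2.2.1 ++ x.2.2.2.1 ++ x.2.2.2.2.2)
        + φ (x.2.1 ++ x.2.2.2.1 ++ x.2.2.1 ++ x.2.2.2.2.1 ++ x.2.2.2.2.2)
        + φ (x.2.1 ++ x.2.2.2.1 ++ x.2.2.2.2.1 ++ x.2.2.1 ++ x.2.2.2.2.2)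
        + φ (x.2.1 ++ x.2.2.2.2.1 ++ x.2.2.1 ++ x.2.2.2.1 ++ x.2.2.2.2.2)
        + φ (x.2.1 ++ x.2.2.2.2.1 ++ x.2.2.2.1 ++ x.2.2.1 ++ x.2.2.2.2.2)))).sum)
    (h1 : t 1 = 3)
    (hc : ∀ a b : FreeMonoid (Fin 3), a.length + b.length ≤ 20 → t (a * b) = t (b * a))
    (hf : ∀ p q r s : FreeMonoid (Fin 3), p.length + q.length + r.length + s.length ≤ 20 →
      fund t p q r s = 0) :
    ∃ t' : FreeMonoid (Fin 3) → B, IsPC t' ∧ ∀ w : FreeMonoid (Fin 3), w.length ≤ 20 → t' w = t w := by
  have hlen : ∀ u : FreeMonoid (Fin 3), u.length = 6 → ∀ x ∈ modG_Ut win t u, x.2.length ≤ 5 := by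
    intro u hu x hx
    simp only [modG_Ut, List.mem_flatMap, List.mem_map] at hx
    obtain ⟨y, hy, z, hz, rfl⟩ := hx
    obtain ⟨hp, hq, hr, hs⟩ := win_len u.toList hu y hy
    have hp' : 0 < (FreeMonoid.ofList y.2.2.1).length := List.length_pos_iff.mpr hp
    have hq' : 0 < (FreeMonoid.ofList y.2.2.2.1).length := List.length_pos_iff.mpr hq
    have hr' : 0 < (FreeMonoid.ofList y.2.2.2.2.1).length := List.length_pos_iff.mpr hr
    have := modG_C_len t _ _ _ hp' hq' hr' z hz
    have hs' : (FreeMonoid.ofList y.2.1).length + (FreeMonoid.ofList y.2.2.1).length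
      + (FreeMonoid.ofList y.2.2.2.1).length + (FreeMonoid.ofList y.2.2.2.2.1).length
      + (FreeMonoid.ofList y.2.2.2.2.2).length = 6 := hs
    simp only [FreeMonoid.length_mul]
    omega
  have hP : modG_P (modG_Ut win t) 20 t := by
    refine ⟨hc, hf, ?_⟩
    intro a u b hu hab
    have e1 := win_spec u.toList hu (fun w => t (a * (FreeMonoid.ofList w * b)))
    have e2 : t (a * (u * b)) = t (a * (FreeMonoid.ofList u.toList * b)) := rfl
    rw [e2, e1, modG_Ut, modG_ev_flatMap]
    congr 1
    apply List.map_congr_left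
    intro x hx
    rw [modG_ev_map]
    obtain ⟨hp, hq, hr, hs⟩ := win_len u.toList hu x hx
    have hp' : 0 < (FreeMonoid.ofList x.2.2.1).length := List.length_pos_iff.mpr hp
    have hq' : 0 < (FreeMonoid.ofList x.2.2.2.1).length := List.length_pos_iff.mpr hq
    have hr' : 0 < (FreeMonoid.ofList x.2.2.2.2.1).length := List.length_pos_iff.mpr hr
    have hs' : (FreeMonoid.ofList x.2.1).length + (FreeMonoid.ofList x.2.2.1).length
      + (FreeMonoid.ofList x.2.2.2.1).length + (FreeMonoid.ofList x.2.2.2.2.1).length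
      + (FreeMonoid.ofList x.2.2.2.2.2).length = 6 := hs
    have hCl := modG_C_len t _ _ _ hp' hq' hr'
    simp only [FreeMonoid.ofList_append]
    generalize FreeMonoid.ofList x.2.1 = a0 at *
    generalize FreeMonoid.ofList x.2.2.1 = p at *
    generalize FreeMonoid.ofList x.2.2.2.1 = q at *
    generalize FreeMonoid.ofList x.2.2.2.2.1 = r at *
    generalize FreeMonoid.ofList x.2.2.2.2.2 = b0 at *
    have e3 : modG_ev (modG_C t p q r) (fun X => t (a * (a0 * (X * b0) * b)))
        = modG_ev (modG_C t p q r) (fun X => t (X * (b0 * b * (a * a0)))) := by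
      apply modG_ev_congr
      intro y hy
      have hy5 := hCl y hy
      have e4 : a * (a0 * (y.2 * b0) * b) = (a * a0) * (y.2 * (b0 * b)) := by
        simp only [mul_assoc]
      have e5 : y.2 * (b0 * b * (a * a0)) = (y.2 * (b0 * b)) * (a * a0) := by
        simp only [mul_assoc]
      rw [e4, e5]
      exact hc _ _ (by simp only [FreeMonoid.length_mul]; omega)
    rw [e3, modG_C_low]
    have e6 := hf p q r (b0 * b * (a * a0)) (by simp only [FreeMonoid.length_mul]; omega)
    unfold fund at e6
    have e7 : low t p q r (b0 * b * (a * a0)) =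
        t (p * q * r * (b0 * b * (a * a0))) + t (p * r * q * (b0 * b * (a * a0)))
        + t (q * p * r * (b0 * b * (a * a0))) + t (q * r * p * (b0 * b * (a * a0)))
        + t (r * p * q * (b0 * b * (a * a0))) + t (r * q * p * (b0 * b * (a * a0))) := by
      linear_combination -e6
    rw [e7]
    have e8 : ∀ z : FreeMonoid (Fin 3), z.length = p.length + q.length + r.length →
        t (z * (b0 * b * (a * a0))) = t (a * (a0 * z * b0 * b)) := by
      intro z hz
      have e4 : a * (a0 * z * b0 * b) = (a * a0) * (z * (b0 * b)) := by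
        simp only [mul_assoc]
      have e5 : z * (b0 * b * (a * a0)) = (z * (b0 * b)) * (a * a0) := by
        simp only [mul_assoc]
      rw [e4, e5]
      exact hc _ _ (by simp only [FreeMonoid.length_mul]; omega)
    rw [e8 _ (by simp only [FreeMonoid.length_mul]), e8 _ (by simp only [FreeMonoid.length_mul]; omega),
      e8 _ (by simp only [FreeMonoid.length_mul]; omega),
      e8 _ (by simp only [FreeMonoid.length_mul]; omega),
      e8 _ (by simp only [FreeMonoid.length_mul]; omega),
      e8 _ (by simp only [FreeMonoid.length_mul]; omega), Algebra.smul_def]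
    simp only [mul_assoc]
  obtain ⟨t', hcyc, hfund, hagree⟩ := modG_limit (modG_Ut win t) hlen t hP
  refine ⟨t', ⟨?_, hcyc, hfund⟩, hagree⟩
  rw [hagree 1 (by rw [FreeMonoid.length_one]; omega), h1]

end Pool.Agent.H20.TR
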