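import Pool.Agent.H20.TR.Words

set_option autoImplicit false

namespace Pool.Agent.H20.TR

/-- Total coefficient of a key in a list of coefficients and keys. -/
def coefN (l : List (ℤ × ℕ)) (k : ℕ) : ℤ :=
  l.foldr (fun x acc => bif Nat.beq x.2 k then x.1 + acc else acc) 0

/-- All total coefficients vanish. -/
def allZero (l : List (ℤ × ℕ)) : Bool := l.all (fun x => coefN l x.2 == 0)

theorem coefN_eq_finsupp (l : List (ℤ × ℕ)) (k : ℕ) :
    ((l.map (fun x => Finsupp.single x.2 x.1)).sum : ℕ →₀ ℤ) k = coefN l k := by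
  induction l with
  | nil => rfl
  | cons a l ih =>
    rw [List.map_cons, List.sum_cons, Finsupp.add_apply, ih]
    unfold coefN
    rw [List.foldr_cons]
    by_cases h : a.2 = k
    · rw [h, Finsupp.single_eq_same, Nat.beq_refl]
      rfl
    · rw [Finsupp.single_eq_of_ne (Ne.symm h), zero_add]
      have hb : Nat.beq a.2 k = false := by
        cases hb : Nat.beq a.2 k
        · rfl
        · exact absurd (Nat.eq_of_beq_eq_true hb) h
      rw [hb]
      rfl

theorem comb_zero {V : Type*} [AddCommGroup V] (l : List (ℤ × ℕ)) (h : allZero l = true)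
    (ψ : ℕ → V) : (l.map (fun x => x.1 • ψ x.2)).sum = 0 := by
  have hF : ((l.map (fun x => Finsupp.single x.2 x.1)).sum : ℕ →₀ ℤ) = 0 := by
    ext k
    rw [coefN_eq_finsupp, Finsupp.zero_apply]
    by_cases hk : ∃ x ∈ l, x.2 = k
    · obtain ⟨x, hx, rfl⟩ := hk
      have := List.all_eq_true.mp h x hx
      exact beq_iff_eq.mp this
    · push Not at hk
      clear h
      induction l with
      | nil => rfl
      | cons a l ih =>
        unfold coefN
        rw [List.foldr_cons]
        have ha : a.2 ≠ k := hk a (List.mem_cons_self)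
        have hb : Nat.beq a.2 k = false := by
          cases hb : Nat.beq a.2 k
          · rfl
          · exact absurd (Nat.eq_of_beq_eq_true hb) ha
        rw [hb]
        exact ih (fun x hx => hk x (List.mem_cons_of_mem _ hx))
  have hg := congrArg (Finsupp.liftAddHom (fun k : ℕ =>
    ((smulAddHom ℤ V).flip (ψ k)))) hF
  rw [map_list_sum, map_zero, List.map_map] at hg
  rw [← hg]
  congr 1
  refine List.map_congr_left (fun x _ => ?_)
  simp

/-- Decimal code of a list of digits. -/
def code10 (l : List ℕ) : ℕ := l.foldl (fun a d => 10 * a + d) 0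

theorem code10_concat (l : List ℕ) (d : ℕ) : code10 (l ++ [d]) = 10 * code10 l + d := by
  unfold code10
  rw [List.foldl_append]
  rfl

theorem digs_code10 (k : ℕ) (l : List ℕ) (hl : l.length ≤ k) (hd : ∀ d ∈ l, 1 ≤ d ∧ d ≤ 9) :
    digs k (code10 l) = l := by
  induction k generalizing l with
  | zero =>
    have : l = [] := List.length_eq_zero_iff.mp (by omega)
    subst this
    rfl
  | succ k ih =>
    rcases List.eq_nil_or_concat l with rfl | ⟨l', d, rfl⟩
    · rfl
    · rw [List.concat_eq_append] at hl hd ⊢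
      rw [code10_concat]
      have hd' := hd d (by simp)
      unfold digs
      rw [if_neg (by omega)]
      have h1 : (10 * code10 l' + d) / 10 = code10 l' := by omega
      have h2 : (10 * code10 l' + d) % 10 = d := by omega
      rw [h1, h2, ih l' (by simpa using hl) (fun x hx => hd x (by simp [hx]))]

/-- The six orders of three lists between two lists. -/
def six {V : Type*} [AddCommGroup V] {α : Type*} (φ : List α → V) (a p q r b : List α) : V :=
  φ (a ++ p ++ q ++ r ++ b) + φ (a ++ p ++ r ++ q ++ b) + φ (a ++ q ++ p ++ r ++ b)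
    + φ (a ++ q ++ r ++ p ++ b) + φ (a ++ r ++ p ++ q ++ b) + φ (a ++ r ++ q ++ p ++ b)

/-- The keys of the terms of a window list. -/
def winKeys (W : List (ℤ × ℕ × ℕ × ℕ × ℕ × ℕ)) : List (ℤ × ℕ) :=
  W.flatMap (fun x =>
    [(x.1, code10 (digs 7 x.2.1 ++ digs 7 x.2.2.1 ++ digs 7 x.2.2.2.1 ++ digs 7 x.2.2.2.2.1
        ++ digs 7 x.2.2.2.2.2)),
     (x.1, code10 (digs 7 x.2.1 ++ digs 7 x.2.2.1 ++ digs 7 x.2.2.2.2.1 ++ digs 7 x.2.2.2.1
        ++ digs 7 x.2.2.2.2.2)),
     (x.1, code10 (digs 7 x.2.1 ++ digs 7 x.2.2.2.1 ++ digs 7 x.2.2.1 ++ digs 7 x.2.2.2.2.1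
        ++ digs 7 x.2.2.2.2.2)),
     (x.1, code10 (digs 7 x.2.1 ++ digs 7 x.2.2.2.1 ++ digs 7 x.2.2.2.2.1 ++ digs 7 x.2.2.1
        ++ digs 7 x.2.2.2.2.2)),
     (x.1, code10 (digs 7 x.2.1 ++ digs 7 x.2.2.2.2.1 ++ digs 7 x.2.2.1 ++ digs 7 x.2.2.2.1
        ++ digs 7 x.2.2.2.2.2)),
     (x.1, code10 (digs 7 x.2.1 ++ digs 7 x.2.2.2.2.1 ++ digs 7 x.2.2.2.1 ++ digs 7 x.2.2.1
        ++ digs 7 x.2.2.2.2.2))])

/-- Shape check of a window entry: digits between one and six, `p, q, r` nonempty, total length
six. -/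
def winOK (x : ℤ × ℕ × ℕ × ℕ × ℕ × ℕ) : Bool :=
  ((digs 7 x.2.1 ++ digs 7 x.2.2.1 ++ digs 7 x.2.2.2.1 ++ digs 7 x.2.2.2.2.1
        ++ digs 7 x.2.2.2.2.2).all (fun d => Nat.ble 1 d && Nat.ble d 6)) &&
  (!(digs 7 x.2.2.1).isEmpty && (!(digs 7 x.2.2.2.1).isEmpty && (!(digs 7 x.2.2.2.2.1).isEmpty &&
    Nat.beq ((digs 7 x.2.1).length + (digs 7 x.2.2.1).length + (digs 7 x.2.2.2.1).length
      + (digs 7 x.2.2.2.2.1).length + (digs 7 x.2.2.2.2.2).length) 6)))

set_option maxRecDepth 100000 in
theorem win01_ok : win01.all winOK = true := by decide +kernel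
set_option maxRecDepth 100000 in
theorem win45_ok : win45.all winOK = true := by decide +kernel
set_option maxRecDepth 100000 in
theorem win05_ok : win05.all winOK = true := by decide +kernel
set_option maxRecDepth 100000 in
theorem win04_ok : win04.all winOK = true := by decide +kernel
set_option maxRecDepth 100000 in
theorem win15_ok : win15.all winOK = true := by decide +kernel
set_option maxRecDepth 100000 in
theorem win14_ok : win14.all winOK = true := by decide +kernel

set_option maxRecDepth 100000 in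
theorem win01_zero : allZero (winKeys win01 ++ [(-6, 123456), (-6, 213456)]) = true := by
  decide +kernel
set_option maxRecDepth 100000 in
theorem win45_zero : allZero (winKeys win45 ++ [(-6, 123456), (-6, 123465)]) = true := by
  decide +kernel
set_option maxRecDepth 100000 in
theorem win05_zero : allZero (winKeys win05 ++ [(-6, 123456), (-6, 623451)]) = true := by
  decide +kernel
set_option maxRecDepth 100000 in
theorem win04_zero : allZero (winKeys win04 ++ [(-6, 123456), (-6, 523416)]) = true := by
  decide +kernel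
set_option maxRecDepth 100000 in
theorem win15_zero : allZero (winKeys win15 ++ [(-6, 123456), (-6, 163452)]) = true := by
  decide +kernel
set_option maxRecDepth 100000 in
theorem win14_zero : allZero (winKeys win14 ++ [(-6, 123456), (-6, 153426)]) = true := by
  decide +kernel

end Pool.Agent.H20.TR
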