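import Pool.Agent.H20.TR.ModH0

set_option autoImplicit false

namespace Pool.Agent.H20.TR

theorem sub_append (u : List (Fin 3)) (n1 n2 n3 n4 n5 : ℕ) :
    sub u n1 ++ sub u n2 ++ sub u n3 ++ sub u n4 ++ sub u n5
      = (digs 7 n1 ++ digs 7 n2 ++ digs 7 n3 ++ digs 7 n4 ++ digs 7 n5).map
        (fun i => u.getD (i - 1) 0) := by
  unfold sub
  rw [List.map_append, List.map_append, List.map_append, List.map_append]

/-- A window list whose keys cancel gives an identity for every functional on words. -/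
theorem window_sum {V : Type*} [AddCommGroup V] (W : List (ℤ × ℕ × ℕ × ℕ × ℕ × ℕ))
    (hW : W.all winOK = true) (k1 k2 : ℕ)
    (hz : allZero (winKeys W ++ [(-6, k1), (-6, k2)]) = true)
    (u : List (Fin 3)) (φ : List (Fin 3) → V) :
    (W.map (fun x => x.1 • six φ (sub u x.2.1) (sub u x.2.2.1) (sub u x.2.2.2.1)
      (sub u x.2.2.2.2.1) (sub u x.2.2.2.2.2))).sum
      = (6 : ℤ) • (φ (sub u k1) + φ (sub u k2)) := by
  have h := comb_zero _ hz (fun n => φ (sub u n))
  rw [List.map_append, List.sum_append] at h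
  have hk : ((winKeys W).map (fun x => x.1 • φ (sub u x.2))).sum
      = (W.map (fun x => x.1 • six φ (sub u x.2.1) (sub u x.2.2.1) (sub u x.2.2.2.1)
      (sub u x.2.2.2.2.1) (sub u x.2.2.2.2.2))).sum := by
    clear h hz
    induction W with
    | nil => rfl
    | cons x W ih =>
      rw [List.all_cons, Bool.and_eq_true] at hW
      have ih' := ih hW.2
      unfold winKeys at ih' ⊢
      rw [List.flatMap_cons, List.map_append, List.sum_append, ih', List.map_cons, List.sum_cons]
      congr 1
      have hx := hW.1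
      unfold winOK at hx
      rw [Bool.and_eq_true] at hx
      obtain ⟨hd, hl⟩ := hx
      simp only [Bool.and_eq_true] at hl
      obtain ⟨-, -, -, hlen⟩ := hl
      have hlen' := Nat.eq_of_beq_eq_true hlen
      have hd' : ∀ l : List ℕ, (∀ d ∈ l, d ∈ (digs 7 x.2.1 ++ digs 7 x.2.2.1 ++ digs 7 x.2.2.2.1
          ++ digs 7 x.2.2.2.2.1 ++ digs 7 x.2.2.2.2.2)) → l.length = 6 →
          sub u (code10 l) = l.map (fun i => u.getD (i - 1) 0) := by
        intro l hl1 hl2
        unfold sub
        rw [digs_code10 7 l (by omega)]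
        intro d hdl
        have := List.all_eq_true.mp hd d (hl1 d hdl)
        rw [Bool.and_eq_true, Nat.ble_eq, Nat.ble_eq] at this
        omega
      simp only [List.map_cons, List.map_nil, List.sum_cons, List.sum_nil, add_zero]
      unfold six
      rw [sub_append, sub_append, sub_append, sub_append, sub_append, sub_append]
      rw [hd' _ (fun d hd => hd) (by simp only [List.length_append]; omega),
        hd' _ (fun d hd => by simp only [List.mem_append] at hd ⊢; tauto)
          (by simp only [List.length_append]; omega),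
        hd' _ (fun d hd => by simp only [List.mem_append] at hd ⊢; tauto)
          (by simp only [List.length_append]; omega),
        hd' _ (fun d hd => by simp only [List.mem_append] at hd ⊢; tauto)
          (by simp only [List.length_append]; omega),
        hd' _ (fun d hd => by simp only [List.mem_append] at hd ⊢; tauto)
          (by simp only [List.length_append]; omega),
        hd' _ (fun d hd => by simp only [List.mem_append] at hd ⊢; tauto)
          (by simp only [List.length_append]; omega)]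
      simp only [smul_add]
      abel
  rw [hk] at h
  simp only [List.map_cons, List.map_nil, List.sum_cons, List.sum_nil, add_zero, neg_smul] at h
  rw [smul_add]
  have := eq_neg_of_add_eq_zero_left h
  rw [this]
  abel

theorem list_six (u : List (Fin 3)) (hu : u.length = 6) :
    ∃ a b c d e f, u = [a, b, c, d, e, f] := by
  match u, hu with
  | [a, b, c, d, e, f], _ => exact ⟨a, b, c, d, e, f, rfl⟩

/-- The window list chosen for a word. -/
def winSel (u : List (Fin 3)) : List (ℤ × ℕ × ℕ × ℕ × ℕ × ℕ) :=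
  if u.getD 0 0 = u.getD 1 0 then win01 else if u.getD 4 0 = u.getD 5 0 then win45
    else if u.getD 0 0 = u.getD 5 0 then win05 else if u.getD 0 0 = u.getD 4 0 then win04
    else if u.getD 1 0 = u.getD 5 0 then win15 else win14

theorem winSel_ok (u : List (Fin 3)) : (winSel u).all winOK = true := by
  unfold winSel
  split_ifs
  · exact win01_ok
  · exact win45_ok
  · exact win05_ok
  · exact win04_ok
  · exact win15_ok
  · exact win14_ok

theorem winSel_sum {V : Type*} [AddCommGroup V] (u : List (Fin 3)) (hu : u.length = 6)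
    (φ : List (Fin 3) → V) :
    ((winSel u).map (fun x => x.1 • six φ (sub u x.2.1) (sub u x.2.2.1) (sub u x.2.2.2.1)
      (sub u x.2.2.2.2.1) (sub u x.2.2.2.2.2))).sum = (12 : ℤ) • φ u := by
  obtain ⟨a, b, c, d, e, f, rfl⟩ := list_six u hu
  have h0 : sub [a, b, c, d, e, f] 123456 = [a, b, c, d, e, f] := rfl
  unfold winSel
  split_ifs with h1 h2 h3 h4 h5
  · rw [window_sum win01 win01_ok _ _ win01_zero, h0]
    have : sub [a, b, c, d, e, f] 213456 = [b, a, c, d, e, f] := rfl
    have hab : a = b := h1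
    rw [this, ← hab, ← two_smul ℤ, smul_smul]
    norm_num
  · rw [window_sum win45 win45_ok _ _ win45_zero, h0]
    have : sub [a, b, c, d, e, f] 123465 = [a, b, c, d, f, e] := rfl
    have hab : e = f := h2
    rw [this, ← hab, ← two_smul ℤ, smul_smul]
    norm_num
  · rw [window_sum win05 win05_ok _ _ win05_zero, h0]
    have : sub [a, b, c, d, e, f] 623451 = [f, b, c, d, e, a] := rfl
    have hab : a = f := h3
    rw [this, ← hab, ← two_smul ℤ, smul_smul]
    norm_num
  · rw [window_sum win04 win04_ok _ _ win04_zero, h0]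
    have : sub [a, b, c, d, e, f] 523416 = [e, b, c, d, a, f] := rfl
    have hab : a = e := h4
    rw [this, ← hab, ← two_smul ℤ, smul_smul]
    norm_num
  · rw [window_sum win15 win15_ok _ _ win15_zero, h0]
    have : sub [a, b, c, d, e, f] 163452 = [a, f, c, d, e, b] := rfl
    have hab : b = f := h5
    rw [this, ← hab, ← two_smul ℤ, smul_smul]
    norm_num
  · rw [window_sum win14 win14_ok _ _ win14_zero, h0]
    have : sub [a, b, c, d, e, f] 153426 = [a, e, c, d, b, f] := rfl
    have hbe : b = e := by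
      have k1 : a ≠ b := h1
      have k2 : e ≠ f := h2
      have k3 : a ≠ f := h3
      have k4 : a ≠ e := h4
      have k5 : b ≠ f := h5
      have l1 := a.isLt
      have l2 := b.isLt
      have l3 := e.isLt
      have l4 := f.isLt
      rw [ne_eq, Fin.ext_iff] at k1 k2 k3 k4 k5
      rw [Fin.ext_iff]
      omega
    rw [this, ← hbe, ← two_smul ℤ, smul_smul]
    norm_num

theorem win_eq (u : List (Fin 3)) : win u = (winSel u).map
    (fun x => ((x.1 : ℚ) / 12, sub u x.2.1, sub u x.2.2.1, sub u x.2.2.2.1, sub u x.2.2.2.2.1,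
    sub u x.2.2.2.2.2)) := rfl

theorem win_len (u : List (Fin 3)) : ∀ x ∈ win u,
      x.2.2.1 ≠ [] ∧ x.2.2.2.1 ≠ [] ∧ x.2.2.2.2.1 ≠ [] ∧
      x.2.1.length + x.2.2.1.length + x.2.2.2.1.length + x.2.2.2.2.1.length
        + x.2.2.2.2.2.length = 6 := by
  intro x hx
  rw [win_eq] at hx
  obtain ⟨y, hy, rfl⟩ := List.mem_map.mp hx
  have h := List.all_eq_true.mp (winSel_ok u) y hy
  unfold winOK at h
  simp only [Bool.and_eq_true, Bool.not_eq_true', List.isEmpty_eq_false_iff] at h
  obtain ⟨-, h1, h2, h3, h4⟩ := h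
  have h4' := Nat.eq_of_beq_eq_true h4
  unfold sub
  simp only [List.length_map, ne_eq, List.map_eq_nil_iff]
  exact ⟨h1, h2, h3, h4'⟩

theorem win_spec {B : Type*} [CommRing B] [Algebra ℚ B] (u : List (Fin 3)) (hu : u.length = 6)
    (φ : List (Fin 3) → B) :
      φ u = ((win u).map (fun x => x.1 • (
        φ (x.2.1 ++ x.2.2.1 ++ x.2.2.2.1 ++ x.2.2.2.2.1 ++ x.2.2.2.2.2)
        + φ (x.2.1 ++ x.2.2.1 ++ x.2.2.2.2.1 ++ x.2.2.2.1 ++ x.2.2.2.2.2)
        + φ (x.2.1 ++ x.2.2.2.1 ++ x.2.2.1 ++ x.2.2.2.2.1 ++ x.2.2.2.2.2)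
        + φ (x.2.1 ++ x.2.2.2.1 ++ x.2.2.2.2.1 ++ x.2.2.1 ++ x.2.2.2.2.2)
        + φ (x.2.1 ++ x.2.2.2.2.1 ++ x.2.2.1 ++ x.2.2.2.1 ++ x.2.2.2.2.2)
        + φ (x.2.1 ++ x.2.2.2.2.1 ++ x.2.2.2.1 ++ x.2.2.1 ++ x.2.2.2.2.2)))).sum := by
  rw [win_eq, List.map_map]
  have h := winSel_sum u hu φ
  have h2 : ((winSel u).map (fun x => ((x.1 : ℚ) / 12) • six φ (sub u x.2.1) (sub u x.2.2.1)
      (sub u x.2.2.2.1) (sub u x.2.2.2.2.1) (sub u x.2.2.2.2.2))).sum
      = (1 / 12 : ℚ) • ((winSel u).map (fun x => x.1 • six φ (sub u x.2.1) (sub u x.2.2.1)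
      (sub u x.2.2.2.1) (sub u x.2.2.2.2.1) (sub u x.2.2.2.2.2))).sum := by
    rw [List.smul_sum, List.map_map]
    congr 1
    refine List.map_congr_left (fun x _ => ?_)
    simp only [Function.comp_apply]
    rw [← Int.cast_smul_eq_zsmul ℚ, smul_smul]
    congr 1
    ring
  rw [h] at h2
  have h3 : (1 / 12 : ℚ) • ((12 : ℤ) • φ u) = φ u := by
    rw [← Int.cast_smul_eq_zsmul ℚ, smul_smul]
    norm_num
  rw [h3] at h2
  exact h2.symm

end Pool.Agent.H20.TR
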