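import Pool.Agent.H20.TR.ModH1

set_option autoImplicit false

namespace Pool.Agent.H20.TR

theorem canon_prop (w : List (Fin 3)) (P : List (Fin 3) → Prop) (h0 : P w)
    (h : ∀ k < w.length, P (w.rotate k)) : P (canon w) := by
  unfold canon
  have key : ∀ (l : List ℕ), (∀ k ∈ l, k < w.length) → ∀ b, P b →
      P (l.foldl (fun best k => if code (w.rotate k) < code best then w.rotate k else best) b) := by
    intro l
    induction l with
    | nil => intro _ b hb; exact hb
    | cons k l ih =>
      intro hl b hb
      rw [List.foldl_cons]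
      refine ih (fun x hx => hl x (List.mem_cons_of_mem _ hx)) _ ?_
      split_ifs
      · exact h k (hl k List.mem_cons_self)
      · exact hb
  exact key _ (fun k hk => List.mem_range.mp hk) w h0

theorem canon_length (w : List (Fin 3)) : (canon w).length = w.length :=
  canon_prop w (fun v => v.length = w.length) rfl (fun k _ => List.length_rotate w k)

theorem canon_inv {V : Type*} (φ : List (Fin 3) → V) (hrot : ∀ a b, φ (a ++ b) = φ (b ++ a))
    (w : List (Fin 3)) : φ (canon w) = φ w := by
  refine canon_prop w (fun v => φ v = φ w) rfl (fun k hk => ?_)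
  rw [List.rotate_eq_drop_append_take hk.le, hrot, List.take_append_drop]

/-- Inverse of `code` on words of a given length. -/
def dec : ℕ → ℕ → List (Fin 3)
  | 0, _ => []
  | n + 1, c => dec n (c / 3) ++ [Fin.ofNat 3 (c % 3)]

theorem code_concat (l : List (Fin 3)) (i : Fin 3) : code (l ++ [i]) = 3 * code l + i.val := by
  unfold code
  rw [List.foldl_append]
  rfl

theorem dec_code (v : List (Fin 3)) : dec v.length (code v) = v := by
  induction v using List.reverseRecOn with
  | nil => rfl
  | append_singleton l i ih =>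
    rw [List.length_append, List.length_singleton, code_concat]
    unfold dec
    have hi := i.isLt
    have h1 : (3 * code l + i.val) / 3 = code l := by omega
    have h2 : (3 * code l + i.val) % 3 = i.val := by omega
    rw [h1, h2, ih]
    congr 2
    exact Fin.ext (Nat.mod_eq_of_lt hi)

/-- Key of a word. -/
def key (w : List (Fin 3)) : ℕ := code (canon w)

theorem phi_key {V : Type*} (φ : List (Fin 3) → V) (hrot : ∀ a b, φ (a ++ b) = φ (b ++ a))
    (n : ℕ) (w : List (Fin 3)) (hw : w.length = n) : φ (dec n (key w)) = φ w := by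
  rw [← canon_inv φ hrot w, ← hw, ← canon_length w]
  unfold key
  rw [dec_code]

/-- The keys of a rule. -/
def ruleKeys (e : Rule) : List (ℤ × ℕ) :=
  (-(e.2.1 : ℤ), key (wd e.1)) ::
  (e.2.2.1.map (fun x => (x.1, key (wd x.2))) ++
   e.2.2.2.flatMap (fun x =>
    [(x.1, key (wd x.2.1 ++ wd x.2.2.1 ++ wd x.2.2.2.1 ++ wd x.2.2.2.2)),
     (x.1, key (wd x.2.1 ++ wd x.2.2.2.1 ++ wd x.2.2.1 ++ wd x.2.2.2.2)),
     (x.1, key (wd x.2.2.1 ++ wd x.2.1 ++ wd x.2.2.2.1 ++ wd x.2.2.2.2)),
     (x.1, key (wd x.2.2.1 ++ wd x.2.2.2.1 ++ wd x.2.1 ++ wd x.2.2.2.2)),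
     (x.1, key (wd x.2.2.2.1 ++ wd x.2.1 ++ wd x.2.2.1 ++ wd x.2.2.2.2)),
     (x.1, key (wd x.2.2.2.1 ++ wd x.2.2.1 ++ wd x.2.1 ++ wd x.2.2.2.2))]))

/-- Shape check of a rule. -/
def ruleOK (e : Rule) : Bool :=
  (!(Nat.beq e.2.1 0)) && (Nat.ble (wd e.1).length 6 &&
  (e.2.2.1.all (fun x => Nat.beq (wd x.2).length (wd e.1).length && genList.elem (wd x.2)) &&
  (e.2.2.2.all (fun x => !(wd x.2.1).isEmpty && (!(wd x.2.2.1).isEmpty && (!(wd x.2.2.2.1).isEmpty
    && (!(wd x.2.2.2.2).isEmpty && Nat.beq ((wd x.2.1).length + (wd x.2.2.1).length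
      + (wd x.2.2.2.1).length + (wd x.2.2.2.2).length) (wd e.1).length)))) &&
   allZero (ruleKeys e))))

set_option maxRecDepth 100000 in
theorem rules1_ok : rules1.all ruleOK = true := by decide +kernel
set_option maxRecDepth 100000 in
theorem rules2_ok : rules2.all ruleOK = true := by decide +kernel
set_option maxRecDepth 100000 in
theorem rules3_ok : rules3.all ruleOK = true := by decide +kernel
set_option maxRecDepth 100000 in
theorem rules4_ok : rules4.all ruleOK = true := by decide +kernel
set_option maxRecDepth 100000 in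
theorem rules5_ok : rules5.all ruleOK = true := by decide +kernel
set_option maxRecDepth 100000 in
theorem rules6_ok : rules6.all ruleOK = true := by decide +kernel
set_option maxRecDepth 100000 in
theorem rules7_ok : rules7.all ruleOK = true := by decide +kernel
set_option maxRecDepth 100000 in
theorem rules8_ok : rules8.all ruleOK = true := by decide +kernel

theorem rules_ok : rules.all ruleOK = true := by
  unfold rules
  simp only [List.all_append, rules1_ok, rules2_ok, rules3_ok, rules4_ok, rules5_ok, rules6_ok,
    rules7_ok, rules8_ok, Bool.and_self]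

/-- The sum over the six orders with a common last factor. -/
def sixE {V : Type*} [AddCommGroup V] (φ : List (Fin 3) → V) (p q r s : List (Fin 3)) : V :=
  φ (p ++ q ++ r ++ s) + φ (p ++ r ++ q ++ s) + φ (q ++ p ++ r ++ s)
    + φ (q ++ r ++ p ++ s) + φ (r ++ p ++ q ++ s) + φ (r ++ q ++ p ++ s)

/-- The identity encoded by a rule. -/
theorem rule_sum {V : Type*} [AddCommGroup V] (φ : List (Fin 3) → V)
    (hrot : ∀ a b, φ (a ++ b) = φ (b ++ a)) (e : Rule) (he : e ∈ rules) :
    (e.2.1 : ℤ) • φ (wd e.1) = (e.2.2.1.map (fun x => x.1 • φ (wd x.2))).sum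
      + (e.2.2.2.map (fun x => x.1 • sixE φ (wd x.2.1) (wd x.2.2.1) (wd x.2.2.2.1)
        (wd x.2.2.2.2))).sum := by
  have h := List.all_eq_true.mp rules_ok e he
  unfold ruleOK at h
  simp only [Bool.and_eq_true] at h
  obtain ⟨-, -, hg, hl, hz⟩ := h
  have hs := comb_zero _ hz (fun k => φ (dec (wd e.1).length k))
  unfold ruleKeys at hs
  rw [List.map_cons, List.sum_cons, List.map_append, List.sum_append, List.map_map] at hs
  simp only [] at hs
  rw [phi_key φ hrot _ _ rfl] at hs
  have h1 : (e.2.2.1.map ((fun x : ℤ × ℕ => x.1 • φ (dec (wd e.1).length x.2)) ∘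
      (fun x => (x.1, key (wd x.2))))).sum = (e.2.2.1.map (fun x => x.1 • φ (wd x.2))).sum := by
    congr 1
    refine List.map_congr_left (fun x hx => ?_)
    have hx' := List.all_eq_true.mp hg x hx
    rw [Bool.and_eq_true] at hx'
    have hlen := Nat.eq_of_beq_eq_true hx'.1
    simp only [Function.comp_apply]
    rw [phi_key φ hrot _ _ hlen]
  rw [h1] at hs
  have h2 : ∀ (L : List (ℤ × ℕ × ℕ × ℕ × ℕ)), L.all (fun x => !(wd x.2.1).isEmpty &&
      (!(wd x.2.2.1).isEmpty && (!(wd x.2.2.2.1).isEmpty
      && (!(wd x.2.2.2.2).isEmpty && Nat.beq ((wd x.2.1).length + (wd x.2.2.1).length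
      + (wd x.2.2.2.1).length + (wd x.2.2.2.2).length) (wd e.1).length)))) = true →
      ((L.flatMap (fun x =>
    [(x.1, key (wd x.2.1 ++ wd x.2.2.1 ++ wd x.2.2.2.1 ++ wd x.2.2.2.2)),
     (x.1, key (wd x.2.1 ++ wd x.2.2.2.1 ++ wd x.2.2.1 ++ wd x.2.2.2.2)),
     (x.1, key (wd x.2.2.1 ++ wd x.2.1 ++ wd x.2.2.2.1 ++ wd x.2.2.2.2)),
     (x.1, key (wd x.2.2.1 ++ wd x.2.2.2.1 ++ wd x.2.1 ++ wd x.2.2.2.2)),
     (x.1, key (wd x.2.2.2.1 ++ wd x.2.1 ++ wd x.2.2.1 ++ wd x.2.2.2.2)),
     (x.1, key (wd x.2.2.2.1 ++ wd x.2.2.1 ++ wd x.2.1 ++ wd x.2.2.2.2))])).map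
        (fun x : ℤ × ℕ => x.1 • φ (dec (wd e.1).length x.2))).sum
      = (L.map (fun x => x.1 • sixE φ (wd x.2.1) (wd x.2.2.1) (wd x.2.2.2.1)
        (wd x.2.2.2.2))).sum := by
    intro L hL
    induction L with
    | nil => rfl
    | cons x L ih =>
      rw [List.all_cons, Bool.and_eq_true] at hL
      rw [List.flatMap_cons, List.map_append, List.sum_append, ih hL.2, List.map_cons,
        List.sum_cons]
      congr 1
      have hx := hL.1
      simp only [Bool.and_eq_true] at hx
      have hlen := Nat.eq_of_beq_eq_true hx.2.2.2.2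
      simp only [List.map_cons, List.map_nil, List.sum_cons, List.sum_nil, add_zero]
      rw [phi_key φ hrot _ _ (by simp only [List.length_append]; omega),
        phi_key φ hrot _ _ (by simp only [List.length_append]; omega),
        phi_key φ hrot _ _ (by simp only [List.length_append]; omega),
        phi_key φ hrot _ _ (by simp only [List.length_append]; omega),
        phi_key φ hrot _ _ (by simp only [List.length_append]; omega),
        phi_key φ hrot _ _ (by simp only [List.length_append]; omega)]
      unfold sixE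
      simp only [smul_add]
      abel
  rw [h2 _ hl, neg_smul] at hs
  exact neg_add_eq_zero.mp hs

/-- All words of a given length. -/
def allWords : ℕ → List (List (Fin 3))
  | 0 => [[]]
  | n + 1 => (allWords n).flatMap (fun w => [0 :: w, 1 :: w, 2 :: w])

theorem mem_allWords (w : List (Fin 3)) : w ∈ allWords w.length := by
  induction w with
  | nil => exact List.mem_singleton.mpr rfl
  | cons a w ih =>
    rw [List.length_cons]
    unfold allWords
    rw [List.mem_flatMap]
    refine ⟨w, ih, ?_⟩
    fin_cases a <;> simp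

/-- The least rotation of a word of length at most six is treated by the reduction. -/
def complete (w : List (Fin 3)) : Bool :=
  (fun v : List (Fin 3) => v.isEmpty || (genList.elem v ||
    ((Nat.beq v.length 3 && (v == List.replicate 3 (v.getD 0 0))) ||
      (rules.find? (fun e => wd e.1 = v)).isSome))) (canon w)

set_option maxRecDepth 100000 in
theorem complete0 : ∀ w ∈ allWords 0, complete w = true := by decide +kernel
set_option maxRecDepth 100000 in
theorem complete1 : ∀ w ∈ allWords 1, complete w = true := by decide +kernel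
set_option maxRecDepth 100000 in
theorem complete2 : ∀ w ∈ allWords 2, complete w = true := by decide +kernel
set_option maxRecDepth 100000 in
theorem complete3 : ∀ w ∈ allWords 3, complete w = true := by decide +kernel
set_option maxRecDepth 100000 in
theorem complete4 : ∀ w ∈ allWords 4, complete w = true := by decide +kernel
set_option maxRecDepth 100000 in
theorem complete5 : ∀ w ∈ allWords 5, complete w = true := by decide +kernel
set_option maxRecDepth 100000 in
theorem complete6 : ∀ w ∈ allWords 6, complete w = true := by decide +kernel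

theorem complete_all (w : List (Fin 3)) (hw : w.length ≤ 6) : complete w = true := by
  have h := mem_allWords w
  generalize hn : w.length = n at h hw
  interval_cases n
  · exact complete0 w h
  · exact complete1 w h
  · exact complete2 w h
  · exact complete3 w h
  · exact complete4 w h
  · exact complete5 w h
  · exact complete6 w h

end Pool.Agent.H20.TR
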