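import Pool.Agent.H20.TR.ModH2

set_option autoImplicit false

namespace Pool.Agent.H20.TR

open FreeMonoid

attribute [local irreducible] rules win01 win45 win05 win04 win15 win14

/-- Facts about the rule found for a word. -/
theorem find_rule (v : List (Fin 3)) (e : Rule) (h : rules.find? (fun e => wd e.1 = v) = some e) :
    e ∈ rules ∧ wd e.1 = v := by
  refine ⟨List.mem_of_find?_eq_some h, ?_⟩
  have := List.find?_some h
  exact of_decide_eq_true this

theorem rule_shape (e : Rule) (he : e ∈ rules) :
    e.2.1 ≠ 0 ∧ (wd e.1).length ≤ 6 ∧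
    (∀ x ∈ e.2.2.1, (wd x.2).length = (wd e.1).length ∧ wd x.2 ∈ genList) ∧
    (∀ x ∈ e.2.2.2, wd x.2.1 ≠ [] ∧ wd x.2.2.1 ≠ [] ∧ wd x.2.2.2.1 ≠ [] ∧ wd x.2.2.2.2 ≠ [] ∧
      (wd x.2.1).length + (wd x.2.2.1).length + (wd x.2.2.2.1).length + (wd x.2.2.2.2).length
        = (wd e.1).length) := by
  have h := List.all_eq_true.mp rules_ok e he
  unfold ruleOK at h
  simp only [Bool.and_eq_true] at h
  obtain ⟨h0, h1, hg, hl, -⟩ := h
  refine ⟨?_, Nat.le_of_ble_eq_true h1, ?_, ?_⟩
  · intro h
    rw [h] at h0
    exact absurd h0 (by decide)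
  · intro x hx
    have := List.all_eq_true.mp hg x hx
    rw [Bool.and_eq_true] at this
    exact ⟨Nat.eq_of_beq_eq_true this.1, List.elem_iff.mp this.2⟩
  · intro x hx
    have := List.all_eq_true.mp hl x hx
    simp only [Bool.and_eq_true, Bool.not_eq_true', List.isEmpty_eq_false_iff] at this
    obtain ⟨a1, a2, a3, a4, a5⟩ := this
    exact ⟨a1, a2, a3, a4, Nat.eq_of_beq_eq_true a5⟩

theorem low_congr (f g : FreeMonoid (Fin 3) → MvPolynomial (Fin 45) ℂ)
    (p q r s : List (Fin 3)) (hp : p ≠ []) (hq : q ≠ []) (hr : r ≠ []) (hs : s ≠ [])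
    (h : ∀ v : FreeMonoid (Fin 3), v.length < p.length + q.length + r.length + s.length →
      f v = g v) : lowL f p q r s = lowL g p q r s := by
  have lp := List.length_pos_iff.mpr hp
  have lq := List.length_pos_iff.mpr hq
  have lr := List.length_pos_iff.mpr hr
  have ls := List.length_pos_iff.mpr hs
  have hl : ∀ l : List (Fin 3), (ofList l).length = l.length := fun l => rfl
  unfold lowL low
  rw [h (ofList p) (by rw [hl]; omega), h (ofList q) (by rw [hl]; omega),
    h (ofList r) (by rw [hl]; omega), h (ofList s) (by rw [hl]; omega),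
    h (ofList q * ofList r * ofList s) (by simp only [length_mul, hl]; omega),
    h (ofList r * ofList q * ofList s) (by simp only [length_mul, hl]; omega),
    h (ofList p * ofList r * ofList s) (by simp only [length_mul, hl]; omega),
    h (ofList r * ofList p * ofList s) (by simp only [length_mul, hl]; omega),
    h (ofList p * ofList q * ofList s) (by simp only [length_mul, hl]; omega),
    h (ofList q * ofList p * ofList s) (by simp only [length_mul, hl]; omega),
    h (ofList p * ofList q * ofList r) (by simp only [length_mul, hl]; omega),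
    h (ofList p * ofList r * ofList q) (by simp only [length_mul, hl]; omega),
    h (ofList p * ofList q) (by simp only [length_mul, hl]; omega),
    h (ofList p * ofList r) (by simp only [length_mul, hl]; omega),
    h (ofList q * ofList r) (by simp only [length_mul, hl]; omega),
    h (ofList r * ofList s) (by simp only [length_mul, hl]; omega),
    h (ofList q * ofList s) (by simp only [length_mul, hl]; omega),
    h (ofList p * ofList s) (by simp only [length_mul, hl]; omega)]

theorem short_congr (f g : FreeMonoid (Fin 3) → MvPolynomial (Fin 45) ℂ) (w : List (Fin 3))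
    (h : ∀ v : FreeMonoid (Fin 3), v.length < w.length → f v = g v) :
    short f w = short g w := by
  unfold short
  split_ifs with h1 h2 h3
  · rfl
  · rfl
  · rfl
  · cases hf : rules.find? (fun e => wd e.1 = w) with
    | none => rfl
    | some e =>
      obtain ⟨he, hw⟩ := find_rule w e hf
      obtain ⟨-, -, -, hl⟩ := rule_shape e he
      have key : e.2.2.2.map (fun x => x.1 • lowL f (wd x.2.1) (wd x.2.2.1) (wd x.2.2.2.1)
            (wd x.2.2.2.2)) = e.2.2.2.map (fun x => x.1 • lowL g (wd x.2.1) (wd x.2.2.1)
            (wd x.2.2.2.1) (wd x.2.2.2.2)) := by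
        refine List.map_congr_left (fun x hx => ?_)
        obtain ⟨a1, a2, a3, a4, a5⟩ := hl x hx
        rw [low_congr f g _ _ _ _ a1 a2 a3 a4 (fun v hv => h v (by rw [← hw]; omega))]
      dsimp only
      rw [key]

theorem long_congr (f g : FreeMonoid (Fin 3) → MvPolynomial (Fin 45) ℂ) (w : List (Fin 3))
    (hw : 6 < w.length)
    (h : ∀ v : FreeMonoid (Fin 3), v.length < w.length → f v = g v) :
    long f w = long g w := by
  unfold long
  refine congrArg List.sum (List.map_congr_left (fun x hx => ?_))
  obtain ⟨a1, a2, a3, a4⟩ := win_len _ x hx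
  rw [low_congr f g _ _ _ _ a1 a2 a3]
  · intro h0
    have := congrArg List.length h0
    simp only [List.length_append, List.length_drop, List.length_nil] at this
    omega
  · intro v hv
    refine h v ?_
    simp only [List.length_append, List.length_drop] at hv
    omega

theorem step_congr (f g : FreeMonoid (Fin 3) → MvPolynomial (Fin 45) ℂ) (w : FreeMonoid (Fin 3))
    (h : ∀ v : FreeMonoid (Fin 3), v.length < w.length → f v = g v) :
    step f w = step g w := by
  unfold step
  split_ifs with h1
  · exact short_congr f g _ (fun v hv => h v (by rw [canon_length] at hv; exact hv))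
  · exact long_congr f g _ (by change 6 < w.length; omega) h

theorem iter_stable (n m : ℕ) (w : FreeMonoid (Fin 3)) (hn : w.length < n) (hm : w.length < m) :
    (step^[n] (fun _ => 0)) w = (step^[m] (fun _ => 0)) w := by
  induction n generalizing m w with
  | zero => omega
  | succ n ih =>
    obtain ⟨m, rfl⟩ : ∃ k, m = k + 1 := ⟨m - 1, by omega⟩
    rw [Function.iterate_succ_apply', Function.iterate_succ_apply']
    exact step_congr _ _ _ (fun v hv => ih m v (by omega) (by omega))

theorem rho_eq (w : FreeMonoid (Fin 3)) : rho w = step rho w := by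
  conv_lhs => unfold rho
  rw [Function.iterate_succ_apply']
  refine step_congr _ _ _ (fun v hv => ?_)
  unfold rho
  exact iter_stable _ _ _ hv (by omega)

end Pool.Agent.H20.TR
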