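import Pool.Agent.H20.TR.ModH3
import Pool.Agent.H20.TR.ModC
import Pool.Agent.H20.TR.ModB

set_option autoImplicit false

namespace Pool.Agent.H20.TR

open FreeMonoid

/-! ### Kernel checks on the generator words -/

set_option maxRecDepth 100000 in
theorem gen_canon : genList.all (fun g => canon g == g && (!g.isEmpty && Nat.ble g.length 6)) = true := by
  decide +kernel

set_option maxRecDepth 100000 in
theorem gen_idx : genList.all (fun g => genList.getD (Fin.ofNat 45 (genList.idxOf g)).val [] == g)
    = true := by decide +kernel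

set_option maxRecDepth 100000 in
theorem gen_idx' : (List.finRange 45).all (fun i =>
    Fin.ofNat 45 (genList.idxOf (genList.getD i.val [])) == i && genList.elem (genList.getD i.val []))
    = true := by decide +kernel

set_option maxRecDepth 100000 in
theorem cube3 : (allWords 3).all (fun w => genList.elem (canon w) ||
    (genList.elem [(canon w).getD 0 0] && (genList.elem [(canon w).getD 0 0, (canon w).getD 0 0] &&
    canon w == [(canon w).getD 0 0, (canon w).getD 0 0, (canon w).getD 0 0]))) = true := by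
  decide +kernel

set_option maxRecDepth 100000 in
theorem cube_canon : (List.finRange 3).all (fun x => canon [x, x, x] == [x, x, x] &&
    (!(genList.elem [x, x, x]) && (genList.elem [x] && genList.elem [x, x]))) = true := by
  decide +kernel

attribute [local irreducible] rules win01 win45 win05 win04 win15 win14 genList

theorem mem_gen (g : List (Fin 3)) (hg : g ∈ genList) :
    canon g = g ∧ g ≠ [] ∧ g.length ≤ 6 := by
  have := List.all_eq_true.mp gen_canon g hg
  simp only [Bool.and_eq_true, beq_iff_eq, Bool.not_eq_true', List.isEmpty_eq_false_iff] at this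
  exact ⟨this.1, this.2.1, Nat.le_of_ble_eq_true this.2.2⟩

theorem gen_gvar (g : List (Fin 3)) (hg : g ∈ genList) :
    gen (Fin.ofNat 45 (genList.idxOf g)) = ofList g := by
  have := List.all_eq_true.mp gen_idx g hg
  rw [beq_iff_eq] at this
  unfold gen
  rw [this]

theorem gen_fact (i : Fin 45) : genList.getD i.val [] ∈ genList ∧
    Fin.ofNat 45 (genList.idxOf (genList.getD i.val [])) = i := by
  have := List.all_eq_true.mp gen_idx' i (List.mem_finRange i)
  rw [Bool.and_eq_true, beq_iff_eq] at this
  exact ⟨List.elem_iff.mp this.2, this.1⟩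

theorem gen_length (i : Fin 45) : (gen i).length ≤ 6 ∧ gen i ≠ 1 := by
  obtain ⟨h, -⟩ := gen_fact i
  obtain ⟨-, h2, h3⟩ := mem_gen _ h
  exact ⟨h3, h2⟩

theorem rho_one : rho 1 = 3 := by
  rw [rho_eq]
  rfl

theorem rho_gen_list (g : List (Fin 3)) (hg : g ∈ genList) : rho (ofList g) = gvar g := by
  obtain ⟨h1, h2, h3⟩ := mem_gen g hg
  rw [rho_eq]
  unfold step
  rw [if_pos (show (ofList g).length ≤ 6 from h3)]
  change short rho (canon g) = _
  rw [h1]
  unfold short
  rw [if_neg h2, if_pos hg]

theorem rho_gen (i : Fin 45) : rho (gen i) = MvPolynomial.X i := by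
  obtain ⟨h, h'⟩ := gen_fact i
  unfold gen
  rw [rho_gen_list _ h]
  unfold gvar
  rw [h']

theorem rho_cube (x : Fin 3) : rho (of x * of x * of x) =
    (-(1 / 2 : ℚ)) • rho (of x) ^ 3 + (3 / 2 : ℚ) • (rho (of x) * rho (of x * of x)) + 3 := by
  have := List.all_eq_true.mp cube_canon x (List.mem_finRange x)
  simp only [Bool.and_eq_true, beq_iff_eq, Bool.not_eq_true'] at this
  obtain ⟨h1, h2, h3, h4⟩ := this
  have h2' : [x, x, x] ∉ genList := by
    intro h
    rw [List.elem_iff.mpr h] at h2
    exact absurd h2 (by decide)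
  have h3' : [x] ∈ genList := List.elem_iff.mp h3
  have h4' : [x, x] ∈ genList := List.elem_iff.mp h4
  have e1 : rho (of x) = gvar [x] := rho_gen_list [x] h3'
  have e2 : rho (of x * of x) = gvar [x, x] := rho_gen_list [x, x] h4'
  rw [e1, e2, rho_eq]
  unfold step
  rw [if_pos (show (of x * of x * of x).length ≤ 6 by simp)]
  change short rho (canon [x, x, x]) = _
  rw [h1]
  unfold short
  rw [if_neg (by simp), if_neg h2', if_pos (by rfl)]
  rfl

/-! ### The trace of matrices is a pseudo-character -/

theorem modH_A_trace (w : Fin 4 → Matrix (Fin 3) (Fin 3) ℂ) :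
    modC_A (Matrix.trace (R := ℂ) (n := Fin 3)) 4 w = 0 := by
  unfold modC_A
  have h : ∀ π : Equiv.Perm (Fin 4), (Equiv.Perm.sign π : ℤ) •
      T (Matrix.trace (R := ℂ) (n := Fin 3)) 4 π w
      = ∑ f : Fin 4 → Fin 3, (Equiv.Perm.sign π : ℤ) • ∏ i, w i (f i) (f (π i)) := by
    intro π
    rw [T_trace, Finset.smul_sum]
  rw [Finset.sum_congr rfl (fun π _ => h π), Finset.sum_comm]
  refine Finset.sum_eq_zero (fun f _ => ?_)
  obtain ⟨i, j, hij, hf⟩ : ∃ i j : Fin 4, i ≠ j ∧ f i = f j := by
    have := Fintype.exists_ne_map_eq_of_card_lt f (by simp)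
    obtain ⟨i, j, h1, h2⟩ := this
    exact ⟨i, j, h1, h2⟩
  have hd : Matrix.det (Matrix.of (fun a b : Fin 4 => w a (f a) (f b))) = 0 :=
    Matrix.det_zero_of_column_eq hij (fun k => by simp [hf])
  rw [← Matrix.det_transpose, Matrix.det_apply] at hd
  rw [← hd]
  refine Finset.sum_congr rfl (fun π _ => ?_)
  rfl

theorem trace_fund (p q r s : Matrix (Fin 3) (Fin 3) ℂ) :
    fund (Matrix.trace (R := ℂ) (n := Fin 3)) p q r s = 0 := by
  have h := modH_A_trace ![p, q, r, s]
  have h1 : Matrix.trace (q * (p * r)) = Matrix.trace (p * r * q) := Matrix.trace_mul_comm _ _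
  simp only [modC_A_succ, modC_A_zero, Fin.sum_univ_succ, Fin.sum_univ_zero, Function.update] at h
  simp [Fin.ext_iff] at h
  simp only [fund, low]
  simp only [mul_assoc] at h h1 ⊢
  linear_combination -h + Matrix.trace s * h1

theorem fund_map {M N B : Type*} [Monoid M] [Monoid N] [CommRing B] (φ : M →* N) (t : N → B)
    (p q r s : M) : fund (fun m => t (φ m)) p q r s = fund t (φ p) (φ q) (φ r) (φ s) := by
  simp only [fund, low, map_mul]

theorem isPC_trace (A : Fin 3 → Matrix (Fin 3) (Fin 3) ℂ) :
    IsPC (fun w : FreeMonoid (Fin 3) => Matrix.trace (FreeMonoid.lift A w)) := by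
  refine ⟨?_, ?_, ?_⟩
  · simp
  · intro a b
    simp only [map_mul]
    exact Matrix.trace_mul_comm _ _
  · intro p q r s
    exact (fund_map (FreeMonoid.lift A) Matrix.trace p q r s).trans (trace_fund _ _ _ _)

theorem trace_hdet (A : Fin 3 → Matrix.SpecialLinearGroup (Fin 3) ℂ) (x : Fin 3) :
    (fun w : FreeMonoid (Fin 3) => Matrix.trace (FreeMonoid.lift
      (fun x => (A x : Matrix (Fin 3) (Fin 3) ℂ)) w)) (of x) ^ 3
    - 3 * (fun w : FreeMonoid (Fin 3) => Matrix.trace (FreeMonoid.lift
      (fun x => (A x : Matrix (Fin 3) (Fin 3) ℂ)) w)) (of x)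
      * (fun w : FreeMonoid (Fin 3) => Matrix.trace (FreeMonoid.lift
      (fun x => (A x : Matrix (Fin 3) (Fin 3) ℂ)) w)) (of x * of x)
    + 2 * (fun w : FreeMonoid (Fin 3) => Matrix.trace (FreeMonoid.lift
      (fun x => (A x : Matrix (Fin 3) (Fin 3) ℂ)) w)) (of x * of x * of x) = 6 := by
  have hd := (A x).det_coe
  rw [Matrix.det_fin_three] at hd
  simp only [map_mul, FreeMonoid.lift_eval_of]
  simp only [Matrix.trace_fin_three, Matrix.mul_apply, Fin.sum_univ_three]
  linear_combination 6 * hd

end Pool.Agent.H20.TR
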