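import Pool.Agent.H20.TR.ModH4
import Pool.Agent.H20.TR.ModF
import Pool.Agent.H20.TR.ModG

set_option autoImplicit false

namespace Pool.Agent.H20.TR

open FreeMonoid

attribute [local irreducible] rules win01 win45 win05 win04 win15 win14 genList

section eval

variable (t : FreeMonoid (Fin 3) → ℂ) (ht : IsPC t)

/-- The evaluation of polynomials at the values of `t` on the generator words. -/
noncomputable def ev (t : FreeMonoid (Fin 3) → ℂ) : MvPolynomial (Fin 45) ℂ →ₐ[ℂ] ℂ :=
  MvPolynomial.aeval (fun i => t (gen i))

theorem ev_gvar (g : List (Fin 3)) (hg : g ∈ genList) : ev t (gvar g) = t (ofList g) := by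
  unfold ev gvar
  rw [MvPolynomial.aeval_X, gen_gvar g hg]

theorem ev_low (f : FreeMonoid (Fin 3) → MvPolynomial (Fin 45) ℂ) (n : ℕ)
    (hf : ∀ v : FreeMonoid (Fin 3), v.length < n → ev t (f v) = t v)
    (p q r s : List (Fin 3)) (hp : p ≠ []) (hq : q ≠ []) (hr : r ≠ []) (hs : s ≠ [])
    (hn : p.length + q.length + r.length + s.length ≤ n) :
    ev t (lowL f p q r s) = low t (ofList p) (ofList q) (ofList r) (ofList s) := by
  have lp := List.length_pos_iff.mpr hp
  have lq := List.length_pos_iff.mpr hq
  have lr := List.length_pos_iff.mpr hr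
  have ls := List.length_pos_iff.mpr hs
  have hl : ∀ l : List (Fin 3), (ofList l).length = l.length := fun l => rfl
  unfold lowL low
  simp only [map_add, map_sub, map_mul]
  rw [hf (ofList p) (by rw [hl]; omega), hf (ofList q) (by rw [hl]; omega),
    hf (ofList r) (by rw [hl]; omega), hf (ofList s) (by rw [hl]; omega),
    hf (ofList q * ofList r * ofList s) (by simp only [length_mul, hl]; omega),
    hf (ofList r * ofList q * ofList s) (by simp only [length_mul, hl]; omega),
    hf (ofList p * ofList r * ofList s) (by simp only [length_mul, hl]; omega),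
    hf (ofList r * ofList p * ofList s) (by simp only [length_mul, hl]; omega),
    hf (ofList p * ofList q * ofList s) (by simp only [length_mul, hl]; omega),
    hf (ofList q * ofList p * ofList s) (by simp only [length_mul, hl]; omega),
    hf (ofList p * ofList q * ofList r) (by simp only [length_mul, hl]; omega),
    hf (ofList p * ofList r * ofList q) (by simp only [length_mul, hl]; omega),
    hf (ofList p * ofList q) (by simp only [length_mul, hl]; omega),
    hf (ofList p * ofList r) (by simp only [length_mul, hl]; omega),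
    hf (ofList q * ofList r) (by simp only [length_mul, hl]; omega),
    hf (ofList r * ofList s) (by simp only [length_mul, hl]; omega),
    hf (ofList q * ofList s) (by simp only [length_mul, hl]; omega),
    hf (ofList p * ofList s) (by simp only [length_mul, hl]; omega)]

include ht in
theorem low_six (p q r s : List (Fin 3)) :
    low t (ofList p) (ofList q) (ofList r) (ofList s)
      = sixE (fun l => t (ofList l)) p q r s := by
  have h := ht.fund (ofList p) (ofList q) (ofList r) (ofList s)
  unfold fund at h
  exact (sub_eq_zero.mp h).symm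

include ht in
theorem ev_short (f : FreeMonoid (Fin 3) → MvPolynomial (Fin 45) ℂ) (w : List (Fin 3))
    (hw : w.length ≤ 6) (hdet : ∀ x : Fin 3, t (of x) ^ 3 - 3 * t (of x) * t (of x * of x)
      + 2 * t (of x * of x * of x) = 6)
    (hf : ∀ v : FreeMonoid (Fin 3), v.length < w.length → ev t (f v) = t v) :
    ev t (short f (canon w)) = t (ofList w) := by
  have hrot : ∀ a b : List (Fin 3), (fun l => t (ofList l)) (a ++ b)
      = (fun l => t (ofList l)) (b ++ a) := fun a b => ht.cyc (ofList a) (ofList b)
  have hcan : t (ofList (canon w)) = t (ofList w) := canon_inv (fun l => t (ofList l)) hrot w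
  rw [← hcan]
  have hc := complete_all w hw
  have hlen := canon_length w
  unfold short
  split_ifs with h1 h2 h3
  · rw [h1]
    rw [map_ofNat]
    exact ht.one.symm
  · exact ev_gvar t _ h2
  · -- the cube of a letter
    have h3' : w.length = 3 := by omega
    have hm := mem_allWords w
    rw [h3'] at hm
    have h4 := List.all_eq_true.mp cube3 w hm
    rw [Bool.or_eq_true] at h4
    rcases h4 with h4 | h4
    · exact absurd (List.elem_iff.mp h4) h2
    · simp only [Bool.and_eq_true, beq_iff_eq] at h4
      obtain ⟨h5, h6, h7⟩ := h4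
      have h5' := List.elem_iff.mp h5
      have h6' := List.elem_iff.mp h6
      generalize (canon w).getD 0 0 = x at h5' h6' h7
      rw [h7]
      change ev t ((-(1 / 2 : ℚ)) • gvar [x] ^ 3 + (3 / 2 : ℚ) • (gvar [x] * gvar [x, x]) + 3) = _
      rw [map_add, map_add, map_rat_smul, map_rat_smul, map_pow, map_mul, ev_gvar t _ h5',
        ev_gvar t _ h6', map_ofNat]
      have hd := hdet x
      have e3 : t (ofList [x, x, x]) = t (of x * of x * of x) := rfl
      have e2 : t (ofList [x, x]) = t (of x * of x) := rfl
      have e1 : t (ofList [x]) = t (of x) := rfl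
      rw [e1, e2, e3]
      simp only [Rat.smul_def]
      push_cast
      linear_combination (-(1 / 2 : ℂ)) * hd
  · unfold complete at hc
    rw [Bool.or_eq_true, Bool.or_eq_true, Bool.or_eq_true, Bool.and_eq_true] at hc
    rcases hc with hc | hc | hc | hc
    · exact absurd (List.isEmpty_iff.mp hc) h1
    · exact absurd (List.elem_iff.mp hc) h2
    · exact absurd (Nat.eq_of_beq_eq_true hc.1) h3
    · cases hfi : rules.find? (fun e => wd e.1 = canon w) with
      | none => rw [hfi] at hc; exact absurd hc (by decide)
      | some e =>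
        obtain ⟨he, hew⟩ := find_rule _ e hfi
        obtain ⟨hD, -, hg, hl⟩ := rule_shape e he
        have hr := rule_sum (fun l => t (ofList l)) hrot e he
        dsimp only
        rw [map_rat_smul, map_add, map_list_sum, map_list_sum, List.map_map, List.map_map]
        have k1 : e.2.2.1.map ((ev t) ∘ (fun x => x.1 • gvar (wd x.2)))
            = e.2.2.1.map (fun x => x.1 • t (ofList (wd x.2))) := by
          refine List.map_congr_left (fun x hx => ?_)
          rw [Function.comp_apply, map_zsmul, ev_gvar t _ (hg x hx).2]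
        have k2 : e.2.2.2.map ((ev t) ∘ (fun x => x.1 • lowL f (wd x.2.1) (wd x.2.2.1)
            (wd x.2.2.2.1) (wd x.2.2.2.2)))
            = e.2.2.2.map (fun x => x.1 • sixE (fun l => t (ofList l)) (wd x.2.1) (wd x.2.2.1)
              (wd x.2.2.2.1) (wd x.2.2.2.2)) := by
          refine List.map_congr_left (fun x hx => ?_)
          obtain ⟨a1, a2, a3, a4, a5⟩ := hl x hx
          rw [Function.comp_apply, map_zsmul, ev_low t f w.length hf _ _ _ _ a1 a2 a3 a4
            (by rw [a5, hew, hlen]), low_six t ht]
        rw [k1, k2, ← hr, ← Int.cast_smul_eq_zsmul ℚ, smul_smul, hew]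
        have hD' : (e.2.1 : ℚ) ≠ 0 := by exact_mod_cast hD
        rw [Int.cast_natCast, one_div, inv_mul_cancel₀ hD', one_smul]

include ht in
theorem ev_long (f : FreeMonoid (Fin 3) → MvPolynomial (Fin 45) ℂ) (w : List (Fin 3))
    (hw : 6 < w.length) 
    (hf : ∀ v : FreeMonoid (Fin 3), v.length < w.length → ev t (f v) = t v) :
    ev t (long f w) = t (ofList w) := by
  unfold long
  have h := win_spec (w.take 6) (by rw [List.length_take]; omega)
    (fun l => t (ofList (l ++ w.drop 6)))
  have h0 : t (ofList w) = t (ofList (w.take 6 ++ w.drop 6)) := by rw [List.take_append_drop]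
  rw [h0]
  rw [h, map_list_sum, List.map_map]
  refine congrArg List.sum (List.map_congr_left (fun x hx => ?_))
  obtain ⟨a1, a2, a3, a4⟩ := win_len _ x hx
  rw [Function.comp_apply, map_rat_smul]
  have hs : x.2.2.2.2.2 ++ w.drop 6 ++ x.2.1 ≠ [] := by
    intro h0
    have := congrArg List.length h0
    simp only [List.length_append, List.length_drop, List.length_nil] at this
    omega
  rw [ev_low t f w.length hf _ _ _ _ a1 a2 a3 hs (by
    simp only [List.length_append, List.length_drop]; omega), low_six t ht]
  congr 1
  unfold sixE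
  have hc : ∀ m : List (Fin 3), t (ofList (m ++ (x.2.2.2.2.2 ++ w.drop 6 ++ x.2.1)))
      = t (ofList (x.2.1 ++ m ++ x.2.2.2.2.2 ++ w.drop 6)) := by
    intro m
    have := ht.cyc (ofList (m ++ (x.2.2.2.2.2 ++ w.drop 6))) (ofList x.2.1)
    rw [← ofList_append, ← ofList_append] at this
    simp only [List.append_assoc] at this ⊢
    exact this
  simp only [hc]
  simp only [List.append_assoc]

include ht in
theorem ev_rho (hdet : ∀ x : Fin 3, t (of x) ^ 3 - 3 * t (of x) * t (of x * of x)
      + 2 * t (of x * of x * of x) = 6) (w : FreeMonoid (Fin 3)) : ev t (rho w) = t w := by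
  generalize hn : w.length = n
  induction n using Nat.strong_induction_on generalizing w with
  | _ n ih =>
    have hf : ∀ v : FreeMonoid (Fin 3), v.length < w.length → ev t (rho v) = t v :=
      fun v hv => ih v.length (by omega) v rfl
    rw [rho_eq]
    unfold step
    split_ifs with h
    · exact ev_short t ht rho w.toList h hdet hf
    · exact ev_long t ht rho w.toList (not_le.mp h) hf

end eval

/-- The traces of words at a triple of matrices of determinant one. -/
noncomputable def slTrace (A : Fin 3 → Matrix.SpecialLinearGroup (Fin 3) ℂ)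
    (w : FreeMonoid (Fin 3)) : ℂ :=
  Matrix.trace (FreeMonoid.lift (fun x => (A x : Matrix (Fin 3) (Fin 3) ℂ)) w)

theorem slTrace_rho (A : Fin 3 → Matrix.SpecialLinearGroup (Fin 3) ℂ) (w : FreeMonoid (Fin 3)) :
    MvPolynomial.aeval (fun i => slTrace A (gen i)) (rho w) = slTrace A w :=
  ev_rho (slTrace A) (isPC_trace _) (trace_hdet A) w

theorem lowL_fund {B : Type*} [CommRing B] [Algebra ℂ B] (φ : MvPolynomial (Fin 45) ℂ →ₐ[ℂ] B)
    (f : FreeMonoid (Fin 3) → MvPolynomial (Fin 45) ℂ) (p q r s : FreeMonoid (Fin 3)) :
    φ (fund f p q r s) = fund (fun w => φ (f w)) p q r s := by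
  simp only [fund, low, map_add, map_sub, map_mul]

theorem fund_ring {B C : Type*} [CommRing B] [CommRing C] (φ : B →+* C)
    (f : FreeMonoid (Fin 3) → B) (p q r s : FreeMonoid (Fin 3)) :
    φ (fund f p q r s) = fund (fun w => φ (f w)) p q r s := by
  simp only [fund, low, map_add, map_sub, map_mul]

/-- The polynomials of the list vanish at all triples. -/
theorem relations_vanish (A : Fin 3 → Matrix.SpecialLinearGroup (Fin 3) ℂ)
    (F : MvPolynomial (Fin 45) ℂ) (hF : F ∈ relations) :
    MvPolynomial.aeval (fun i => slTrace A (gen i)) F = 0 := by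
  have hPC : IsPC (slTrace A) := isPC_trace _
  rcases hF with ⟨a, b, -, rfl⟩ | ⟨p, q, r, s, -, rfl⟩
  · rw [map_sub, slTrace_rho, slTrace_rho, hPC.cyc a b, sub_self]
  · rw [lowL_fund]
    simp only [slTrace_rho]
    exact hPC.fund p q r s

/-- A polynomial vanishing at all triples is in the ideal generated by the list. -/
theorem mem_span_relations (F : MvPolynomial (Fin 45) ℂ)
    (hF : ∀ A : Fin 3 → Matrix.SpecialLinearGroup (Fin 3) ℂ,
      MvPolynomial.aeval (fun i => slTrace A (gen i)) F = 0) :
    F ∈ Ideal.span relations := by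
  rw [← Ideal.Quotient.eq_zero_iff_mem]
  set π := Ideal.Quotient.mk (Ideal.span relations) with hπ
  have h1 : (fun w => π (rho w)) 1 = 3 := by
    simp only [rho_one, map_ofNat]
  have hc : ∀ a b : FreeMonoid (Fin 3), a.length + b.length ≤ 20 →
      (fun w => π (rho w)) (a * b) = (fun w => π (rho w)) (b * a) := by
    intro a b hab
    simp only []
    rw [← sub_eq_zero, ← map_sub]
    exact Ideal.Quotient.eq_zero_iff_mem.mpr (Ideal.subset_span (Or.inl ⟨a, b, hab, rfl⟩))
  have hf : ∀ p q r s : FreeMonoid (Fin 3), p.length + q.length + r.length + s.length ≤ 20 →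
      fund (fun w => π (rho w)) p q r s = 0 := by
    intro p q r s hl
    rw [← fund_ring]
    exact Ideal.Quotient.eq_zero_iff_mem.mpr (Ideal.subset_span (Or.inr ⟨p, q, r, s, hl, rfl⟩))
  obtain ⟨t', ht', hagree⟩ := extension (fun w => π (rho w)) win (fun u _ => win_len u)
    (fun u hu φ => win_spec u hu φ) h1 hc hf
  have hgen : ∀ i, t' (gen i) = π (MvPolynomial.X i) := by
    intro i
    rw [hagree _ (le_trans (gen_length i).1 (by norm_num)), rho_gen]
  have hdet : ∀ x : Fin 3, t' (of x) ^ 3
      - 3 * t' (of x) * t' (of x * of x) + 2 * t' (of x * of x * of x) = 6 := by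
    intro x
    rw [hagree _ (by simp), hagree _ (by simp), hagree _ (by simp), rho_cube]
    have key : rho (of x) ^ 3 - 3 * rho (of x) * rho (of x * of x)
      + 2 * ((-(1 / 2 : ℚ)) • rho (of x) ^ 3 + (3 / 2 : ℚ) • (rho (of x) * rho (of x * of x)) + 3)
      = 6 := by
      simp only [Algebra.smul_def]
      have e1 : (2 : MvPolynomial (Fin 45) ℂ) * (algebraMap ℚ (MvPolynomial (Fin 45) ℂ)) (-(1 / 2)) = -1 := by
        rw [← map_ofNat (algebraMap ℚ (MvPolynomial (Fin 45) ℂ)) 2, ← map_mul]
        norm_num
      have e2 : (2 : MvPolynomial (Fin 45) ℂ) * (algebraMap ℚ (MvPolynomial (Fin 45) ℂ)) (3 / 2) = 3 := by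
        rw [← map_ofNat (algebraMap ℚ (MvPolynomial (Fin 45) ℂ)) 2, ← map_mul,
          show (2 : ℚ) * (3 / 2) = 3 by norm_num, map_ofNat]
      linear_combination (rho (of x) ^ 3) * e1 + (rho (of x) * rho (of x * of x)) * e2
    have := congrArg π key
    simpa only [map_add, map_sub, map_mul, map_pow, map_ofNat] using this
  have h := sl_relation gen (fun i => (gen_length i).2) F hF t' ht' hdet
  have e : MvPolynomial.aeval (fun i => t' (gen i)) F = π F := by
    have : (fun i => t' (gen i)) = fun i => π (MvPolynomial.X i) := funext hgen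
    rw [this]
    have h2 : (MvPolynomial.aeval (fun i => π (MvPolynomial.X i)) : MvPolynomial (Fin 45) ℂ →ₐ[ℂ] _)
        = Ideal.Quotient.mkₐ ℂ (Ideal.span relations) := by
      refine MvPolynomial.algHom_ext (fun i => ?_)
      rw [MvPolynomial.aeval_X]
      rfl
    rw [h2]
    rfl
  rw [← e]
  exact h

/-- Words of bounded length form a finite set. -/
theorem finite_words (n : ℕ) : {w : FreeMonoid (Fin 3) | w.length ≤ n}.Finite :=
  List.finite_length_le (Fin 3) n

theorem relations_finite : relations.Finite := by
  unfold relations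
  refine Set.Finite.union ?_ ?_
  · refine Set.Finite.subset (((finite_words 20).prod (finite_words 20)).image
      (fun x => rho (x.1 * x.2) - rho (x.2 * x.1))) ?_
    rintro F ⟨a, b, hab, rfl⟩
    exact ⟨(a, b), ⟨show a.length ≤ 20 by omega, show b.length ≤ 20 by omega⟩, rfl⟩
  · refine Set.Finite.subset (((finite_words 20).prod ((finite_words 20).prod
      ((finite_words 20).prod (finite_words 20)))).image
      (fun x => fund rho x.1 x.2.1 x.2.2.1 x.2.2.2)) ?_
    rintro F ⟨p, q, r, s, hl, rfl⟩
    exact ⟨(p, q, r, s), ⟨show p.length ≤ 20 by omega, show q.length ≤ 20 by omega,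
      show r.length ≤ 20 by omega, show s.length ≤ 20 by omega⟩, rfl⟩

end Pool.Agent.H20.TR
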