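import Pool.Agent.H20.TR.Defs

set_option autoImplicit false

/-!
# The explicit reduction of words in three letters to polynomials in 45 variables
-/

namespace Pool.Agent.H20.TR

/-- The decimal digits of a number (`k` bounds their number). -/
def digs : ℕ → ℕ → List ℕ
  | 0, _ => []
  | k + 1, n => if n = 0 then [] else digs k (n / 10) ++ [n % 10]

/-- The word in the letters `0, 1, 2` written with the decimal digits `1, 2, 3`. For instance `wd 112`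
is the word `0 0 1`. -/
def wd (n : ℕ) : List (Fin 3) := (digs 7 n).map (fun d => Fin.ofNat 3 (d - 1))

/-- The 45 words whose traces are the chosen generators. -/
def genList : List (List (Fin 3)) :=
  [1, 2, 3, 11, 22, 33, 12, 13, 23,
   112, 122, 113, 133, 223, 233, 123, 132, 1122,
   1133, 2233, 1123, 1132, 1223, 1322, 1233, 1332, 11213,
   12232, 13233, 11223, 11322, 11233, 11332, 12233, 13322, 112212,
   113313, 223323, 112213, 113312, 112322, 122332, 113233, 133223, 112233].map wd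

/-- The `i`-th generator word. -/
def gen (i : Fin 45) : FreeMonoid (Fin 3) := FreeMonoid.ofList (genList.getD i [])

/-- The base three code of a word, used to compare the rotations of a word. -/
def code (w : List (Fin 3)) : ℕ := w.foldl (fun a i => 3 * a + i.val) 0

/-- The rotation of a word with the smallest code. -/
def canon (w : List (Fin 3)) : List (Fin 3) :=
  (List.range w.length).foldl
    (fun best k => if code (w.rotate k) < code best then w.rotate k else best) w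

/-- Type of the reduction rules. -/
abbrev Rule : Type := ℕ × ℕ × List (ℤ × ℕ) × List (ℤ × ℕ × ℕ × ℕ × ℕ)

/-- Reduction rules, part 1. -/
def rules1 : List Rule :=
  [(1111, 6, [], [(1, 1, 1, 1, 1)]),
   (1112, 6, [], [(1, 1, 1, 1, 2)]),
   (1113, 6, [], [(1, 1, 1, 1, 3)]),
   (1212, 2, [(-4, 1122)], [(1, 1, 1, 2, 2)]),
   (1213, 2, [(-2, 1132), (-2, 1123)], [(1, 1, 1, 2, 3)]),
   (1313, 2, [(-4, 1133)], [(1, 1, 1, 3, 3)]),
   (1222, 6, [], [(1, 1, 2, 2, 2)]),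
   (1232, 2, [(-2, 1223), (-2, 1322)], [(1, 1, 2, 2, 3)]),
   (1323, 2, [(-2, 1332), (-2, 1233)], [(1, 1, 2, 3, 3)]),
   (1333, 6, [], [(1, 1, 3, 3, 3)]),
   (2222, 6, [], [(1, 2, 2, 2, 2)]),
   (2223, 6, [], [(1, 2, 2, 2, 3)]),
   (2323, 2, [(-4, 2233)], [(1, 2, 2, 3, 3)]),
   (2333, 6, [], [(1, 2, 3, 3, 3)]),
   (3333, 6, [], [(1, 3, 3, 3, 3)]),
   (11111, 6, [], [(1, 1, 1, 1, 11)]),
   (11112, 6, [], [(1, 1, 1, 1, 12)]),
   (11113, 6, [], [(1, 1, 1, 1, 13)]),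
   (11122, 6, [], [(1, 1, 1, 1, 22)]),
   (11212, 6, [], [(-1, 1, 2, 2, 11), (2, 1, 1, 2, 12)]),
   (11123, 6, [], [(1, 1, 1, 1, 23)]),
   (11132, 6, [], [(1, 1, 1, 1, 32)]),
   (11312, 6, [(-6, 11213)], [(-1, 1, 1, 1, 23), (3, 1, 1, 2, 31)]),
   (11133, 6, [], [(1, 1, 1, 1, 33)])]

/-- Reduction rules, part 2. -/
def rules2 : List Rule :=
  [(11313, 6, [], [(2, 1, 1, 3, 13), (-1, 1, 3, 3, 11)]),
   (11222, 6, [], [(1, 2, 2, 2, 11)]),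
   (12122, 6, [], [(2, 1, 2, 2, 12), (-1, 1, 1, 2, 22)]),
   (11232, 2, [(-2, 11322), (-2, 11223)], [(1, 2, 2, 3, 11)]),
   (12123, 2, [(2, 11322)], [(-1, 2, 2, 3, 11), (1, 1, 1, 2, 23)]),
   (12132, 2, [(2, 11223)], [(1, 1, 2, 2, 13), (-1, 1, 1, 3, 22)]),
   (12213, 2, [(-2, 11223), (-2, 11322)], [(1, 1, 1, 3, 22)]),
   (11323, 2, [(-2, 11332), (-2, 11233)], [(1, 2, 3, 3, 11)]),
   (12133, 2, [(-2, 11233), (-2, 11332)], [(1, 1, 1, 2, 33)]),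
   (12313, 2, [(2, 11332)], [(-1, 2, 3, 3, 11), (1, 1, 1, 3, 23)]),
   (13132, 2, [(2, 11233)], [(-1, 2, 3, 3, 11), (1, 1, 1, 3, 32)]),
   (11333, 6, [], [(1, 3, 3, 3, 11)]),
   (13133, 6, [], [(-1, 1, 1, 3, 33), (2, 1, 3, 3, 13)]),
   (12222, 6, [], [(1, 1, 2, 2, 22)]),
   (12223, 6, [], [(1, 2, 2, 2, 31)]),
   (12322, 6, [(-6, 12232)], [(3, 1, 2, 2, 32), (-1, 2, 2, 2, 13)]),
   (13222, 6, [], [(1, 2, 2, 2, 13)]),
   (12323, 2, [(2, 13322)], [(-1, 1, 2, 2, 33), (1, 2, 3, 3, 12)]),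
   (12332, 2, [(-2, 13322), (-2, 12233)], [(1, 1, 2, 2, 33)]),
   (13223, 2, [(-2, 13322), (-2, 12233)], [(1, 1, 3, 3, 22)]),
   (13232, 2, [(2, 12233)], [(-1, 1, 2, 2, 33), (1, 2, 3, 3, 21)]),
   (12333, 6, [], [(1, 3, 3, 3, 12)]),
   (13323, 6, [(-6, 13233)], [(3, 1, 3, 3, 32), (-1, 3, 3, 3, 21)]),
   (13332, 6, [], [(1, 3, 3, 3, 21)])]

/-- Reduction rules, part 3. -/
def rules3 : List Rule :=
  [(13333, 6, [], [(1, 1, 3, 3, 33)]),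
   (22222, 6, [], [(1, 2, 2, 2, 22)]),
   (22223, 6, [], [(1, 2, 2, 2, 23)]),
   (22233, 6, [], [(1, 2, 2, 2, 33)]),
   (22323, 6, [], [(2, 2, 2, 3, 23), (-1, 2, 3, 3, 22)]),
   (22333, 6, [], [(1, 3, 3, 3, 22)]),
   (23233, 6, [], [(2, 2, 3, 3, 23), (-1, 2, 2, 3, 33)]),
   (23333, 6, [], [(1, 2, 3, 3, 33)]),
   (33333, 6, [], [(1, 3, 3, 3, 33)]),
   (111111, 6, [], [(1, 1, 1, 1, 111)]),
   (111112, 6, [], [(1, 1, 1, 1, 112)]),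
   (111113, 6, [], [(1, 1, 1, 1, 113)]),
   (111122, 6, [], [(1, 1, 1, 1, 122)]),
   (111212, 6, [], [(1, 1, 1, 1, 212)]),
   (112112, 6, [], [(3, 2, 2, 11, 11), (-2, 1, 1, 1, 122)]),
   (111123, 6, [], [(1, 1, 1, 1, 123)]),
   (111132, 6, [], [(1, 1, 1, 1, 132)]),
   (111213, 6, [], [(1, 1, 1, 1, 213)]),
   (111312, 6, [], [(1, 1, 1, 1, 312)]),
   (112113, 6, [], [(-1, 1, 1, 1, 123), (3, 2, 3, 11, 11), (-1, 1, 1, 1, 132)]),
   (111133, 6, [], [(1, 1, 1, 1, 133)]),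
   (111313, 6, [], [(1, 1, 1, 1, 313)]),
   (113113, 6, [], [(3, 3, 3, 11, 11), (-2, 1, 1, 1, 133)]),
   (111222, 6, [], [(1, 1, 1, 1, 222)])]

/-- Reduction rules, part 4. -/
def rules4 : List Rule :=
  [(112122, 3, [(-3, 112212)], [(-1, 1, 2, 11, 22), (2, 1, 1, 12, 22)]),
   (121212, 6, [], [(3, 1, 1, 2, 212), (1, 1, 1, 1, 222), (-3, 1, 1, 12, 22)]),
   (111223, 6, [], [(1, 1, 1, 1, 223)]),
   (111232, 6, [], [(1, 1, 1, 1, 232)]),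
   (111322, 6, [], [(1, 1, 1, 1, 322)]),
   (112123, 6, [(-6, 112213)], [(3, 1, 2, 2, 311), (-1, 1, 1, 1, 223)]),
   (112132, 6, [(-6, 112213)], [(3, 2, 2, 11, 13), (-1, 1, 1, 1, 322)]),
   (112312, 2, [(2, 112213)], [(1, 1, 1, 2, 312), (-1, 1, 2, 2, 131)]),
   (113122, 6, [(-6, 112213)], [(3, 1, 1, 22, 31), (-1, 1, 1, 1, 223)]),
   (113212, 2, [(2, 112213)], [(-1, 1, 1, 2, 213), (1, 1, 3, 21, 21)]),
   (121213, 6, [], [(3, 1, 3, 21, 21), (-3, 1, 1, 12, 32), (1, 1, 1, 1, 232)]),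
   (111233, 6, [], [(1, 1, 1, 1, 233)]),
   (111323, 6, [], [(1, 1, 1, 1, 323)]),
   (111332, 6, [], [(1, 1, 1, 1, 332)]),
   (112133, 6, [(-6, 113312)], [(-1, 1, 1, 1, 332), (3, 1, 1, 2, 133)]),
   (112313, 2, [(2, 113312)], [(1, 1, 3, 3, 112), (-1, 1, 1, 12, 33)]),
   (113123, 6, [(-6, 113312)], [(-1, 1, 1, 1, 233), (3, 3, 3, 11, 12)]),
   (113132, 6, [(-6, 113312)], [(-1, 1, 1, 1, 332), (3, 1, 3, 3, 211)]),
   (113213, 2, [(2, 113312)], [(-1, 1, 1, 2, 133), (1, 3, 3, 11, 21)]),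
   (121313, 6, [], [(3, 1, 1, 3, 213), (-3, 3, 3, 11, 21), (1, 1, 1, 1, 332)]),
   (111333, 6, [], [(1, 1, 1, 1, 333)]),
   (113133, 3, [(-3, 113313)], [(-1, 1, 3, 11, 33), (2, 1, 1, 13, 33)]),
   (131313, 6, [], [(1, 1, 1, 1, 333), (-3, 1, 1, 13, 33), (3, 1, 1, 3, 313)]),
   (112222, 6, [], [(1, 2, 2, 11, 22)])]

/-- Reduction rules, part 5. -/
def rules5 : List Rule :=
  [(121222, 6, [], [(1, 2, 2, 2, 121)]),
   (122122, 6, [], [(-2, 2, 2, 11, 22), (3, 1, 1, 22, 22)]),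
   (112223, 6, [], [(1, 2, 2, 2, 311)]),
   (112232, 6, [(-6, 112322)], [(-1, 2, 2, 2, 113), (3, 2, 2, 11, 32)]),
   (113222, 6, [], [(1, 2, 2, 2, 113)]),
   (121223, 2, [(2, 112322)], [(-1, 1, 2, 2, 123), (1, 2, 3, 12, 12)]),
   (121232, 6, [], [(3, 2, 3, 12, 12), (-3, 1, 2, 2, 231), (1, 2, 2, 2, 311)]),
   (121322, 6, [(-6, 112322)], [(3, 1, 1, 2, 322), (-1, 2, 2, 2, 113)]),
   (122123, 6, [(-6, 112322)], [(-1, 2, 2, 2, 311), (3, 1, 1, 22, 23)]),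
   (122132, 2, [(2, 112322)], [(-1, 2, 2, 11, 32), (1, 1, 1, 22, 32)]),
   (122213, 6, [], [(1, 2, 2, 2, 131)]),
   (112323, 6, [(-6, 112233)], [(-1, 2, 2, 3, 113), (1, 1, 1, 2, 323), (2, 2, 2, 3, 311), (1, 1, 1, 22, 33), (-1, 2, 2, 13, 31)]),
   (112332, 6, [], [(1, 3, 3, 12, 21), (1, 2, 3, 3, 211), (1, 2, 3, 3, 112), (-1, 1, 1, 22, 33), (-1, 1, 1, 3, 232)]),
   (113223, 6, [], [(-1, 1, 1, 22, 33), (1, 2, 2, 3, 311), (1, 2, 2, 3, 113), (1, 2, 2, 13, 31), (-1, 1, 1, 2, 323)]),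
   (113232, 2, [(2, 112233)], [(-1, 3, 3, 11, 22), (1, 2, 2, 3, 113)]),
   (113322, 6, [(-6, 112233)], [(1, 1, 1, 2, 323), (2, 3, 3, 11, 22), (-2, 2, 3, 11, 23), (1, 2, 3, 3, 112), (-1, 2, 2, 13, 31), (1, 1, 1, 22, 33)]),
   (121233, 6, [(-6, 112233)], [(2, 1, 1, 2, 233), (-1, 1, 1, 23, 32), (1, 1, 1, 3, 223), (-1, 2, 2, 31, 31), (2, 2, 3, 12, 31), (-1, 2, 3, 3, 112)]),
   (121323, 6, [], [(-1, 1, 1, 3, 223), (1, 2, 2, 13, 31), (-1, 1, 3, 3, 122), (-1, 1, 1, 23, 23), (4, 1, 3, 12, 23), (-1, 3, 3, 12, 12)]),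
   (121332, 2, [(2, 112233)], [(1, 1, 2, 2, 133), (-1, 1, 1, 22, 33)]),
   (122133, 6, [], [(1, 1, 3, 3, 221), (1, 3, 3, 12, 21), (-1, 2, 2, 11, 33), (-1, 2, 2, 3, 131), (1, 1, 3, 3, 122)]),
   (122313, 6, [(-6, 112233)], [(2, 1, 1, 3, 223), (-1, 1, 1, 3, 322), (1, 2, 2, 11, 33), (1, 1, 2, 2, 313), (-1, 1, 1, 23, 32)]),
   (123123, 6, [(12, 112233)], [(3, 3, 3, 12, 12), (-2, 2, 3, 3, 121), (-4, 1, 2, 2, 331), (-2, 3, 3, 11, 22), (2, 2, 2, 13, 31), (2, 1, 2, 2, 133)]),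
   (123132, 6, [], [(2, 1, 1, 22, 33), (-2, 1, 3, 13, 22), (2, 1, 2, 2, 313), (1, 1, 1, 23, 32), (-1, 2, 2, 11, 33), (-1, 1, 3, 3, 122)]),
   (123213, 6, [], [(-1, 1, 1, 23, 23), (-1, 1, 1, 2, 233), (-1, 1, 2, 2, 331), (1, 3, 3, 12, 21), (-1, 2, 2, 31, 31), (4, 1, 2, 23, 31)])]

/-- Reduction rules, part 6. -/
def rules6 : List Rule :=
  [(131322, 2, [(2, 112233)], [(-1, 3, 3, 11, 22), (1, 1, 1, 3, 322)]),
   (132132, 2, [(-4, 112233)], [(2, 2, 2, 11, 33), (1, 1, 1, 32, 32), (-2, 2, 3, 3, 211)]),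
   (112333, 6, [], [(1, 3, 3, 3, 112)]),
   (113323, 6, [(-6, 113233)], [(-1, 3, 3, 3, 211), (3, 2, 3, 3, 113)]),
   (113332, 6, [], [(1, 3, 3, 3, 211)]),
   (121333, 6, [], [(1, 3, 3, 3, 121)]),
   (123133, 2, [(2, 113233)], [(1, 1, 3, 3, 231), (-1, 1, 1, 3, 323)]),
   (123313, 6, [(-6, 113233)], [(3, 1, 1, 3, 233), (-1, 3, 3, 3, 112)]),
   (131323, 6, [], [(-3, 1, 3, 3, 123), (1, 3, 3, 3, 112), (3, 2, 3, 31, 31)]),
   (131332, 2, [(2, 113233)], [(1, 1, 1, 3, 332), (-1, 2, 3, 3, 113)]),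
   (132133, 6, [(-6, 113233)], [(3, 1, 1, 32, 33), (-1, 3, 3, 3, 211)]),
   (113333, 6, [], [(1, 3, 3, 11, 33)]),
   (131333, 6, [], [(1, 3, 3, 3, 131)]),
   (133133, 6, [], [(-2, 3, 3, 11, 33), (3, 1, 1, 33, 33)]),
   (122222, 6, [], [(1, 1, 2, 2, 222)]),
   (122223, 6, [], [(1, 2, 2, 2, 231)]),
   (122232, 6, [], [(1, 2, 2, 2, 321)]),
   (122322, 6, [], [(3, 1, 2, 2, 322), (-1, 2, 2, 13, 22), (-1, 2, 2, 2, 123)]),
   (123222, 6, [], [(1, 2, 2, 2, 123)]),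
   (132222, 6, [], [(1, 2, 2, 13, 22)]),
   (122233, 6, [], [(1, 2, 2, 2, 331)]),
   (122323, 6, [(-6, 122332)], [(-1, 2, 2, 2, 331), (3, 2, 3, 3, 122)]),
   (123223, 2, [(2, 122332)], [(-1, 1, 2, 2, 233), (1, 3, 3, 12, 22)]),
   (123232, 6, [], [(1, 2, 2, 2, 331), (-3, 3, 3, 12, 22), (3, 2, 2, 3, 123)])]

/-- Reduction rules, part 7. -/
def rules7 : List Rule :=
  [(123322, 6, [(-6, 122332)], [(3, 1, 2, 2, 233), (-1, 2, 2, 2, 331)]),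
   (132223, 6, [], [(1, 2, 2, 2, 313)]),
   (132232, 6, [(-6, 122332)], [(3, 3, 3, 21, 22), (-1, 2, 2, 2, 133)]),
   (132322, 2, [(2, 122332)], [(-1, 3, 3, 21, 22), (1, 2, 2, 13, 32)]),
   (133222, 6, [], [(1, 2, 2, 2, 133)]),
   (122333, 6, [], [(1, 3, 3, 3, 122)]),
   (123233, 2, [(2, 133223)], [(1, 1, 3, 23, 23), (-1, 2, 3, 3, 231)]),
   (123323, 6, [(-6, 133223)], [(-1, 3, 3, 3, 122), (3, 2, 2, 31, 33)]),
   (123332, 6, [], [(1, 3, 3, 3, 212)]),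
   (132233, 6, [(-6, 133223)], [(-1, 3, 3, 3, 122), (3, 1, 3, 3, 223)]),
   (132323, 6, [], [(3, 1, 3, 32, 32), (-3, 2, 3, 3, 213), (1, 3, 3, 3, 221)]),
   (132332, 2, [(2, 133223)], [(1, 2, 3, 3, 132), (-1, 2, 2, 3, 313)]),
   (133232, 6, [(-6, 133223)], [(3, 2, 2, 3, 133), (-1, 3, 3, 3, 221)]),
   (133322, 6, [], [(1, 3, 3, 3, 221)]),
   (123333, 6, [], [(1, 3, 3, 12, 33)]),
   (132333, 6, [], [(1, 3, 3, 3, 132)]),
   (133233, 6, [], [(3, 1, 3, 3, 323), (-1, 3, 3, 3, 231), (-1, 3, 3, 3, 132)]),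
   (133323, 6, [], [(1, 3, 3, 3, 231)]),
   (133332, 6, [], [(1, 3, 3, 21, 33)]),
   (133333, 6, [], [(1, 1, 3, 3, 333)]),
   (222222, 6, [], [(1, 2, 2, 2, 222)]),
   (222223, 6, [], [(1, 2, 2, 2, 223)]),
   (222233, 6, [], [(1, 2, 2, 2, 233)]),
   (222323, 6, [], [(1, 2, 2, 2, 323)])]

/-- Reduction rules, part 8. -/
def rules8 : List Rule :=
  [(223223, 6, [], [(3, 2, 2, 23, 23), (-2, 2, 2, 2, 323)]),
   (222333, 6, [], [(1, 2, 2, 2, 333)]),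
   (223233, 3, [(-3, 223323)], [(2, 2, 2, 23, 33), (-1, 2, 3, 22, 33)]),
   (232323, 6, [], [(1, 2, 2, 2, 333), (-3, 2, 2, 23, 33), (3, 2, 2, 3, 323)]),
   (223333, 6, [], [(1, 3, 3, 22, 33)]),
   (232333, 6, [], [(1, 3, 3, 3, 232)]),
   (233233, 6, [], [(3, 2, 2, 33, 33), (-2, 3, 3, 22, 33)]),
   (233333, 6, [], [(1, 2, 3, 3, 333)]),
   (333333, 6, [], [(1, 3, 3, 3, 333)])]

/-- The reduction rules for the words of length four to six that are least rotations and are not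
generators. The entry `(w, d, [(k, g), …], [(c, p, q, r, s), …])` means that `d` times the trace of
`wd w` is the sum of the `k` times the trace of `wd g` and of the `c` times
`low (wd p) (wd q) (wd r) (wd s)`. -/
def rules : List Rule :=
  rules1 ++ rules2 ++ rules3 ++ rules4 ++ rules5 ++ rules6 ++ rules7 ++ rules8

/-- Positions `1` and `2`: the entries `(c, a, p, q, r, b)` are such that the sum of the `c` times
the six words `a π(p,q,r) b` is six times the sum of the words `123456` and the same with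
`1` and `2` exchanged; here words are written with the decimal digits `1` to `6`. -/
def win01 : List (ℤ × ℕ × ℕ × ℕ × ℕ × ℕ) :=
  [(1, 0, 1, 2, 3, 456),
   (-1, 0, 1, 2, 3, 465),
   (1, 0, 1, 2, 34, 56),
   (2, 0, 1, 2, 345, 6),
   (2, 0, 1, 2, 3456, 0),
   (1, 0, 1, 2, 3465, 0),
   (-1, 0, 1, 2, 364, 5),
   (1, 0, 1, 2, 3645, 0),
   (1, 3, 12, 4, 6, 5),
   (-1, 3, 12, 45, 6, 0),
   (1, 3, 21, 4, 6, 5),
   (-1, 3, 21, 45, 6, 0),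
   (1, 13, 2, 4, 6, 5),
   (-1, 13, 2, 45, 6, 0),
   (1, 23, 1, 4, 6, 5),
   (-1, 23, 1, 45, 6, 0),
   (-1, 34, 12, 5, 6, 0),
   (-1, 34, 21, 5, 6, 0),
   (-1, 134, 2, 5, 6, 0),
   (-1, 234, 1, 5, 6, 0)]

/-- Positions `5` and `6`: the entries `(c, a, p, q, r, b)` are such that the sum of the `c` times
the six words `a π(p,q,r) b` is six times the sum of the words `123456` and the same with
`5` and `6` exchanged; here words are written with the decimal digits `1` to `6`. -/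
def win45 : List (ℤ × ℕ × ℕ × ℕ × ℕ × ℕ) :=
  [(-1, 0, 1, 2, 5, 346),
   (-1, 0, 1, 2, 56, 34),
   (-1, 0, 1, 2, 6, 345),
   (-1, 0, 1, 2, 65, 34),
   (-1, 0, 1, 23, 5, 46),
   (-1, 0, 1, 23, 56, 4),
   (-1, 0, 1, 23, 6, 45),
   (-1, 0, 1, 23, 65, 4),
   (2, 0, 1234, 5, 6, 0),
   (1, 0, 2134, 5, 6, 0),
   (1, 0, 2314, 5, 6, 0),
   (2, 1, 234, 5, 6, 0),
   (1, 2, 1, 3, 5, 46),
   (1, 2, 1, 3, 56, 4),
   (1, 2, 1, 3, 6, 45),
   (1, 2, 1, 3, 65, 4),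
   (-1, 2, 314, 5, 6, 0),
   (1, 12, 34, 5, 6, 0),
   (1, 123, 4, 5, 6, 0),
   (-1, 213, 4, 5, 6, 0)]

/-- Positions `1` and `6`: the entries `(c, a, p, q, r, b)` are such that the sum of the `c` times
the six words `a π(p,q,r) b` is six times the sum of the words `123456` and the same with
`1` and `6` exchanged; here words are written with the decimal digits `1` to `6`. -/
def win05 : List (ℤ × ℕ × ℕ × ℕ × ℕ × ℕ) :=
  [(1, 0, 1, 2, 3, 456),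
   (1, 0, 1, 2, 34, 56),
   (-1, 0, 1, 2, 6, 345),
   (1, 0, 1, 2, 6, 354),
   (-1, 0, 1, 23, 6, 45),
   (-2, 0, 1, 234, 6, 5),
   (2, 0, 1, 2345, 6, 0),
   (-1, 0, 1, 2354, 6, 0),
   (1, 0, 1, 253, 6, 4),
   (-1, 0, 1, 2534, 6, 0),
   (-1, 0, 1, 3245, 6, 0),
   (-1, 0, 1, 3425, 6, 0),
   (1, 0, 16, 2, 3, 45),
   (1, 0, 16, 2, 34, 5),
   (1, 0, 2, 3, 6, 451),
   (1, 0, 2, 3, 61, 45),
   (1, 0, 2, 34, 6, 51),
   (1, 0, 2, 34, 61, 5),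
   (-2, 2, 1, 345, 6, 0),
   (-1, 2, 16, 3, 5, 4),
   (1, 2, 16, 34, 5, 0),
   (-1, 2, 3, 5, 61, 4),
   (1, 2, 34, 5, 61, 0),
   (-1, 3, 1, 2, 4, 56),
   (1, 3, 1, 425, 6, 0),
   (-1, 3, 16, 2, 4, 5),
   (-1, 3, 2, 4, 6, 51),
   (-1, 3, 2, 4, 61, 5),
   (-1, 12, 3, 5, 6, 4),
   (1, 12, 34, 5, 6, 0),
   (-1, 23, 1, 45, 6, 0),
   (1, 23, 16, 4, 5, 0),
   (1, 23, 4, 5, 61, 0),
   (-1, 62, 1, 3, 5, 4),
   (1, 62, 1, 34, 5, 0),
   (1, 123, 4, 5, 6, 0),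
   (-1, 234, 1, 5, 6, 0),
   (1, 324, 1, 5, 6, 0),
   (1, 623, 1, 4, 5, 0)]

/-- Positions `1` and `5`: the entries `(c, a, p, q, r, b)` are such that the sum of the `c` times
the six words `a π(p,q,r) b` is six times the sum of the words `123456` and the same with
`1` and `5` exchanged; here words are written with the decimal digits `1` to `6`. -/
def win04 : List (ℤ × ℕ × ℕ × ℕ × ℕ × ℕ) :=
  [(-1, 0, 1, 2, 3, 465),
   (-1, 0, 1, 2, 34, 65),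
   (-1, 0, 1, 2, 5, 346),
   (-1, 0, 1, 2, 5, 364),
   (-1, 0, 1, 2, 56, 34),
   (-1, 0, 1, 2, 6, 345),
   (-1, 0, 1, 2, 65, 34),
   (-1, 0, 1, 23, 5, 46),
   (-1, 0, 1, 23, 56, 4),
   (-1, 0, 1, 23, 6, 45),
   (-1, 0, 1, 23, 65, 4),
   (2, 0, 1, 234, 5, 6),
   (-2, 0, 1, 2346, 5, 0),
   (1, 0, 1, 2354, 6, 0),
   (1, 0, 1, 2364, 5, 0),
   (1, 0, 1, 2534, 6, 0),
   (-1, 0, 1, 263, 5, 4),
   (1, 0, 1, 2634, 5, 0),
   (1, 0, 1, 3246, 5, 0),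
   (1, 0, 1, 3426, 5, 0),
   (2, 0, 1, 5234, 6, 0),
   (2, 0, 1234, 5, 6, 0),
   (-1, 0, 15, 2, 3, 46),
   (-1, 0, 15, 2, 34, 6),
   (-1, 0, 16, 2, 5, 34),
   (-1, 0, 16, 23, 5, 4),
   (-1, 0, 2, 3, 5, 461),
   (-1, 0, 2, 3, 51, 46),
   (-1, 0, 2, 34, 5, 61),
   (-1, 0, 2, 34, 51, 6),
   (-1, 0, 2, 5, 6, 341),
   (-1, 0, 2, 5, 61, 34),
   (1, 0, 2134, 5, 6, 0),
   (-1, 0, 23, 5, 6, 41),
   (-1, 0, 23, 5, 61, 4),
   (1, 0, 2314, 5, 6, 0),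
   (2, 1, 234, 5, 6, 0),
   (2, 2, 1, 3, 5, 46),
   (1, 2, 1, 3, 56, 4),
   (1, 2, 1, 3, 6, 45),
   (1, 2, 1, 3, 65, 4),
   (2, 2, 1, 346, 5, 0),
   (-1, 2, 1, 354, 6, 0),
   (1, 2, 15, 3, 6, 4),
   (-1, 2, 15, 34, 6, 0),
   (1, 2, 16, 3, 5, 4),
   (1, 2, 3, 5, 6, 41),
   (1, 2, 3, 5, 61, 4),
   (1, 2, 3, 51, 6, 4),
   (-1, 2, 314, 5, 6, 0),
   (-1, 2, 34, 51, 6, 0),
   (1, 3, 1, 2, 4, 65),
   (-1, 3, 1, 426, 5, 0),
   (1, 3, 15, 2, 4, 6),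
   (1, 3, 2, 4, 5, 61),
   (1, 3, 2, 4, 51, 6),
   (2, 5, 1, 234, 6, 0),
   (1, 12, 3, 5, 6, 4),
   (1, 23, 1, 46, 5, 0),
   (-1, 23, 15, 4, 6, 0),
   (-1, 23, 4, 51, 6, 0),
   (1, 52, 1, 3, 6, 4),
   (-1, 213, 4, 5, 6, 0),
   (1, 234, 1, 5, 6, 0),
   (-1, 253, 1, 4, 6, 0),
   (-1, 324, 1, 5, 6, 0)]

/-- Positions `2` and `6`: the entries `(c, a, p, q, r, b)` are such that the sum of the `c` times
the six words `a π(p,q,r) b` is six times the sum of the words `123456` and the same with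
`2` and `6` exchanged; here words are written with the decimal digits `1` to `6`. -/
def win15 : List (ℤ × ℕ × ℕ × ℕ × ℕ × ℕ) :=
  [(-1, 0, 1, 2, 3, 465),
   (2, 0, 1, 2, 345, 6),
   (2, 0, 1, 2, 3456, 0),
   (1, 0, 1, 2, 3465, 0),
   (-1, 0, 1, 2, 364, 5),
   (1, 0, 1, 2, 3645, 0),
   (1, 0, 1, 2, 6, 345),
   (-1, 0, 1, 2, 6, 354),
   (-1, 0, 1, 26, 3, 45),
   (-1, 0, 1, 26, 34, 5),
   (-1, 0, 1, 3, 6, 425),
   (-1, 0, 1, 3, 62, 45),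
   (-1, 0, 1, 324, 6, 5),
   (1, 0, 1, 3245, 6, 0),
   (-1, 0, 1, 34, 62, 5),
   (1, 0, 1, 3425, 6, 0),
   (2, 0, 1, 345, 6, 2),
   (2, 0, 1, 3452, 6, 0),
   (1, 0, 13, 2, 6, 45),
   (2, 0, 134, 2, 6, 5),
   (-2, 0, 1345, 2, 6, 0),
   (1, 0, 1354, 2, 6, 0),
   (-1, 0, 153, 2, 6, 4),
   (1, 0, 1534, 2, 6, 0),
   (1, 0, 2, 3145, 6, 0),
   (1, 0, 2, 3415, 6, 0),
   (2, 1, 2, 345, 6, 0),
   (1, 1, 26, 3, 5, 4),
   (-1, 1, 26, 34, 5, 0),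
   (1, 1, 3, 5, 62, 4),
   (-1, 1, 34, 5, 62, 0),
   (1, 3, 1, 2, 4, 56),
   (1, 3, 1, 26, 4, 5),
   (1, 3, 1, 4, 6, 52),
   (1, 3, 1, 4, 62, 5),
   (1, 3, 12, 4, 6, 5),
   (-1, 3, 12, 45, 6, 0),
   (1, 3, 16, 2, 4, 5),
   (-1, 3, 16, 2, 45, 0),
   (1, 3, 2, 4, 61, 5),
   (-1, 3, 2, 415, 6, 0),
   (-1, 3, 2, 45, 61, 0),
   (1, 3, 21, 4, 6, 5),
   (-1, 3, 21, 45, 6, 0),
   (2, 13, 2, 4, 6, 5),
   (-1, 13, 2, 45, 6, 0),
   (-1, 13, 26, 4, 5, 0),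
   (-1, 13, 4, 5, 62, 0),
   (1, 21, 3, 5, 6, 4),
   (-1, 21, 34, 5, 6, 0),
   (1, 23, 1, 4, 6, 5),
   (-1, 23, 1, 45, 6, 0),
   (-1, 34, 12, 5, 6, 0),
   (-1, 34, 16, 2, 5, 0),
   (-1, 34, 2, 5, 61, 0),
   (-1, 34, 21, 5, 6, 0),
   (1, 61, 2, 3, 5, 4),
   (-1, 61, 2, 34, 5, 0),
   (1, 63, 1, 2, 4, 5),
   (-1, 63, 1, 2, 45, 0),
   (-1, 134, 2, 5, 6, 0),
   (-1, 213, 4, 5, 6, 0),
   (-1, 234, 1, 5, 6, 0),
   (-1, 314, 2, 5, 6, 0),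
   (-1, 613, 2, 4, 5, 0),
   (-1, 634, 1, 2, 5, 0)]

/-- Positions `2` and `5`: the entries `(c, a, p, q, r, b)` are such that the sum of the `c` times
the six words `a π(p,q,r) b` is six times the sum of the words `123456` and the same with
`2` and `5` exchanged; here words are written with the decimal digits `1` to `6`. -/
def win14 : List (ℤ × ℕ × ℕ × ℕ × ℕ × ℕ) :=
  [(1, 0, 1, 2, 3, 456),
   (1, 0, 1, 2, 34, 56),
   (1, 0, 1, 2, 34, 65),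
   (2, 0, 1, 2, 345, 6),
   (2, 0, 1, 2, 3456, 0),
   (1, 0, 1, 2, 3465, 0),
   (-1, 0, 1, 2, 364, 5),
   (1, 0, 1, 2, 3645, 0),
   (1, 0, 1, 2, 5, 346),
   (1, 0, 1, 2, 5, 364),
   (1, 0, 1, 2, 56, 34),
   (1, 0, 1, 2, 6, 345),
   (1, 0, 1, 2, 65, 34),
   (1, 0, 1, 25, 3, 46),
   (1, 0, 1, 25, 34, 6),
   (1, 0, 1, 26, 5, 34),
   (1, 0, 1, 3, 5, 426),
   (1, 0, 1, 3, 52, 46),
   (1, 0, 1, 34, 5, 26),
   (1, 0, 1, 34, 5, 62),
   (1, 0, 1, 34, 52, 6),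
   (2, 0, 1, 342, 5, 6),
   (2, 0, 1, 3426, 5, 0),
   (1, 0, 1, 3462, 5, 0),
   (-1, 0, 1, 364, 5, 2),
   (1, 0, 1, 3642, 5, 0),
   (1, 0, 1, 5, 6, 342),
   (1, 0, 1, 5, 62, 34),
   (-1, 0, 1234, 5, 6, 0),
   (1, 0, 13, 2, 5, 46),
   (1, 0, 13, 2, 56, 4),
   (1, 0, 13, 2, 6, 45),
   (1, 0, 13, 2, 65, 4),
   (1, 0, 13, 26, 5, 4),
   (1, 0, 13, 5, 6, 42),
   (1, 0, 13, 5, 62, 4),
   (-1, 0, 1324, 5, 6, 0),
   (-2, 0, 134, 2, 5, 6),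
   (2, 0, 1346, 2, 5, 0),
   (-1, 0, 1354, 2, 6, 0),
   (-1, 0, 1364, 2, 5, 0),
   (-1, 0, 1534, 2, 6, 0),
   (1, 0, 163, 2, 5, 4),
   (-1, 0, 1634, 2, 5, 0),
   (-1, 0, 2, 3146, 5, 0),
   (-1, 0, 2, 3416, 5, 0),
   (-2, 0, 2, 5134, 6, 0),
   (-2, 0, 2134, 5, 6, 0),
   (-2, 1, 2, 3, 5, 46),
   (-1, 1, 2, 3, 56, 4),
   (-1, 1, 2, 3, 6, 45),
   (-1, 1, 2, 3, 65, 4),
   (-2, 1, 2, 346, 5, 0),
   (1, 1, 2, 354, 6, 0),
   (-1, 1, 25, 3, 6, 4),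
   (1, 1, 25, 34, 6, 0),
   (-1, 1, 26, 3, 5, 4),
   (-1, 1, 3, 5, 6, 42),
   (-1, 1, 3, 5, 62, 4),
   (-1, 1, 3, 52, 6, 4),
   (1, 1, 324, 5, 6, 0),
   (1, 1, 34, 52, 6, 0),
   (-2, 2, 134, 5, 6, 0),
   (-1, 3, 1, 2, 4, 65),
   (-1, 3, 1, 25, 4, 6),
   (-1, 3, 1, 4, 5, 62),
   (-1, 3, 1, 4, 52, 6),
   (1, 3, 12, 4, 6, 5),
   (-1, 3, 12, 45, 6, 0),
   (1, 3, 15, 4, 6, 2),
   (-1, 3, 15, 42, 6, 0),
   (1, 3, 2, 416, 5, 0),
   (1, 3, 21, 4, 6, 5),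
   (-1, 3, 21, 45, 6, 0),
   (1, 3, 4, 51, 6, 2),
   (-1, 3, 42, 51, 6, 0),
   (-2, 5, 134, 2, 6, 0),
   (1, 13, 2, 4, 6, 5),
   (-1, 13, 2, 45, 6, 0),
   (-1, 13, 2, 46, 5, 0),
   (1, 13, 25, 4, 6, 0),
   (1, 13, 4, 5, 6, 2),
   (1, 13, 4, 52, 6, 0),
   (-1, 13, 42, 5, 6, 0),
   (-1, 21, 3, 5, 6, 4),
   (1, 23, 1, 4, 6, 5),
   (-1, 23, 1, 45, 6, 0),
   (-1, 34, 12, 5, 6, 0),
   (-1, 34, 15, 2, 6, 0),
   (-1, 34, 2, 51, 6, 0),
   (-1, 34, 21, 5, 6, 0),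
   (-1, 51, 2, 3, 6, 4),
   (1, 53, 1, 4, 6, 2),
   (-1, 53, 1, 42, 6, 0),
   (1, 123, 4, 5, 6, 0),
   (-3, 134, 2, 5, 6, 0),
   (1, 153, 2, 4, 6, 0),
   (-1, 234, 1, 5, 6, 0),
   (1, 314, 2, 5, 6, 0),
   (-1, 534, 1, 2, 6, 0)]

/-- The word whose letters are those of `u` at the positions given by the decimal digits of `n`. -/
def sub (u : List (Fin 3)) (n : ℕ) : List (Fin 3) := (digs 7 n).map (fun i => u.getD (i - 1) 0)

/-- The terms `(c, a, p, q, r, b)` that express a word of length six in three letters: two of its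
letters at the positions `0, 1, 4, 5` are equal. -/
def win (u : List (Fin 3)) :
    List (ℚ × List (Fin 3) × List (Fin 3) × List (Fin 3) × List (Fin 3) × List (Fin 3)) :=
  (if u.getD 0 0 = u.getD 1 0 then win01 else if u.getD 4 0 = u.getD 5 0 then win45
    else if u.getD 0 0 = u.getD 5 0 then win05 else if u.getD 0 0 = u.getD 4 0 then win04
    else if u.getD 1 0 = u.getD 5 0 then win15 else win14).map
  (fun x => ((x.1 : ℚ) / 12, sub u x.2.1, sub u x.2.2.1, sub u x.2.2.2.1, sub u x.2.2.2.2.1,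
    sub u x.2.2.2.2.2))

/-- The variable attached to a generator word. -/
noncomputable def gvar (g : List (Fin 3)) : MvPolynomial (Fin 45) ℂ :=
  MvPolynomial.X (Fin.ofNat 45 (genList.idxOf g))

/-- The value of `low` at four lists. -/
noncomputable def lowL (f : FreeMonoid (Fin 3) → MvPolynomial (Fin 45) ℂ)
    (p q r s : List (Fin 3)) : MvPolynomial (Fin 45) ℂ :=
  low f (FreeMonoid.ofList p) (FreeMonoid.ofList q) (FreeMonoid.ofList r) (FreeMonoid.ofList s)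

/-- The reduction of a word of length at most six that is its own least rotation: the empty word has
trace three, a generator is a variable, the cube of a letter is reduced by the Cayley–Hamilton
theorem with determinant one, all other words by the rules. -/
noncomputable def short (f : FreeMonoid (Fin 3) → MvPolynomial (Fin 45) ℂ)
    (w : List (Fin 3)) : MvPolynomial (Fin 45) ℂ :=
  if w = [] then 3
  else if w ∈ genList then gvar w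
  else if w.length = 3 then
    (-(1 / 2 : ℚ)) • gvar (w.take 1) ^ 3 + (3 / 2 : ℚ) • (gvar (w.take 1) * gvar (w.take 2)) + 3
  else match rules.find? (fun e => wd e.1 = w) with
    | some e => (1 / (e.2.1 : ℚ)) • ((e.2.2.1.map (fun x => x.1 • gvar (wd x.2))).sum
        + (e.2.2.2.map (fun x => x.1 • lowL f (wd x.2.1) (wd x.2.2.1) (wd x.2.2.2.1)
            (wd x.2.2.2.2))).sum)
    | none => 0

/-- The reduction of a word of length at least seven, by its first six letters. -/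
noncomputable def long (f : FreeMonoid (Fin 3) → MvPolynomial (Fin 45) ℂ)
    (w : List (Fin 3)) : MvPolynomial (Fin 45) ℂ :=
  ((win (w.take 6)).map (fun x => x.1 • lowL f x.2.2.1 x.2.2.2.1 x.2.2.2.2.1
    (x.2.2.2.2.2 ++ w.drop 6 ++ x.2.1))).sum

/-- One step of the reduction: the value at `w` from the values at the shorter words. -/
noncomputable def step (f : FreeMonoid (Fin 3) → MvPolynomial (Fin 45) ℂ)
    (w : FreeMonoid (Fin 3)) : MvPolynomial (Fin 45) ℂ :=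
  if w.length ≤ 6 then short f (canon w.toList) else long f w.toList

/-- The polynomial in the 45 variables attached to a word: it is obtained by applying `step` as many
times as the length of the word requires. -/
noncomputable def rho (w : FreeMonoid (Fin 3)) : MvPolynomial (Fin 45) ℂ :=
  (step^[w.length + 1] (fun _ => 0)) w

/-- The explicit relations: invariance of the reduced traces under rotation and the reduced
fundamental trace identities, for words of total length at most twenty. -/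
def relations : Set (MvPolynomial (Fin 45) ℂ) :=
  {F | ∃ a b : FreeMonoid (Fin 3), a.length + b.length ≤ 20 ∧ F = rho (a * b) - rho (b * a)} ∪
  {F | ∃ p q r s : FreeMonoid (Fin 3), p.length + q.length + r.length + s.length ≤ 20 ∧
    F = fund rho p q r s}

end Pool.Agent.H20.TR
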